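import Mathlib
import Pool.Agent.H32.Hom.Facts

/-!
# Homogeneous colourings of locally unicyclic cubic graphs: definitions

The abstract core works on the vertices `U` which are not on a deleted short cycle.
-/

namespace Pool.Agent.HC

open Pool.Agent.H32.Hom

/-- The data of the core: the permutation `f` (the lines), the mates `mt` (`mt v = v` if the mate
of `v` was deleted), the special points `Sp`, the vertex `u p` whose colour is imported after the
special point `p`, and the relation `X` (both attached to the same deleted cycle). -/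
structure Dat (U : Type) where
  f : Equiv.Perm U
  mt : U → U
  Sp : Set U
  u : U → U
  X : U → U → Prop

variable {U : Type}

/-- Walks which do not use the edge from `v` to its mate: `m` steps to the mate, `e` steps through
`X`, and `l` other steps. -/
inductive Wk (D : Dat U) (v : U) : ℕ → ℕ → ℕ → U → U → Prop
  | nil (y : U) : Wk D v 0 0 0 y y
  | fwd {m e l : ℕ} {y z : U} : Wk D v m e l (D.f y) z → Wk D v m e (l + 1) y z
  | bwd {m e l : ℕ} {y z : U} : Wk D v m e l (D.f.symm y) z → Wk D v m e (l + 1) y z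
  | mate {m e l : ℕ} {y z : U} : D.mt y ≠ y → y ≠ v → y ≠ D.mt v →
      Wk D v m e l (D.mt y) z → Wk D v (m + 1) e l y z
  | imp {m e l : ℕ} {p z : U} : p ∈ D.Sp → Wk D v m e l (D.u p) z → Wk D v m e (l + 1) p z
  | imp' {m e l : ℕ} {p z : U} : p ∈ D.Sp → Wk D v m e l p z → Wk D v m e (l + 1) (D.u p) z
  | ex {m e l : ℕ} {y y' z : U} : D.X y y' → Wk D v m e l y' z → Wk D v m (e + 1) l y z

/-- The vertices which the windows have to avoid. -/
def Bad (D : Dat U) (L : ℕ) (v : U) : Prop :=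
  (∃ y, D.X v y) ∨ D.mt v = v ∨ (∃ p ∈ D.Sp, ∃ j ≤ 3, (D.f ^ j) p = v) ∨
    ∃ m ≤ 2, ∃ e ≤ 1, ∃ l ≤ 60 * L, Wk D v m e l (D.mt v) v

/-- The properties of the data which the core needs. -/
structure Sep (D : Dat U) (L : ℕ) : Prop where
  invol : ∀ v, D.mt (D.mt v) = v
  w0 : ∀ (v : U) (a : ℤ), a ≠ 0 → |a| ≤ 60 * (L : ℤ) → (D.f ^ a) v ≠ v
  h1 : ∀ v, D.mt v ≠ v → ∀ l ≤ 30 * L, ¬ Wk D v 0 0 l (D.mt v) v
  xs : ∀ x y, D.X x y → D.X y x
  xi : ∀ x y, D.X x y → x ≠ y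
  x3 : ∀ x y x' y', D.X x y → D.X x' y' → ∀ a : ℤ, |a| ≤ 60 * (L : ℤ) → (D.f ^ a) x = x' → x = x'
  x4 : ∀ x, ∃ T : Finset U, (∀ y, D.X x y → y ∈ T) ∧ T.card ≤ 300 * L
  s1 : ∀ p ∈ D.Sp, D.mt (D.u p) = D.u p
  s2 : ∀ p ∈ D.Sp, D.X p (D.u p)
  s3 : ∀ p ∈ D.Sp, D.mt p ≠ p
  s4 : ∀ p ∈ D.Sp, D.mt (D.f p) ≠ D.f p
  s6 : Set.InjOn D.u D.Sp
  bc : ∀ v, ∃ T : Finset ℕ, (∀ t < 3 * L, Bad D L ((D.f ^ t) v) → t ∈ T) ∧ T.card ≤ 21

/-- The blocks which can give colours at `x`: the three blocks of `x` and, in a special block,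
the three blocks of the imported vertex. -/
def In4 (D : Dat U) (st : U → U) (x b : U) : Prop :=
  In3 D.f st x b ∨ (st x ∈ D.Sp ∧ In3 D.f st (D.u (st x)) b)

/-- Two blocks are related if they occur together around a vertex and its mate, or at two
vertices attached to the same deleted cycle. -/
def Rel4 (D : Dat U) (st : U → U) (a b : U) : Prop :=
  (∃ x, In4 D st x a ∧ (In4 D st x b ∨ In4 D st (D.mt x) b)) ∨
    ∃ x y, D.X x y ∧ In3 D.f st x a ∧ In3 D.f st y b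

open Classical in
/-- The block which gives the colour of a vertex `v` outside the windows. -/
noncomputable def sg4 (D : Dat U) (st : U → U) (pos : U → ℕ) (w : ℕ) (p : U → ℕ) (v : U) : U :=
  if st v ∈ D.Sp ∧ ¬ Odd (pos v) ∧ 2 ≤ pos v ∧ pos v / w < p (st v) then
    sg D.f st pos w p (D.u (st v))
  else sg D.f st pos w p v

/-- The block whose colour is seen at position `i` of the block of `s`, through the mate. -/
noncomputable def src4 (D : Dat U) (st : U → U) (pos : U → ℕ) (w : ℕ) (p : U → ℕ) (s : U)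
    (i : ℕ) : U :=
  sg4 D st pos w p (D.mt ((D.f ^ i) s))

/-- The positions `i < j` of the window of `s` see the same colour `ξ (src4 s i)`, and this colour
is not seen by anything that matters between them. -/
structure GoodPair4 {q : ℕ} (D : Dat U) (st : U → U) (pos : U → ℕ) (w : ℕ) (p : U → ℕ)
    (ξ : U → Fin q) (s : U) (i j : ℕ) : Prop where
  oi : Odd i
  oj : Odd j
  lt : i < j
  wi : i / w = p s
  wj : j / w = p s
  ni : ¬ Win st pos w p (D.mt ((D.f ^ i) s))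
  nj : ¬ Win st pos w p (D.mt ((D.f ^ j) s))
  eq : ξ (src4 D st pos w p s j) = ξ (src4 D st pos w p s i)
  ri : ∀ b, b ≠ src4 D st pos w p s i → Rel4 D st (src4 D st pos w p s i) b →
    ξ b ≠ ξ (src4 D st pos w p s i)
  rj : ∀ b, b ≠ src4 D st pos w p s j → Rel4 D st (src4 D st pos w p s j) b →
    ξ b ≠ ξ (src4 D st pos w p s i)
  mid : ∀ t, i < t → t < j → ∀ b, In4 D st (D.mt ((D.f ^ t) s)) b →
    ξ b ≠ ξ (src4 D st pos w p s i)
  win : ∀ t, i < t → t < j → Win st pos w p (D.mt ((D.f ^ t) s)) →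
    ∀ y, st y = st (D.mt ((D.f ^ t) s)) → Win st pos w p y → ¬ Win st pos w p (D.mt y) →
    ξ (sg4 D st pos w p (D.mt y)) ≠ ξ (src4 D st pos w p s i)

/-- What the colouring needs from the block colours `κ`, for the block of `s`. -/
def Imp {C : Type} (D : Dat U) (st : U → U) (pos : U → ℕ) (w : ℕ) (p : U → ℕ) (κ : U → C)
    (s : U) : Prop :=
  ∃ (i j : ℕ) (z : C), Odd i ∧ Odd j ∧ i < j ∧ i / w = p s ∧ j / w = p s ∧
    ¬ Win st pos w p (D.mt ((D.f ^ i) s)) ∧ ¬ Win st pos w p (D.mt ((D.f ^ j) s)) ∧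
    κ (src4 D st pos w p s i) = z ∧ κ (src4 D st pos w p s j) = z ∧
    ∀ t, i < t → t < j → (∀ b, In4 D st (D.mt ((D.f ^ t) s)) b → κ b ≠ z) ∧
      (Win st pos w p (D.mt ((D.f ^ t) s)) → ∀ y, st y = st (D.mt ((D.f ^ t) s)) →
        Win st pos w p y → ¬ Win st pos w p (D.mt y) → κ (sg4 D st pos w p (D.mt y)) ≠ z)

/-- The condition of a two-homogeneous colouring at `v`. -/
def HomAt {V C : Type} (f : Equiv.Perm V) (mt : V → V) (c : V → C) (v : V) : Prop :=
  c (f v) ≠ c v ∧ c (mt v) ≠ c v ∧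
    ((c (f v) = c (f.symm v) ∧ c (mt v) ≠ c (f v)) ∨
      (c (mt v) = c (f v) ∧ c (f.symm v) ≠ c (f v)) ∨
      (c (mt v) = c (f.symm v) ∧ c (f v) ≠ c (f.symm v)))

/-- The conclusion of the core. -/
structure Out {C : Type} (D : Dat U) (c : U → C) : Prop where
  hom : ∀ v, D.mt v ≠ v → (∀ p ∈ D.Sp, v ≠ D.f p) → HomAt D.f D.mt c v
  e : ∀ v, D.mt v = v → c (D.f v) = c (D.f.symm v) ∧ c (D.f v) ≠ c v
  sp : ∀ p ∈ D.Sp, c (D.f (D.f p)) = c (D.u p) ∧ c (D.f p) ≠ c p ∧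
    c (D.f (D.f p)) ≠ c (D.f p) ∧ c (D.mt (D.f p)) ≠ c (D.f p) ∧
    c (D.mt (D.f p)) ≠ c (D.f (D.f p)) ∧ c (D.f.symm p) = c (D.f p)
  x : ∀ a b, D.X a b → ∀ a' b', (a' = a ∨ a' = D.f a ∨ a' = D.f.symm a) →
    (b' = b ∨ b' = D.f b ∨ b' = D.f.symm b) → c a' ≠ c b'

end Pool.Agent.HC
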