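import Mathlib
import Pool.Agent.HC.Defs

/-!
# Locally unicyclic cubic graphs: deleted cycles and the data of the core
-/

namespace Pool.Agent.HC

open Pool.Agent.H32.Hom

variable {V : Type}

/-- Every set `S` of at most `N` vertices spans at most `|S|` edges. -/
def Sparse (G : SimpleGraph V) (N : ℕ) : Prop :=
  ∀ S : Set V, S.ncard ≤ N → {e | e ∈ G.edgeSet ∧ ∀ v ∈ e, v ∈ S}.ncard ≤ S.ncard

/-- Every vertex of `S` has two neighbours in `S`. -/
def Two (G : SimpleGraph V) (S : Set V) : Prop :=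
  ∀ v ∈ S, ∃ a ∈ S, ∃ b ∈ S, a ≠ b ∧ G.Adj v a ∧ G.Adj v b

/-- `S` is connected. -/
def InConn (G : SimpleGraph V) (S : Set V) : Prop :=
  ∀ x ∈ S, ∀ y ∈ S, Relation.ReflTransGen (fun a b => G.Adj a b ∧ a ∈ S ∧ b ∈ S) x y

/-- The vertices `w, f w, ..., f ^ (ℓ - 1) w` form a cycle with at most one edge of the
matching. -/
structure IsRing (f : Equiv.Perm V) (mt : V → V) (n : ℕ) (w : V) (ℓ : ℕ) : Prop where
  three : 3 ≤ ℓ
  le : ℓ ≤ n
  inj : ∀ i < ℓ, ∀ j < ℓ, (f ^ i) w = (f ^ j) w → i = j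
  cl : (f ^ ℓ) w = w ∨ (f ^ (ℓ - 1)) w = mt w

/-- The vertices of the ring. -/
def rset (f : Equiv.Perm V) (w : V) (ℓ : ℕ) : Set V := {x | ∃ i < ℓ, (f ^ i) w = x}

/-- The deleted vertices. -/
def Del (f : Equiv.Perm V) (mt : V → V) (n : ℕ) : Set V :=
  {x | ∃ w ℓ, IsRing f mt n w ℓ ∧ x ∈ rset f w ℓ}

/-- The vertex `x` is attached to the ring: by its matching edge, or from the front. -/
def At (f : Equiv.Perm V) (mt : V → V) (w : V) (ℓ : ℕ) (x : V) : Prop :=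
  mt x ∈ rset f w ℓ ∨ f x = w

/-- The vertices which are not deleted. -/
abbrev UU (f : Equiv.Perm V) (mt : V → V) (n : ℕ) : Type := {v : V // v ∉ Del f mt n}

/-- The data `D` of the core describe the graph with the rings deleted. -/
structure Link (f : Equiv.Perm V) (mt : V → V) (n : ℕ) (D : Dat (UU f mt n)) : Prop where
  f1 : ∀ v : UU f mt n, f v ∉ Del f mt n → (D.f v : V) = f v
  f2 : ∀ v : UU f mt n, f v ∈ Del f mt n → (D.f v : V) = f (mt (f v))
  m1 : ∀ v : UU f mt n, mt v ∉ Del f mt n → (D.mt v : V) = mt v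
  m2 : ∀ v : UU f mt n, mt v ∈ Del f mt n → D.mt v = v
  sp : ∀ p : UU f mt n, p ∈ D.Sp ↔ ∃ ℓ, IsRing f mt n (f p) ℓ ∧ Odd ℓ
  u : ∀ p ∈ D.Sp, (D.u p : V) = mt (f (f p))
  x : ∀ a b : UU f mt n, D.X a b ↔
    a ≠ b ∧ ∃ w ℓ, IsRing f mt n w ℓ ∧ At f mt w ℓ a ∧ At f mt w ℓ b

open Classical in
/-- The number of matching edges of a walk which do not touch a deleted vertex. -/
noncomputable def mc {G : SimpleGraph V} (f : Equiv.Perm V) (mt : V → V) (n : ℕ) {x y : V}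
    (p : G.Walk x y) : ℕ :=
  p.edges.countP (fun e => ∃ z, e = s(z, mt z) ∧ z ∉ Del f mt n ∧ mt z ∉ Del f mt n)

end Pool.Agent.HC
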