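import Mathlib
import Pool.Agent.HC.GDefs

/-!
# Consequences of local sparsity
-/

namespace Pool.Agent.HC

variable {V : Type} {G : SimpleGraph V} {N : ℕ}

/-- In a small set with at least two neighbours everywhere no vertex has three. -/
theorem no_three [Finite V] (hs : Sparse G N) {S : Set V} (h2 : Two G S) (hN : S.ncard ≤ N)
    {v a b c : V} (hv : v ∈ S) (ha : a ∈ S) (hb : b ∈ S) (hc : c ∈ S) (hab : a ≠ b) (hac : a ≠ c)
    (hbc : b ≠ c) (h1 : G.Adj v a) (h2' : G.Adj v b) (h3 : G.Adj v c) : False := by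
  classical
  have := Fintype.ofFinite V
  have hsum := SimpleGraph.sum_degrees_eq_twice_card_edges (G.induce S)
  have hedge : (G.induce S).edgeFinset.card ≤ S.ncard := by
    refine le_trans ?_ (hs S hN)
    rw [← Set.ncard_coe_finset]
    apply Set.ncard_le_ncard_of_injOn (Sym2.map Subtype.val)
    · intro e he
      rw [SimpleGraph.coe_edgeFinset] at he
      induction e with
      | _ x y =>
        rw [SimpleGraph.mem_edgeSet, SimpleGraph.induce_adj] at he
        rw [Sym2.map_mk]
        refine ⟨he, ?_⟩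
        intro z hz
        rw [Sym2.mem_iff] at hz
        rcases hz with rfl | rfl
        · exact x.2
        · exact y.2
    · exact (Sym2.map.injective Subtype.val_injective).injOn
  have hdeg : ∀ x : S, 2 ≤ (G.induce S).degree x := by
    intro x
    obtain ⟨p, hp, q, hq, hpq, h4, h5⟩ := h2 x x.2
    have h6 : ({⟨p, hp⟩, ⟨q, hq⟩} : Finset S) ⊆ (G.induce S).neighborFinset x := by
      intro z hz
      rw [Finset.mem_insert, Finset.mem_singleton] at hz
      rw [SimpleGraph.mem_neighborFinset, SimpleGraph.induce_adj]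
      rcases hz with rfl | rfl
      · exact h4
      · exact h5
    have h7 := Finset.card_le_card h6
    rwa [Finset.card_pair (by simpa using hpq), SimpleGraph.card_neighborFinset_eq_degree] at h7
  have hdeg3 : 3 ≤ (G.induce S).degree ⟨v, hv⟩ := by
    have h6 : ({⟨a, ha⟩, ⟨b, hb⟩, ⟨c, hc⟩} : Finset S) ⊆
        (G.induce S).neighborFinset ⟨v, hv⟩ := by
      intro z hz
      rw [Finset.mem_insert, Finset.mem_insert, Finset.mem_singleton] at hz
      rw [SimpleGraph.mem_neighborFinset, SimpleGraph.induce_adj]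
      rcases hz with rfl | rfl | rfl
      · exact h1
      · exact h2'
      · exact h3
    have h7 := Finset.card_le_card h6
    rwa [Finset.card_eq_three.mpr ⟨_, _, _, by simpa using hab, by simpa using hac,
      by simpa using hbc, rfl⟩, SimpleGraph.card_neighborFinset_eq_degree] at h7
  have hlt : ∑ _x : S, 2 < ∑ x : S, (G.induce S).degree x :=
    Finset.sum_lt_sum (fun x _ => hdeg x) ⟨⟨v, hv⟩, Finset.mem_univ _, hdeg3⟩
  rw [hsum, Finset.sum_const, smul_eq_mul, Finset.card_univ, ← Nat.card_eq_fintype_card,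
    Nat.card_coe_set_eq] at hlt
  omega

theorem Two.union {S T : Set V} (hS : Two G S) (hT : Two G T) : Two G (S ∪ T) := by
  rintro v (hv | hv)
  · obtain ⟨a, ha, b, hb, h⟩ := hS v hv
    exact ⟨a, Or.inl ha, b, Or.inl hb, h⟩
  · obtain ⟨a, ha, b, hb, h⟩ := hT v hv
    exact ⟨a, Or.inr ha, b, Or.inr hb, h⟩

/-- A subset with two neighbours everywhere is closed under adjacency. -/
theorem two_closed [Finite V] (hs : Sparse G N) {S T : Set V} (hT : Two G T) (hN : T.ncard ≤ N)
    (hS : Two G S) (hST : S ⊆ T) {v w : V} (hv : v ∈ S) (hw : w ∈ T) (hvw : G.Adj v w) :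
    w ∈ S := by
  by_contra hwS
  obtain ⟨a, ha, b, hb, hab, h1, h2⟩ := hS v hv
  exact no_three hs hT hN (hST hv) (hST ha) (hST hb) hw hab (fun h => hwS (h ▸ ha))
    (fun h => hwS (h ▸ hb)) h1 h2 hvw

theorem subset_of_touch [Finite V] (hs : Sparse G N) {S S' T : Set V} (hT : Two G T)
    (hN : T.ncard ≤ N) (hS : Two G S) (hST : S ⊆ T) (hC : InConn G S') (hS'T : S' ⊆ T) {z : V}
    (hz : z ∈ S) (hz' : z ∈ S') : S' ⊆ S := by
  intro x hx
  have h := hC z hz' x hx
  induction h with
  | refl => exact hz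
  | tail _ hbc ih => exact two_closed hs hT hN hS hST (ih hbc.2.1) (hS'T hbc.2.2) hbc.1

end Pool.Agent.HC
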