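import Mathlib
import Pool.Agent.HC.Spars

/-!
Paths and small sets with two neighbours everywhere
-/

namespace Pool.Agent.HC

variable {V : Type} {G : SimpleGraph V} {N : ℕ}

theorem getVert_edge_mem {x y : V} (p : G.Walk x y) :
    ∀ i < p.length, s(p.getVert i, p.getVert (i + 1)) ∈ p.edges := by
  induction p with
  | nil =>
    intro i hi
    simp at hi
  | cons h q ih =>
    intro i hi
    cases i with
    | zero => simp
    | succ i =>
      rw [SimpleGraph.Walk.getVert_cons_succ, SimpleGraph.Walk.getVert_cons_succ,
        SimpleGraph.Walk.edges_cons]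
      refine List.mem_cons_of_mem _ (ih i ?_)
      rw [SimpleGraph.Walk.length_cons] at hi
      omega

/-- An inner vertex of a path has two neighbours on the path. -/
theorem interior_two {x y z : V} (p : G.Walk x y) (hp : p.IsPath) (hz : z ∈ p.support)
    (hx : z ≠ x) (hy : z ≠ y) :
    ∃ a ∈ p.support, ∃ b ∈ p.support, a ≠ b ∧ G.Adj z a ∧ G.Adj z b := by
  obtain ⟨n, hn, hnl⟩ := SimpleGraph.Walk.mem_support_iff_exists_getVert.1 hz
  have hn0 : n ≠ 0 := by
    rintro rfl
    rw [SimpleGraph.Walk.getVert_zero] at hn
    exact hx hn.symm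
  have hnL : n ≠ p.length := by
    rintro rfl
    rw [SimpleGraph.Walk.getVert_length] at hn
    exact hy hn.symm
  refine ⟨p.getVert (n - 1), p.getVert_mem_support _, p.getVert (n + 1), p.getVert_mem_support _,
    ?_, ?_, ?_⟩
  · intro h
    have h1 := hp.getVert_injOn (by simp only [Set.mem_ofPred_eq]; omega)
      (by simp only [Set.mem_ofPred_eq]; omega) h
    omega
  · have h1 := p.adj_getVert_succ (i := n - 1) (by omega)
    rw [show n - 1 + 1 = n by omega, hn] at h1
    exact h1.symm
  · have h1 := p.adj_getVert_succ (i := n) (by omega)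
    rw [hn] at h1
    exact h1

/-- A path together with an edge joining its ends which it does not use. -/
theorem two_of_path {x y : V} (p : G.Walk x y) (hp : p.IsPath) (hxy : G.Adj x y)
    (he : s(x, y) ∉ p.edges) : Two G {z | z ∈ p.support} := by
  have hl : p.length ≠ 0 := by
    intro h
    exact hxy.ne (SimpleGraph.Walk.eq_of_length_eq_zero h)
  intro z hz
  by_cases hzx : z = x
  · subst hzx
    refine ⟨p.getVert 1, p.getVert_mem_support _, y, p.end_mem_support, ?_, ?_, hxy⟩
    · intro h
      apply he
      have h1 := getVert_edge_mem p 0 (by omega)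
      rw [SimpleGraph.Walk.getVert_zero, zero_add, h] at h1
      exact h1
    · have h1 := p.adj_getVert_succ (i := 0) (by omega)
      rw [SimpleGraph.Walk.getVert_zero, zero_add] at h1
      exact h1
  by_cases hzy : z = y
  · subst hzy
    refine ⟨p.getVert (p.length - 1), p.getVert_mem_support _, x, p.start_mem_support, ?_, ?_,
      hxy.symm⟩
    · intro h
      apply he
      have h1 := getVert_edge_mem p (p.length - 1) (by omega)
      rw [show p.length - 1 + 1 = p.length by omega, SimpleGraph.Walk.getVert_length, h] at h1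
      exact h1
    · have h1 := p.adj_getVert_succ (i := p.length - 1) (by omega)
      rw [show p.length - 1 + 1 = p.length by omega, SimpleGraph.Walk.getVert_length] at h1
      exact h1.symm
  · exact interior_two p hp hz hzx hzy

theorem inConn_support {x y : V} (p : G.Walk x y) : InConn G {z | z ∈ p.support} := by
  have key : ∀ n ≤ p.length, Relation.ReflTransGen (fun a b => G.Adj a b ∧
      a ∈ {z | z ∈ p.support} ∧ b ∈ {z | z ∈ p.support}) x (p.getVert n) := by
    intro n
    induction n with
    | zero =>
      intro _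
      rw [SimpleGraph.Walk.getVert_zero]
    | succ n ih =>
      intro hn
      exact (ih (by omega)).tail ⟨p.adj_getVert_succ (by omega), p.getVert_mem_support _,
        p.getVert_mem_support _⟩
  have key' : ∀ n ≤ p.length, Relation.ReflTransGen (fun a b => G.Adj a b ∧
      a ∈ {z | z ∈ p.support} ∧ b ∈ {z | z ∈ p.support}) (p.getVert n) x := by
    intro n
    induction n with
    | zero =>
      intro _
      rw [SimpleGraph.Walk.getVert_zero]
    | succ n ih =>
      intro hn
      exact (ih (by omega)).head ⟨(p.adj_getVert_succ (by omega)).symm, p.getVert_mem_support _,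
        p.getVert_mem_support _⟩
  intro u hu v hv
  obtain ⟨n, hn, hnl⟩ := SimpleGraph.Walk.mem_support_iff_exists_getVert.1 hu
  obtain ⟨k, hk, hkl⟩ := SimpleGraph.Walk.mem_support_iff_exists_getVert.1 hv
  rw [← hn, ← hk]
  exact (key' n hnl).trans (key k hkl)

theorem ncard_support_le {x y : V} (p : G.Walk x y) :
    {z | z ∈ p.support}.ncard ≤ p.length + 1 := by
  classical
  have h1 : {z | z ∈ p.support} = (p.support.toFinset : Set V) := by
    ext z
    simp
  rw [h1, Set.ncard_coe_finset, ← SimpleGraph.Walk.length_support]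
  exact p.support.toFinset_card_le

/-- Two such sets which are near each other are equal. -/
theorem two_eq [Finite V] (hs : Sparse G N) {S S' : Set V} (hS : Two G S) (hS' : Two G S')
    (hC : InConn G S) (hC' : InConn G S') {x y : V} (hx : x ∈ S) (hy : y ∈ S') (p : G.Walk x y)
    (hN : S.ncard + S'.ncard + (p.length + 1) ≤ N) : S = S' := by
  classical
  set q := p.bypass with hq
  have hqp : q.IsPath := p.bypass_isPath
  have hql : q.length ≤ p.length := p.length_bypass_le_length
  set T : Set V := S ∪ S' ∪ {z | z ∈ q.support} with hT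
  have hST : S ⊆ T := fun z hz => Or.inl (Or.inl hz)
  have hS'T : S' ⊆ T := fun z hz => Or.inl (Or.inr hz)
  have hqT : ∀ z ∈ q.support, z ∈ T := fun z hz => Or.inr hz
  have hT2 : Two G T := by
    have hin : ∀ (R : Set V), Two G R → R ⊆ T → ∀ v ∈ R, ∃ a ∈ T, ∃ b ∈ T, a ≠ b ∧
        G.Adj v a ∧ G.Adj v b := by
      intro R hR hRT v hv
      obtain ⟨a, ha, b, hb, h1, h2, h3⟩ := hR v hv
      exact ⟨a, hRT ha, b, hRT hb, h1, h2, h3⟩
    rintro v ((hv | hv) | hv)
    · exact hin S hS hST v hv
    · exact hin S' hS' hS'T v hv
    · by_cases hvx : v = x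
      · subst hvx
        exact hin S hS hST v hx
      by_cases hvy : v = y
      · subst hvy
        exact hin S' hS' hS'T v hy
      obtain ⟨a, ha, b, hb, h1, h2, h3⟩ := interior_two q hqp hv hvx hvy
      exact ⟨a, hqT a ha, b, hqT b hb, h1, h2, h3⟩
  have hTN : T.ncard ≤ N := by
    have h1 : T.ncard ≤ (S ∪ S').ncard + {z | z ∈ q.support}.ncard := Set.ncard_union_le _ _
    have h2 : (S ∪ S').ncard ≤ S.ncard + S'.ncard := Set.ncard_union_le _ _
    have h3 := ncard_support_le q
    omega
  have hall : ∀ n ≤ q.length, q.getVert n ∈ S := by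
    intro n
    induction n with
    | zero =>
      intro _
      rw [SimpleGraph.Walk.getVert_zero]
      exact hx
    | succ n ih =>
      intro hn
      exact two_closed hs hT2 hTN hS hST (ih (by omega)) (hqT _ (q.getVert_mem_support _))
        (q.adj_getVert_succ (by omega))
  have hyS : y ∈ S := by
    have h1 := hall q.length le_rfl
    rwa [SimpleGraph.Walk.getVert_length] at h1
  exact Set.Subset.antisymm (subset_of_touch hs hT2 hTN hS' hS'T hC hST hy hyS)
    (subset_of_touch hs hT2 hTN hS hST hC' hS'T hyS hy)

end Pool.Agent.HC
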