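import Mathlib
import Pool.Agent.HC.PathTwo

/-!
# Facts about the deleted cycles
-/

namespace Pool.Agent.HC

open Pool.Agent.H32.Hom

variable {V : Type} {G : SimpleGraph V} {N n : ℕ} {f : Equiv.Perm V} {mt : V → V}

theorem rset_ncard_le (f : Equiv.Perm V) (w : V) (ℓ : ℕ) : (rset f w ℓ).ncard ≤ ℓ := by
  have h : rset f w ℓ = (fun i => (f ^ i) w) '' (Finset.range ℓ : Set ℕ) := by
    ext x
    constructor
    · rintro ⟨i, hi, hx⟩
      exact ⟨i, by simpa using hi, hx⟩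
    · rintro ⟨i, hi, hx⟩
      exact ⟨i, by simpa using hi, hx⟩
  rw [h]
  refine (Set.ncard_image_le (Finset.finite_toSet _)).trans ?_
  rw [Set.ncard_coe_finset, Finset.card_range]

private theorem ra_succ (f : Equiv.Perm V) (w : V) (i : ℕ) : (f ^ (i + 1)) w = f ((f ^ i) w) := by
  rw [pow_succ', Equiv.Perm.mul_apply]

private theorem ra_pred (f : Equiv.Perm V) (w : V) (i : ℕ) :
    f.symm ((f ^ (i + 1)) w) = (f ^ i) w := by
  rw [ra_succ, Equiv.symm_apply_apply]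

theorem IsRing.two (hd : Desc G f mt) {w : V} {ℓ : ℕ} (h : IsRing f mt n w ℓ) :
    Two G (rset f w ℓ) := by
  have h3 := h.three
  have e0 : (f ^ 0) w = w := rfl
  have elast : (f ^ (ℓ - 1 + 1)) w = (f ^ ℓ) w := by
    rw [Nat.sub_add_cancel (by omega)]
  rintro v ⟨i, hi, rfl⟩
  set v := (f ^ i) w with hv
  have af : G.Adj v (f v) := (hd.nbr v _).2 (Or.inl rfl)
  have as : G.Adj v (f.symm v) := (hd.nbr v _).2 (Or.inr (Or.inl rfl))
  have am : G.Adj v (mt v) := (hd.nbr v _).2 (Or.inr (Or.inr rfl))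
  rcases Nat.eq_zero_or_pos i with rfl | hi0
  · have hvw : v = w := rfl
    have m1 : f v ∈ rset f w ℓ := ⟨1, by omega, by rw [hvw, pow_one]⟩
    rcases h.cl with hc | hc
    · have m2 : f.symm v ∈ rset f w ℓ := by
        refine ⟨ℓ - 1, by omega, ?_⟩
        rw [← ra_pred f w (ℓ - 1), elast, hc, hvw]
      exact ⟨f v, m1, f.symm v, m2, hd.d1 v, af, as⟩
    · have m2 : mt v ∈ rset f w ℓ := ⟨ℓ - 1, by omega, hc⟩
      exact ⟨f v, m1, mt v, m2, hd.d2 v, af, am⟩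
  · have m2 : f.symm v ∈ rset f w ℓ := by
      refine ⟨i - 1, by omega, ?_⟩
      rw [← ra_pred f w (i - 1), Nat.sub_add_cancel hi0]
    rcases Nat.lt_or_ge (i + 1) ℓ with h1 | h1
    · exact ⟨f v, ⟨i + 1, h1, ra_succ f w i⟩, f.symm v, m2, hd.d1 v, af, as⟩
    · have hil : i = ℓ - 1 := by omega
      rcases h.cl with hc | hc
      · have m1 : f v ∈ rset f w ℓ := by
          refine ⟨0, by omega, ?_⟩
          rw [e0, hv, ← ra_succ, hil, elast, hc]
        exact ⟨f v, m1, f.symm v, m2, hd.d1 v, af, as⟩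
      · have m1 : mt v ∈ rset f w ℓ := by
          refine ⟨0, by omega, ?_⟩
          rw [e0, hv, hil, hc, hd.invol]
        exact ⟨f.symm v, m2, mt v, m1, hd.d3 v, as, am⟩

theorem IsRing.inConn (hd : Desc G f mt) {w : V} {ℓ : ℕ} (h : IsRing f mt n w ℓ) :
    InConn G (rset f w ℓ) := by
  have key : ∀ i, i < ℓ →
      Relation.ReflTransGen (fun a b => G.Adj a b ∧ a ∈ rset f w ℓ ∧ b ∈ rset f w ℓ) w
        ((f ^ i) w) ∧
      Relation.ReflTransGen (fun a b => G.Adj a b ∧ a ∈ rset f w ℓ ∧ b ∈ rset f w ℓ)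
        ((f ^ i) w) w := by
    intro i
    induction i with
    | zero => exact fun _ => ⟨Relation.ReflTransGen.refl, Relation.ReflTransGen.refl⟩
    | succ i ih =>
      intro hi
      obtain ⟨h1, h2⟩ := ih (by omega)
      have ha : G.Adj ((f ^ i) w) ((f ^ (i + 1)) w) := by
        rw [ra_succ]
        exact (hd.nbr _ _).2 (Or.inl rfl)
      have m1 : (f ^ i) w ∈ rset f w ℓ := ⟨i, by omega, rfl⟩
      have m2 : (f ^ (i + 1)) w ∈ rset f w ℓ := ⟨i + 1, hi, rfl⟩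
      exact ⟨h1.tail ⟨ha, m1, m2⟩, h2.head ⟨ha.symm, m2, m1⟩⟩
  rintro x ⟨i, hi, rfl⟩ y ⟨j, hj, rfl⟩
  exact (key i hi).2.trans (key j hj).1

/-- equal powers -/
private theorem ra_sub (f : Equiv.Perm V) {v : V} {i j : ℕ} (hij : i ≤ j)
    (h : (f ^ i) v = (f ^ j) v) : (f ^ (j - i)) v = v := by
  have h1 : j = i + (j - i) := by omega
  rw [h1, pow_add, Equiv.Perm.mul_apply] at h
  exact ((f ^ i).injective h).symm

/-- the ring of a short cycle of `f` -/
private theorem ra_ring (hd : Desc G f mt) {v : V} {a : ℕ} (ha : 0 < a) (han : a ≤ n)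
    (h : (f ^ a) v = v) : ∃ ℓ, IsRing f mt n v ℓ ∧ (f ^ ℓ) v = v := by
  classical
  have hex : ∃ k, 0 < k ∧ (f ^ k) v = v := ⟨a, ha, h⟩
  set ℓ := Nat.find hex with hℓ
  have h1 : 0 < ℓ ∧ (f ^ ℓ) v = v := Nat.find_spec hex
  have hle : ℓ ≤ a := Nat.find_min' hex ⟨ha, h⟩
  have hmin : ∀ k, 0 < k → k < ℓ → (f ^ k) v ≠ v := fun k hk0 hk h2 =>
    Nat.find_min hex hk ⟨hk0, h2⟩
  have n1 : ℓ ≠ 1 := by
    intro h2
    have h3 := h1.2
    rw [h2, pow_one] at h3
    have h4 : G.Adj v (f v) := (hd.nbr v _).2 (Or.inl rfl)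
    rw [h3] at h4
    exact G.loopless.irrefl v h4
  have n2 : ℓ ≠ 2 := by
    intro h2
    have h3 := h1.2
    rw [h2, pow_two, Equiv.Perm.mul_apply] at h3
    apply hd.d1 v
    rw [Equiv.eq_symm_apply]
    exact h3
  refine ⟨ℓ, ⟨by omega, by omega, ?_, Or.inl h1.2⟩, h1.2⟩
  intro i hi j hj hij
  rcases lt_trichotomy i j with h2 | h2 | h2
  · exact absurd (ra_sub f h2.le hij) (hmin _ (by omega) (by omega))
  · exact h2
  · exact absurd (ra_sub f h2.le hij.symm) (hmin _ (by omega) (by omega))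

theorem mem_del_of_pow (hd : Desc G f mt) {v : V} {a : ℕ} (ha : 0 < a) (han : a ≤ n)
    (h : (f ^ a) v = v) : v ∈ Del f mt n := by
  obtain ⟨ℓ, h1, -⟩ := ra_ring (mt := mt) hd ha han h
  exact ⟨v, ℓ, h1, 0, by have := h1.three; omega, rfl⟩

/-- all powers are in the ring of the first kind -/
private theorem ra_mem {v : V} {ℓ : ℕ} (hℓ : 0 < ℓ) (h : (f ^ ℓ) v = v) (k : ℕ) :
    (f ^ k) v ∈ rset f v ℓ := by
  induction k with
  | zero => exact ⟨0, hℓ, rfl⟩
  | succ k ih =>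
    obtain ⟨i, hi, h1⟩ := ih
    rw [ra_succ, ← h1, ← ra_succ]
    rcases Nat.lt_or_ge (i + 1) ℓ with h2 | h2
    · exact ⟨i + 1, h2, rfl⟩
    · have h3 : i + 1 = ℓ := by omega
      rw [h3, h]
      exact ⟨0, hℓ, rfl⟩

theorem isRing_of_mt [Finite V] (hd : Desc G f mt) (hs : Sparse G N) (hN : n ≤ N) {w : V} {a : ℕ}
    (ha : 0 < a) (han : a + 1 ≤ n) (h : (f ^ a) w = mt w) : IsRing f mt n w (a + 1) := by
  have hper : ∀ k, 0 < k → k ≤ a → (f ^ k) w ≠ w := by
    intro k hk0 hka hk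
    obtain ⟨ℓ, h1, h2⟩ := ra_ring (mt := mt) (n := n) hd hk0 (by omega) hk
    have h3 := h1.three
    have m0 : w ∈ rset f w ℓ := ⟨0, by omega, rfl⟩
    have m1 : f w ∈ rset f w ℓ := by
      have := ra_mem (by omega) h2 1
      rwa [pow_one] at this
    have m2 : f.symm w ∈ rset f w ℓ := by
      refine ⟨ℓ - 1, by omega, ?_⟩
      rw [← ra_pred f w (ℓ - 1), Nat.sub_add_cancel (by omega), h2]
    have m3 : mt w ∈ rset f w ℓ := by
      rw [← h]
      exact ra_mem (by omega) h2 a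
    exact no_three hs (h1.two hd) ((rset_ncard_le f w ℓ).trans (h1.le.trans hN)) m0 m1 m2 m3
      (hd.d1 w) (hd.d2 w) (hd.d3 w) ((hd.nbr w _).2 (Or.inl rfl))
      ((hd.nbr w _).2 (Or.inr (Or.inl rfl))) ((hd.nbr w _).2 (Or.inr (Or.inr rfl)))
  refine ⟨?_, han, ?_, Or.inr h⟩
  · by_contra h3
    have h4 : a = 1 := by omega
    rw [h4, pow_one] at h
    exact hd.d2 w h
  · intro i hi j hj hij
    rcases lt_trichotomy i j with h2 | h2 | h2
    · exact absurd (ra_sub f h2.le hij) (hper _ (by omega) (by omega))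
    · exact h2
    · exact absurd (ra_sub f h2.le hij.symm) (hper _ (by omega) (by omega))

end Pool.Agent.HC
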