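import Mathlib
import Pool.Agent.HC.RingA

/-!
# The neighbours of the deleted cycles
-/

namespace Pool.Agent.HC

open Pool.Agent.H32.Hom

variable {V : Type} {G : SimpleGraph V} {N n : ℕ} {f : Equiv.Perm V} {mt : V → V}

private theorem rg_sub {w : V} {ℓ : ℕ} (h : IsRing f mt n w ℓ) : rset f w ℓ ⊆ Del f mt n :=
  fun _ hx => ⟨w, ℓ, h, hx⟩

private theorem rg_mem (f : Equiv.Perm V) (w : V) {ℓ i : ℕ} (hi : i < ℓ) :
    (f ^ i) w ∈ rset f w ℓ := ⟨i, hi, rfl⟩

private theorem rg_succ (f : Equiv.Perm V) (w : V) (i : ℕ) : (f ^ (i + 1)) w = f ((f ^ i) w) := by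
  rw [pow_succ', Equiv.Perm.mul_apply]

private theorem rg_pred (f : Equiv.Perm V) (w : V) {i : ℕ} (hi : 0 < i) :
    (f ^ (i - 1)) w = f.symm ((f ^ i) w) := by
  obtain ⟨j, rfl⟩ : ∃ j, i = j + 1 := ⟨i - 1, by omega⟩
  rw [rg_succ, Equiv.symm_apply_apply, Nat.add_sub_cancel]

private theorem rg_card {w w' : V} {ℓ ℓ' : ℕ} (h : IsRing f mt n w ℓ)
    (h' : IsRing f mt n w' ℓ') : (rset f w ℓ ∪ rset f w' ℓ').ncard ≤ 2 * n := by
  have h1 := Set.ncard_union_le (rset f w ℓ) (rset f w' ℓ')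
  have h2 := rset_ncard_le f w ℓ
  have h3 := rset_ncard_le f w' ℓ'
  have h4 := h.le
  have h5 := h'.le
  omega

private theorem rg_adj_f (hd : Desc G f mt) (v : V) : G.Adj v (f v) :=
  (hd.nbr v (f v)).2 (Or.inl rfl)

private theorem rg_adj_s (hd : Desc G f mt) (v : V) : G.Adj v (f.symm v) :=
  (hd.nbr v (f.symm v)).2 (Or.inr (Or.inl rfl))

private theorem rg_adj_m (hd : Desc G f mt) (v : V) : G.Adj v (mt v) :=
  (hd.nbr v (mt v)).2 (Or.inr (Or.inr rfl))

/-- The neighbours of a ring vertex are in the ring or not deleted. -/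
theorem ring_closed [Finite V] (hd : Desc G f mt) (hs : Sparse G N) (hN : 2 * n ≤ N) {w : V}
    {ℓ : ℕ} (h : IsRing f mt n w ℓ) {x y : V} (hx : x ∈ rset f w ℓ) (hy : y ∈ Del f mt n)
    (hxy : G.Adj x y) : y ∈ rset f w ℓ := by
  obtain ⟨w', ℓ', h', hy'⟩ := hy
  exact two_closed hs ((h.two hd).union (h'.two hd)) ((rg_card h h').trans hN) (h.two hd)
    Set.subset_union_left hx (Or.inr hy') hxy

/-- Two rings which touch are equal. -/
theorem ring_eq [Finite V] (hd : Desc G f mt) (hs : Sparse G N) (hN : 2 * n ≤ N) {w w' : V}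
    {ℓ ℓ' : ℕ} (h : IsRing f mt n w ℓ) (h' : IsRing f mt n w' ℓ') {x : V} (hx : x ∈ rset f w ℓ)
    (hx' : x ∈ rset f w' ℓ') : rset f w ℓ = rset f w' ℓ' := by
  have hT := (h.two hd).union (h'.two hd)
  have hc := (rg_card h h').trans hN
  refine Set.Subset.antisymm ?_ ?_
  · exact subset_of_touch hs hT hc (h'.two hd) Set.subset_union_right (h.inConn hd)
      Set.subset_union_left hx' hx
  · exact subset_of_touch hs hT hc (h.two hd) Set.subset_union_left (h'.inConn hd)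
      Set.subset_union_right hx hx'

/-- A vertex outside the rings has at most one neighbour on the rings. -/
theorem one_nbr [Finite V] (hd : Desc G f mt) (hs : Sparse G N) (hN : 2 * n + 1 ≤ N) {v a b : V}
    (hv : v ∉ Del f mt n) (ha : a ∈ Del f mt n) (hb : b ∈ Del f mt n) (h1 : G.Adj v a)
    (h2 : G.Adj v b) : a = b := by
  by_contra hab
  obtain ⟨w, ℓ, h, ha'⟩ := ha
  obtain ⟨w', ℓ', h', hb'⟩ := hb
  apply hv
  have hU := (h.two hd).union (h'.two hd)
  have hT : Two G (insert v (rset f w ℓ ∪ rset f w' ℓ')) := by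
    intro z hz
    rcases Set.mem_insert_iff.1 hz with rfl | hz
    · exact ⟨a, Or.inr (Or.inl ha'), b, Or.inr (Or.inr hb'), hab, h1, h2⟩
    · obtain ⟨c, hc, d, hd', hcd, h3, h4⟩ := hU z hz
      exact ⟨c, Or.inr hc, d, Or.inr hd', hcd, h3, h4⟩
  have hc : (insert v (rset f w ℓ ∪ rset f w' ℓ')).ncard ≤ N := by
    have h3 := Set.ncard_insert_le v (rset f w ℓ ∪ rset f w' ℓ')
    have h4 := rg_card h h'
    omega
  have h5 : v ∈ rset f w ℓ := two_closed hs hT hc (h.two hd)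
    (fun z hz => Or.inr (Or.inl hz)) ha' (Or.inl rfl) h1.symm
  exact rg_sub h h5

/-- Three different neighbours of a ring vertex: one is not deleted. -/
theorem third_notMem [Finite V] (hd : Desc G f mt) (hs : Sparse G N) (hN : 2 * n + 1 ≤ N)
    {v a b c : V} (hv : v ∈ Del f mt n) (ha : a ∈ Del f mt n) (hb : b ∈ Del f mt n) (hab : a ≠ b)
    (hac : a ≠ c) (hbc : b ≠ c) (h1 : G.Adj v a) (h2 : G.Adj v b) (h3 : G.Adj v c) :
    c ∉ Del f mt n := by
  intro hc
  obtain ⟨w, ℓ, h, hv'⟩ := hv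
  have h0 : 2 * n ≤ N := by omega
  have ha' := ring_closed hd hs h0 h hv' ha h1
  have hb' := ring_closed hd hs h0 h hv' hb h2
  have hc' := ring_closed hd hs h0 h hv' hc h3
  refine no_three hs (h.two hd) ?_ hv' ha' hb' hc' hab hac hbc h1 h2 h3
  have h4 := rset_ncard_le f w ℓ
  have h5 := h.le
  omega

/-- Entering a ring along `f`: the ring starts there and is of the second kind. -/
theorem ring_start [Finite V] (hd : Desc G f mt) (hs : Sparse G N) (hN : 2 * n + 1 ≤ N) {v : V}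
    (hv : v ∉ Del f mt n) (hfv : f v ∈ Del f mt n) :
    ∃ ℓ, IsRing f mt n (f v) ℓ ∧ (f ^ (ℓ - 1)) (f v) = mt (f v) := by
  obtain ⟨w, ℓ, h, i, hi, hw⟩ := hfv
  have h3 := h.three
  rcases Nat.eq_zero_or_pos i with rfl | hi0
  · rw [pow_zero, Equiv.Perm.one_apply] at hw
    subst hw
    refine ⟨ℓ, h, ?_⟩
    rcases h.cl with hc | hc
    · exfalso
      apply hv
      refine rg_sub h ⟨ℓ - 1, by omega, ?_⟩
      rw [rg_pred f (f v) (by omega : 0 < ℓ), hc, Equiv.symm_apply_apply]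
    · exact hc
  · exfalso
    apply hv
    refine rg_sub h ⟨i - 1, by omega, ?_⟩
    rw [rg_pred f w hi0, hw, Equiv.symm_apply_apply]

/-- Leaving a ring along `f`. -/
theorem ring_end [Finite V] (hd : Desc G f mt) (hs : Sparse G N) (hN : 2 * n + 1 ≤ N) {v : V}
    (hv : v ∉ Del f mt n) (hfv : f.symm v ∈ Del f mt n) :
    ∃ w ℓ, IsRing f mt n w ℓ ∧ (f ^ (ℓ - 1)) w = f.symm v ∧ mt w = f.symm v := by
  obtain ⟨w, ℓ, h, i, hi, hw⟩ := hfv
  have h3 := h.three
  have h4 : (f ^ (i + 1)) w = v := by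
    rw [rg_succ, hw, Equiv.apply_symm_apply]
  have h5 : i + 1 = ℓ := by
    by_contra hne
    apply hv
    exact rg_sub h ⟨i + 1, by omega, h4⟩
  have h6 : (f ^ (ℓ - 1)) w = f.symm v := by
    rw [← h5, Nat.add_sub_cancel, hw]
  refine ⟨w, ℓ, h, h6, ?_⟩
  rcases h.cl with hc | hc
  · exfalso
    apply hv
    rw [← h5, h4] at hc
    rw [hc]
    exact rg_sub h ⟨0, by omega, rfl⟩
  · rw [← hc, h6]

/-- For a ring of the second kind: outside neighbours. -/
theorem ring_ends [Finite V] (hd : Desc G f mt) (hs : Sparse G N) (hN : 2 * n + 1 ≤ N) {w : V}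
    {ℓ : ℕ} (h : IsRing f mt n w ℓ) (hcl : (f ^ (ℓ - 1)) w = mt w) :
    f.symm w ∉ Del f mt n ∧ f (mt w) ∉ Del f mt n ∧
      ∀ i, 0 < i → i + 1 < ℓ → mt ((f ^ i) w) ∉ Del f mt n := by
  have h3 := h.three
  have hm : ∀ i < ℓ, (f ^ i) w ∈ Del f mt n := fun i hi => rg_sub h (rg_mem f w hi)
  have hw : w ∈ Del f mt n := hm 0 (by omega)
  have hfw : f w ∈ Del f mt n := by
    have := hm 1 (by omega)
    rwa [pow_one] at this
  have hmw : mt w ∈ Del f mt n := by
    rw [← hcl]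
    exact hm _ (by omega)
  refine ⟨?_, ?_, ?_⟩
  · exact third_notMem hd hs hN hw hfw hmw (hd.d2 w) (hd.d1 w) (hd.d3 w).symm (rg_adj_f hd w)
      (rg_adj_m hd w) (rg_adj_s hd w)
  · have h5 : f.symm (mt w) ∈ Del f mt n := by
      rw [← hcl, ← rg_pred f w (by omega : 0 < ℓ - 1)]
      exact hm _ (by omega)
    have h6 : mt (mt w) ∈ Del f mt n := by
      rw [hd.invol]
      exact hw
    exact third_notMem hd hs hN hmw h5 h6 (hd.d3 (mt w)) (hd.d1 (mt w)).symm (hd.d2 (mt w)).symm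
      (rg_adj_s hd (mt w)) (rg_adj_m hd (mt w)) (rg_adj_f hd (mt w))
  · intro i hi hil
    have h5 : f ((f ^ i) w) ∈ Del f mt n := by
      rw [← rg_succ]
      exact hm _ hil
    have h6 : f.symm ((f ^ i) w) ∈ Del f mt n := by
      rw [← rg_pred f w hi]
      exact hm _ (by omega)
    exact third_notMem hd hs hN (hm i (by omega)) h5 h6 (hd.d1 _) (hd.d2 _) (hd.d3 _)
      (rg_adj_f hd _) (rg_adj_s hd _) (rg_adj_m hd _)

/-- For a ring of the first kind: outside neighbours. -/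
theorem ring_mates [Finite V] (hd : Desc G f mt) (hs : Sparse G N) (hN : 2 * n + 1 ≤ N) {w : V}
    {ℓ : ℕ} (h : IsRing f mt n w ℓ) (hcl : (f ^ ℓ) w = w) :
    ∀ i < ℓ, mt ((f ^ i) w) ∉ Del f mt n := by
  intro i hi
  have h3 := h.three
  have hm : ∀ i < ℓ, (f ^ i) w ∈ Del f mt n := fun i hi => rg_sub h (rg_mem f w hi)
  have h5 : f ((f ^ i) w) ∈ Del f mt n := by
    rw [← rg_succ]
    rcases Nat.lt_or_ge (i + 1) ℓ with h4 | h4
    · exact hm _ h4
    · rw [show i + 1 = ℓ by omega, hcl]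
      exact hm 0 (by omega)
  have h6 : f.symm ((f ^ i) w) ∈ Del f mt n := by
    rcases Nat.eq_zero_or_pos i with rfl | h4
    · have h7 : f.symm ((f ^ 0) w) = (f ^ (ℓ - 1)) w := by
        rw [rg_pred f w (by omega : 0 < ℓ), hcl, pow_zero, Equiv.Perm.one_apply]
      rw [h7]
      exact hm _ (by omega)
    · rw [← rg_pred f w h4]
      exact hm _ (by omega)
  exact third_notMem hd hs hN (hm i hi) h5 h6 (hd.d1 _) (hd.d2 _) (hd.d3 _)
    (rg_adj_f hd _) (rg_adj_s hd _) (rg_adj_m hd _)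

private theorem rg_kind {w : V} {ℓ : ℕ} (h : IsRing f mt n w ℓ) (hw : f.symm w ∉ Del f mt n) :
    (f ^ (ℓ - 1)) w = mt w := by
  have h3 := h.three
  rcases h.cl with hc | hc
  · exfalso
    apply hw
    refine rg_sub h ⟨ℓ - 1, by omega, ?_⟩
    rw [rg_pred f w (by omega : 0 < ℓ), hc]
  · exact hc

/-- A ring of the second kind has only one start, and the length is determined. -/
theorem ring_unique [Finite V] (hd : Desc G f mt) (hs : Sparse G N) (hN : 2 * n + 1 ≤ N)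
    {w w' : V} {ℓ ℓ' : ℕ} (h : IsRing f mt n w ℓ) (h' : IsRing f mt n w' ℓ')
    (hw : f.symm w ∉ Del f mt n) (hw' : f.symm w' ∉ Del f mt n) {x : V} (hx : x ∈ rset f w ℓ)
    (hx' : x ∈ rset f w' ℓ') : w = w' ∧ ℓ = ℓ' := by
  have h3 := h.three
  have h3' := h'.three
  have he := ring_eq hd hs (by omega : 2 * n ≤ N) h h' hx hx'
  have h1 : w' ∈ rset f w ℓ := by
    rw [he]
    exact ⟨0, by omega, rfl⟩
  obtain ⟨i, hi, hiw⟩ := h1
  rcases Nat.eq_zero_or_pos i with rfl | hi0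
  · rw [pow_zero, Equiv.Perm.one_apply] at hiw
    subst hiw
    refine ⟨rfl, ?_⟩
    have h4 := rg_kind h hw
    have h5 := rg_kind h' hw
    rcases Nat.lt_or_ge ℓ ℓ' with h6 | h6
    · have := h'.inj (ℓ - 1) (by omega) (ℓ' - 1) (by omega) (by rw [h4, h5])
      omega
    · have := h.inj (ℓ - 1) (by omega) (ℓ' - 1) (by omega) (by rw [h4, h5])
      omega
  · exfalso
    apply hw'
    refine rg_sub h ⟨i - 1, by omega, ?_⟩
    rw [rg_pred f w hi0, hiw]

end Pool.Agent.HC
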