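import Mathlib
import Pool.Agent.HC.Ring

/-!
# The data of the core exist
-/

namespace Pool.Agent.HC

open Pool.Agent.H32.Hom

variable {V : Type} {G : SimpleGraph V} {N n : ℕ} {f : Equiv.Perm V} {mt : V → V}

private theorem le_ring_first {w : V} {ℓ : ℕ} (h : IsRing f mt n w ℓ) : w ∈ Del f mt n :=
  ⟨w, ℓ, h, 0, by have := h.three; omega, rfl⟩

private theorem le_ring_last {w : V} {ℓ : ℕ} (h : IsRing f mt n w ℓ) :
    (f ^ (ℓ - 1)) w ∈ Del f mt n :=
  ⟨w, ℓ, h, ℓ - 1, by have := h.three; omega, rfl⟩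

/-- entering a ring along `f` -/
private theorem le_enter [Finite V] (hd : Desc G f mt) (hs : Sparse G N) (hN : 2 * n + 1 ≤ N)
    {v : V} (hv : v ∉ Del f mt n) (hfv : f v ∈ Del f mt n) :
    mt (f v) ∈ Del f mt n ∧ f (mt (f v)) ∉ Del f mt n ∧ mt (f (f v)) ∉ Del f mt n := by
  obtain ⟨ℓ, h1, h2⟩ := ring_start hd hs hN hv hfv
  obtain ⟨h3, h4, h5⟩ := ring_ends hd hs hN h1 h2
  refine ⟨h2 ▸ le_ring_last h1, h4, ?_⟩
  have h6 := h5 1 one_pos (by have := h1.three; omega)
  rwa [pow_one] at h6

/-- leaving a ring along `f` -/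
private theorem le_leave [Finite V] (hd : Desc G f mt) (hs : Sparse G N) (hN : 2 * n + 1 ≤ N)
    {v : V} (hv : v ∉ Del f mt n) (hfv : f.symm v ∈ Del f mt n) :
    mt (f.symm v) ∈ Del f mt n ∧ f.symm (mt (f.symm v)) ∉ Del f mt n := by
  obtain ⟨w, ℓ, h1, h2, h3⟩ := ring_end hd hs hN hv hfv
  obtain ⟨h4, h5, h6⟩ := ring_ends hd hs hN h1 (h2.trans h3.symm)
  have h7 : mt (f.symm v) = w := by rw [← h3, hd.invol]
  rw [h7]
  exact ⟨le_ring_first h1, h4⟩

open Classical in
theorem exists_link [Finite V] (hd : Desc G f mt) (hs : Sparse G N) (hN : 2 * n + 1 ≤ N) :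
    ∃ D : Dat (UU f mt n), Link f mt n D := by
  let D : Dat (UU f mt n) :=
    { f :=
        { toFun := fun v => if h : f v ∈ Del f mt n then
            ⟨f (mt (f v)), (le_enter hd hs hN v.2 h).2.1⟩ else ⟨f v, h⟩
          invFun := fun v => if h : f.symm v ∈ Del f mt n then
            ⟨f.symm (mt (f.symm v)), (le_leave hd hs hN v.2 h).2⟩ else ⟨f.symm v, h⟩
          left_inv := by
            intro v
            by_cases h : f v ∈ Del f mt n
            · have h1 : f.symm (f (mt (f v))) ∈ Del f mt n := by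
                rw [Equiv.symm_apply_apply]
                exact (le_enter hd hs hN v.2 h).1
              simp only [dif_pos h, dif_pos h1]
              apply Subtype.ext
              show f.symm (mt (f.symm (f (mt (f v))))) = v
              rw [Equiv.symm_apply_apply, hd.invol, Equiv.symm_apply_apply]
            · have h1 : f.symm (f v) ∉ Del f mt n := by
                rw [Equiv.symm_apply_apply]
                exact v.2
              simp only [dif_neg h, dif_neg h1]
              apply Subtype.ext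
              show f.symm (f v) = v
              rw [Equiv.symm_apply_apply]
          right_inv := by
            intro v
            by_cases h : f.symm v ∈ Del f mt n
            · have h1 : f (f.symm (mt (f.symm v))) ∈ Del f mt n := by
                rw [Equiv.apply_symm_apply]
                exact (le_leave hd hs hN v.2 h).1
              simp only [dif_pos h, dif_pos h1]
              apply Subtype.ext
              show f (mt (f (f.symm (mt (f.symm v))))) = v
              rw [Equiv.apply_symm_apply, hd.invol, Equiv.apply_symm_apply]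
            · have h1 : f (f.symm v) ∉ Del f mt n := by
                rw [Equiv.apply_symm_apply]
                exact v.2
              simp only [dif_neg h, dif_neg h1]
              apply Subtype.ext
              show f (f.symm v) = v
              rw [Equiv.apply_symm_apply] }
      mt := fun v => if h : mt v ∈ Del f mt n then v else ⟨mt v, h⟩
      Sp := {p | ∃ ℓ, IsRing f mt n (f p) ℓ ∧ Odd ℓ}
      u := fun p => if h : mt (f (f p)) ∈ Del f mt n then p else ⟨mt (f (f p)), h⟩
      X := fun a b => a ≠ b ∧ ∃ w ℓ, IsRing f mt n w ℓ ∧ At f mt w ℓ a ∧ At f mt w ℓ b }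
  refine ⟨D, ⟨?_, ?_, ?_, ?_, fun p => Iff.rfl, ?_, fun a b => Iff.rfl⟩⟩
  · intro v hv
    have h1 : D.f v = ⟨f v, hv⟩ := dif_neg hv
    rw [h1]
  · intro v hv
    have h1 : D.f v = ⟨f (mt (f v)), (le_enter hd hs hN v.2 hv).2.1⟩ := dif_pos hv
    rw [h1]
  · intro v hv
    have h1 : D.mt v = ⟨mt v, hv⟩ := dif_neg hv
    rw [h1]
  · intro v hv
    exact dif_pos hv
  · rintro p ⟨ℓ, hℓ, -⟩
    have h1 : mt (f (f p)) ∉ Del f mt n := (le_enter hd hs hN p.2 (le_ring_first hℓ)).2.2
    have h2 : D.u p = ⟨mt (f (f p)), h1⟩ := dif_neg h1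
    rw [h2]

variable {D : Dat (UU f mt n)}

theorem link_s_f1 [Finite V] (hd : Desc G f mt) (hs : Sparse G N) (hN : 2 * n + 1 ≤ N)
    (hl : Link f mt n D) (v : UU f mt n) (hv : f.symm v ∉ Del f mt n) :
    (D.f.symm v : V) = f.symm v := by
  have h1 : D.f ⟨f.symm v, hv⟩ = v := by
    apply Subtype.ext
    have h2 := hl.f1 ⟨f.symm v, hv⟩ (by
      show f (f.symm v) ∉ Del f mt n
      rw [Equiv.apply_symm_apply]
      exact v.2)
    rw [h2]
    exact Equiv.apply_symm_apply f (v : V)
  rw [(Equiv.symm_apply_eq D.f).mpr h1.symm]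

theorem link_s_f2 [Finite V] (hd : Desc G f mt) (hs : Sparse G N) (hN : 2 * n + 1 ≤ N)
    (hl : Link f mt n D) (v : UU f mt n) (hv : f.symm v ∈ Del f mt n) :
    (D.f.symm v : V) = f.symm (mt (f.symm v)) := by
  obtain ⟨h3, h4⟩ := le_leave hd hs hN v.2 hv
  have h1 : D.f ⟨f.symm (mt (f.symm v)), h4⟩ = v := by
    apply Subtype.ext
    have h2 := hl.f2 ⟨f.symm (mt (f.symm v)), h4⟩ (by
      show f (f.symm (mt (f.symm v))) ∈ Del f mt n
      rw [Equiv.apply_symm_apply]
      exact h3)
    rw [h2]
    show f (mt (f (f.symm (mt (f.symm v))))) = v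
    rw [Equiv.apply_symm_apply, hd.invol, Equiv.apply_symm_apply]
  rw [(Equiv.symm_apply_eq D.f).mpr h1.symm]

theorem link_mt_iff (hd : Desc G f mt) (hl : Link f mt n D) (v : UU f mt n) :
    D.mt v = v ↔ mt v ∈ Del f mt n := by
  constructor
  · intro h
    by_contra hc
    have h1 := hl.m1 v hc
    rw [h] at h1
    have h2 : G.Adj (v : V) (mt v) := (hd.nbr _ _).mpr (Or.inr (Or.inr rfl))
    exact h2.ne h1
  · exact hl.m2 v

theorem link_invol (hd : Desc G f mt) (hl : Link f mt n D) (v : UU f mt n) :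
    D.mt (D.mt v) = v := by
  by_cases h : mt v ∈ Del f mt n
  · rw [hl.m2 v h, hl.m2 v h]
  · have h1 := hl.m1 v h
    have h2 : mt (D.mt v : V) = v := by rw [h1, hd.invol]
    apply Subtype.ext
    rw [hl.m1 (D.mt v) (by rw [h2]; exact v.2), h2]

end Pool.Agent.HC
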