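import Mathlib
import Pool.Agent.HC.LinkEx

/-!
# The attached vertices and the special points
-/

namespace Pool.Agent.HC

open Pool.Agent.H32.Hom

variable {V : Type} {G : SimpleGraph V} {N n : ℕ} {f : Equiv.Perm V} {mt : V → V}
  {D : Dat (UU f mt n)}

theorem lp_adj_f (hd : Desc G f mt) (v : V) : G.Adj v (f v) := (hd.nbr v _).2 (Or.inl rfl)

theorem lp_adj_s (hd : Desc G f mt) (v : V) : G.Adj v (f.symm v) :=
  (hd.nbr v _).2 (Or.inr (Or.inl rfl))

theorem lp_adj_m (hd : Desc G f mt) (v : V) : G.Adj v (mt v) :=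
  (hd.nbr v _).2 (Or.inr (Or.inr rfl))

theorem lp_del {w x : V} {ℓ : ℕ} (h : IsRing f mt n w ℓ) (hx : x ∈ rset f w ℓ) :
    x ∈ Del f mt n := ⟨w, ℓ, h, hx⟩

theorem lp_zero {w : V} {ℓ : ℕ} (h : IsRing f mt n w ℓ) : w ∈ rset f w ℓ :=
  ⟨0, by have := h.three; omega, by simp⟩

theorem lp_one {w : V} {ℓ : ℕ} (h : IsRing f mt n w ℓ) : f w ∈ rset f w ℓ :=
  ⟨1, by have := h.three; omega, by simp⟩

/-- an attached vertex has a neighbour on the ring -/
theorem lp_at (hd : Desc G f mt) {w x : V} {ℓ : ℕ} (h : IsRing f mt n w ℓ)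
    (hx : At f mt w ℓ x) : ∃ a ∈ rset f w ℓ, G.Adj x a := by
  rcases hx with hx | hx
  · exact ⟨mt x, hx, lp_adj_m hd x⟩
  · exact ⟨f x, by rw [hx]; exact lp_zero h, lp_adj_f hd x⟩

theorem lp_mt_inj (hd : Desc G f mt) {a b : V} (h : mt a = mt b) : a = b := by
  rw [← hd.invol a, h, hd.invol]

theorem lp_sp (hl : Link f mt n D) {p : UU f mt n} (hp : p ∈ D.Sp) :
    f p ∈ Del f mt n ∧ f (f p) ∈ Del f mt n := by
  obtain ⟨ℓ, hr, -⟩ := (hl.sp p).1 hp
  exact ⟨lp_del hr (lp_zero hr), lp_del hr (lp_one hr)⟩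

theorem link_s1 [Finite V] (hd : Desc G f mt) (hs : Sparse G N) (hN : 2 * n + 1 ≤ N)
    (hl : Link f mt n D) : ∀ p ∈ D.Sp, D.mt (D.u p) = D.u p := by
  intro p hp
  rw [link_mt_iff hd hl, hl.u p hp, hd.invol]
  exact (lp_sp hl hp).2

theorem link_s2 [Finite V] (hd : Desc G f mt) (hs : Sparse G N) (hN : 2 * n + 1 ≤ N)
    (hl : Link f mt n D) : ∀ p ∈ D.Sp, D.X p (D.u p) := by
  intro p hp
  obtain ⟨ℓ, hr, -⟩ := (hl.sp p).1 hp
  obtain ⟨h1, h2⟩ := lp_sp hl hp
  rw [hl.x]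
  refine ⟨?_, f p, ℓ, hr, Or.inr rfl, Or.inl ?_⟩
  · intro h
    have h3 : (p : V) = mt (f (f p)) := by
      conv_lhs => rw [h]
      exact hl.u p hp
    have h4 : mt (p : V) = f (f p) := by
      rw [h3, hd.invol, ← h3]
    have h5 : f (p : V) = f (f p) := one_nbr hd hs hN p.2 h1 h2 (lp_adj_f hd _)
      (by rw [← h4]; exact lp_adj_m hd _)
    have h6 : (p : V) = f p := f.injective h5
    apply hd.d1 (p : V)
    rw [← h6, Equiv.eq_symm_apply]
    exact h6.symm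
  · rw [hl.u p hp, hd.invol]
    exact lp_one hr

theorem link_s3 [Finite V] (hd : Desc G f mt) (hs : Sparse G N) (hN : 2 * n + 1 ≤ N)
    (hl : Link f mt n D) : ∀ p ∈ D.Sp, D.mt p ≠ p := by
  intro p hp h
  rw [link_mt_iff hd hl] at h
  exact hd.d2 (p : V) (one_nbr hd hs hN p.2 (lp_sp hl hp).1 h (lp_adj_f hd _) (lp_adj_m hd _))

theorem link_s4 [Finite V] (hd : Desc G f mt) (hs : Sparse G N) (hN : 2 * n + 1 ≤ N)
    (hl : Link f mt n D) : ∀ p ∈ D.Sp, D.mt (D.f p) ≠ D.f p := by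
  intro p hp h
  have h1 := (lp_sp hl hp).1
  obtain ⟨ℓ, hr, hcl⟩ := ring_start hd hs hN p.2 h1
  have h2 : mt (f (p : V)) ∈ Del f mt n := by
    rw [← hcl]
    exact lp_del hr ⟨ℓ - 1, by have := hr.three; omega, rfl⟩
  have h3 : (D.f p : V) = f (mt (f p)) := hl.f2 p h1
  rw [link_mt_iff hd hl] at h
  have h4 : f.symm (D.f p : V) = mt (f p) := by rw [h3, Equiv.symm_apply_apply]
  have h5 : f.symm (D.f p : V) ∈ Del f mt n := by rw [h4]; exact h2
  exact hd.d3 (D.f p : V)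
    (one_nbr hd hs hN (D.f p).2 h5 h (lp_adj_s hd _) (lp_adj_m hd _))

theorem link_s6 (hd : Desc G f mt) (hl : Link f mt n D) : Set.InjOn D.u D.Sp := by
  intro p hp q hq h
  have h1 : mt (f (f (p : V))) = mt (f (f (q : V))) := by
    rw [← hl.u p hp, ← hl.u q hq, h]
  exact Subtype.ext (f.injective (f.injective (lp_mt_inj hd h1)))

theorem link_xs (hl : Link f mt n D) : ∀ x y, D.X x y → D.X y x := by
  intro x y h
  rw [hl.x] at h ⊢
  obtain ⟨h1, w, ℓ, h2, h3, h4⟩ := h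
  exact ⟨h1.symm, w, ℓ, h2, h4, h3⟩

theorem link_xi (hl : Link f mt n D) : ∀ x y, D.X x y → x ≠ y := by
  intro x y h
  rw [hl.x] at h
  exact h.1

theorem link_x4 [Finite V] (hd : Desc G f mt) (hs : Sparse G N) (hN : 2 * n + 1 ≤ N)
    (hl : Link f mt n D) (x : UU f mt n) :
    ∃ T : Finset (UU f mt n), (∀ y, D.X x y → y ∈ T) ∧ T.card ≤ 2 * n := by
  classical
  by_cases hx : ∃ y, D.X x y
  · obtain ⟨y₀, hy₀⟩ := hx
    rw [hl.x] at hy₀
    obtain ⟨-, w, ℓ, hr, hax, -⟩ := hy₀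
    obtain ⟨a, ha, hxa⟩ := lp_at hd hr hax
    have hfin : {y : UU f mt n | (y : V) ∈ mt '' rset f w ℓ ∪ f.symm '' rset f w ℓ}.Finite :=
      Set.toFinite _
    refine ⟨hfin.toFinset, fun y hy => ?_, ?_⟩
    · rw [hl.x] at hy
      obtain ⟨-, w', ℓ', hr', hax', hay'⟩ := hy
      obtain ⟨a', ha', hxa'⟩ := lp_at hd hr' hax'
      have haa : a = a' := one_nbr hd hs hN x.2 (lp_del hr ha) (lp_del hr' ha') hxa hxa'
      rw [← haa] at ha'
      have hC : rset f w' ℓ' = rset f w ℓ := ring_eq hd hs (by omega) hr' hr ha' ha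
      rw [Set.Finite.mem_toFinset, Set.mem_setOf_eq]
      rcases hay' with h | h
      · left
        rw [hC] at h
        exact ⟨mt y, h, hd.invol _⟩
      · right
        have h2 : w' ∈ rset f w ℓ := by
          rw [← hC]
          exact lp_zero hr'
        refine ⟨w', h2, ?_⟩
        rw [← h, Equiv.symm_apply_apply]
    · rw [← Set.ncard_eq_toFinset_card _ hfin]
      have h1 : (Subtype.val '' {y : UU f mt n | (y : V) ∈ mt '' rset f w ℓ ∪
          f.symm '' rset f w ℓ}).ncard =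
          {y : UU f mt n | (y : V) ∈ mt '' rset f w ℓ ∪ f.symm '' rset f w ℓ}.ncard :=
        Set.ncard_image_of_injective _ Subtype.val_injective
      rw [← h1]
      have h2 : Subtype.val '' {y : UU f mt n | (y : V) ∈ mt '' rset f w ℓ ∪
          f.symm '' rset f w ℓ} ⊆ mt '' rset f w ℓ ∪ f.symm '' rset f w ℓ := by
        rintro _ ⟨y, hy, rfl⟩
        exact hy
      have h3 := Set.ncard_le_ncard h2 (Set.toFinite _)
      have h4 := Set.ncard_union_le (mt '' rset f w ℓ) (f.symm '' rset f w ℓ)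
      have h5 : (mt '' rset f w ℓ).ncard ≤ (rset f w ℓ).ncard :=
        Set.ncard_image_le (Set.toFinite _)
      have h6 : (f.symm '' rset f w ℓ).ncard ≤ (rset f w ℓ).ncard :=
        Set.ncard_image_le (Set.toFinite _)
      have h7 := rset_ncard_le f w ℓ
      have h8 := hr.le
      omega
  · refine ⟨∅, fun y hy => absurd ⟨y, hy⟩ hx, ?_⟩
    simp

/-- A vertex whose mate is deleted has a partner. -/
theorem link_e_x [Finite V] (hd : Desc G f mt) (hs : Sparse G N) (hN : 2 * n + 1 ≤ N)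
    (hl : Link f mt n D) (v : UU f mt n) (hv : D.mt v = v) : ∃ y, D.X v y := by
  rw [link_mt_iff hd hl] at hv
  obtain ⟨w, ℓ, hr, i, hi, hiv⟩ := hv
  have hmv : mt (v : V) ∈ rset f w ℓ := ⟨i, hi, hiv⟩
  rcases hr.cl with hcl | hcl
  · obtain ⟨j, hj, hij⟩ : ∃ j < ℓ, j ≠ i := by
      have := hr.three
      by_cases h0 : i = 0
      · exact ⟨1, by omega, by omega⟩
      · exact ⟨0, by omega, by omega⟩
    have hy : mt ((f ^ j) w) ∉ Del f mt n := ring_mates hd hs hN hr hcl j hj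
    refine ⟨⟨mt ((f ^ j) w), hy⟩, ?_⟩
    rw [hl.x]
    refine ⟨?_, w, ℓ, hr, Or.inl hmv, Or.inl ?_⟩
    · intro h
      have h1 : (v : V) = mt ((f ^ j) w) := congrArg Subtype.val h
      have h2 : (f ^ i) w = (f ^ j) w := by
        rw [hiv, h1, hd.invol]
      exact hij (hr.inj i hi j hj h2).symm
    · show mt (mt ((f ^ j) w)) ∈ rset f w ℓ
      rw [hd.invol]
      exact ⟨j, hj, rfl⟩
  · have hy : f.symm w ∉ Del f mt n := (ring_ends hd hs hN hr hcl).1
    refine ⟨⟨f.symm w, hy⟩, ?_⟩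
    rw [hl.x]
    refine ⟨?_, w, ℓ, hr, Or.inl hmv, Or.inr ?_⟩
    · intro h
      have h1 : (v : V) = f.symm w := congrArg Subtype.val h
      have h2 : f (v : V) = w := by rw [h1, Equiv.apply_symm_apply]
      have h3 : f (v : V) ∈ Del f mt n := by
        rw [h2]
        exact lp_del hr (lp_zero hr)
      exact hd.d2 (v : V) (one_nbr hd hs hN v.2 h3 (lp_del hr hmv) (lp_adj_f hd _)
        (lp_adj_m hd _))
    · show f (f.symm w) = w
      exact Equiv.apply_symm_apply _ _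

end Pool.Agent.HC
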