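import Mathlib

/-!
# Colours of the deleted cycles
-/

namespace Pool.Agent.HC

/-- The colours `a, b, c` are different from `x` and exactly two of them are different. -/
def Tri {C : Type} (x a b c : C) : Prop :=
  a ≠ x ∧ b ≠ x ∧ c ≠ x ∧ ((a = b ∧ c ≠ a) ∨ (c = a ∧ b ≠ a) ∨ (c = b ∧ a ≠ b))

private theorem inl_ne {C : Type} {x y : C} (h : x ≠ y) :
    (Sum.inl x : C ⊕ Fin 2) ≠ Sum.inl y := fun e => h (Sum.inl_injective e)

theorem ring0_colours {C : Type} (ℓ : ℕ) (h3 : 3 ≤ ℓ) (z b : ℕ → C)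
    (hz : ∀ i < ℓ, ∀ j < ℓ, i ≠ j → z i ≠ z j ∧ z i ≠ b j) :
    ∃ r : ℕ → C ⊕ Fin 2, ∀ i < ℓ,
      Tri (r i) (r (if i + 1 = ℓ then 0 else i + 1)) (r (if i = 0 then ℓ - 1 else i - 1))
        (Sum.inl (z i)) ∧ r i ≠ Sum.inl (b i) := by
  classical
  rcases Nat.even_or_odd ℓ with hl | hl
  · refine ⟨fun i => if Even i then Sum.inr 0 else Sum.inr 1, ?_⟩
    intro i hi
    have e1 : Even (if i + 1 = ℓ then 0 else i + 1) ↔ ¬ Even i := by
      split_ifs with h
      · subst h
        have := Nat.even_add_one.mp hl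
        simp [this]
      · exact Nat.even_add_one
    have e2 : Even (if i = 0 then ℓ - 1 else i - 1) ↔ ¬ Even i := by
      split_ifs with h
      · subst h
        constructor
        · intro h5
          exfalso
          obtain ⟨a, ha⟩ := hl
          obtain ⟨c, hc⟩ := h5
          omega
        · intro h5
          exact absurd (Even.zero) h5
      · obtain ⟨k, rfl⟩ : ∃ k, i = k + 1 := ⟨i - 1, by omega⟩
        rw [Nat.add_sub_cancel, Nat.even_add_one, not_not]
    simp only [e1, e2]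
    unfold Tri
    by_cases h : Even i
    · simp [h]
    · simp [h]
  · have hl1 : Even (ℓ - 1) := by
      obtain ⟨a, ha⟩ := hl
      exact ⟨a, by omega⟩
    set r : ℕ → C ⊕ Fin 2 := fun i => if i = ℓ - 1 then Sum.inl (z (ℓ - 2)) else
      if Even i then Sum.inl (z (ℓ - 1)) else Sum.inl (z 0) with hr
    have r1 : r (ℓ - 1) = Sum.inl (z (ℓ - 2)) := by simp [hr]
    have r2 : ∀ i, i ≠ ℓ - 1 → Even i → r i = Sum.inl (z (ℓ - 1)) := by
      intro i h1 h2; simp [hr, h1, h2]
    have r3 : ∀ i, i ≠ ℓ - 1 → ¬ Even i → r i = Sum.inl (z 0) := by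
      intro i h1 h2; simp [hr, h1, h2]
    have n2 : ¬ Even (ℓ - 2) := by
      rintro ⟨c, hc⟩
      obtain ⟨a, ha⟩ := hl
      omega
    refine ⟨r, fun i hi => ?_⟩
    by_cases ha : i = ℓ - 1
    · subst ha
      rw [if_pos (by omega), if_neg (by omega), r1, r2 0 (by omega) Even.zero,
        show ℓ - 1 - 1 = ℓ - 2 by omega, r3 (ℓ - 2) (by omega) n2]
      refine ⟨⟨inl_ne (hz _ (by omega) _ (by omega) (by omega)).1,
        inl_ne (hz _ (by omega) _ (by omega) (by omega)).1,
        inl_ne (hz _ (by omega) _ (by omega) (by omega)).1, Or.inr (Or.inl ⟨rfl,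
        inl_ne (hz _ (by omega) _ (by omega) (by omega)).1⟩)⟩,
        inl_ne (hz _ (by omega) _ (by omega) (by omega)).2⟩
    by_cases h0 : i = 0
    · subst h0
      have o1 : ¬ Even 1 := by decide
      rw [if_neg (by omega), if_pos rfl, r1, r2 0 (by omega) Even.zero,
        r3 (0 + 1) (by omega) o1]
      refine ⟨⟨inl_ne (hz _ (by omega) _ (by omega) (by omega)).1,
        inl_ne (hz _ (by omega) _ (by omega) (by omega)).1,
        inl_ne (hz _ (by omega) _ (by omega) (by omega)).1, Or.inr (Or.inl ⟨rfl,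
        inl_ne (hz _ (by omega) _ (by omega) (by omega)).1⟩)⟩,
        inl_ne (hz _ (by omega) _ (by omega) (by omega)).2⟩
    rw [if_neg (by omega), if_neg h0]
    by_cases he : Even i
    · have he1 : ¬ Even (i + 1) := by rw [Nat.even_add_one]; exact fun h => h he
      have he2 : ¬ Even (i - 1) := by
        rintro ⟨c, hc⟩
        obtain ⟨a, ha'⟩ := he
        omega
      have he3 : i + 1 ≠ ℓ - 1 := by
        intro h
        rw [h] at he1
        exact he1 hl1
      rw [r2 i ha he, r3 (i + 1) he3 he1, r3 (i - 1) (by omega) he2]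
      exact ⟨⟨inl_ne (hz _ (by omega) _ (by omega) (by omega)).1,
        inl_ne (hz _ (by omega) _ (by omega) (by omega)).1,
        inl_ne (hz _ (by omega) _ (by omega) (by omega)).1, Or.inl ⟨rfl,
        inl_ne (hz _ (by omega) _ (by omega) (by omega)).1⟩⟩,
        inl_ne (hz _ (by omega) _ (by omega) (by omega)).2⟩
    · have he1 : Even (i + 1) := by rw [Nat.even_add_one]; exact he
      have he2 : Even (i - 1) := by
        obtain ⟨a, ha'⟩ := Nat.not_even_iff_odd.mp he
        exact ⟨a, by omega⟩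
      by_cases hb : i + 1 = ℓ - 1
      · have hi2 : i = ℓ - 2 := by omega
        rw [r3 i ha he, hb, r1, r2 (i - 1) (by omega) he2, hi2]
        exact ⟨⟨inl_ne (hz _ (by omega) _ (by omega) (by omega)).1,
          inl_ne (hz _ (by omega) _ (by omega) (by omega)).1,
          inl_ne (hz _ (by omega) _ (by omega) (by omega)).1, Or.inr (Or.inl ⟨rfl,
          inl_ne (hz _ (by omega) _ (by omega) (by omega)).1⟩)⟩,
          inl_ne (hz _ (by omega) _ (by omega) (by omega)).2⟩
      · rw [r3 i ha he, r2 (i + 1) hb he1, r2 (i - 1) (by omega) he2]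
        exact ⟨⟨inl_ne (hz _ (by omega) _ (by omega) (by omega)).1,
          inl_ne (hz _ (by omega) _ (by omega) (by omega)).1,
          inl_ne (hz _ (by omega) _ (by omega) (by omega)).1, Or.inl ⟨rfl,
          inl_ne (hz _ (by omega) _ (by omega) (by omega)).1⟩⟩,
          inl_ne (hz _ (by omega) _ (by omega) (by omega)).2⟩

theorem ring1_colours {C : Type} (ℓ : ℕ) (h3 : 3 ≤ ℓ) (z b : ℕ → C) (P Q : C) (hPQ : P ≠ Q)
    (hzP : ∀ i, 0 < i → i + 1 < ℓ → z i ≠ P ∧ z i ≠ Q ∧ b i ≠ P ∧ b i ≠ Q)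
    (hz : ∀ i j, 0 < i → i + 1 < ℓ → 0 < j → j + 1 < ℓ → i ≠ j → z i ≠ z j ∧ z i ≠ b j) :
    ∃ r : ℕ → C ⊕ Fin 2, r 0 = Sum.inl Q ∧ (Even ℓ → r (ℓ - 1) = Sum.inl P) ∧
      (Odd ℓ → r (ℓ - 1) = Sum.inl (z 1)) ∧
      Tri (r 0) (r 1) (Sum.inl P) (r (ℓ - 1)) ∧
      Tri (r (ℓ - 1)) (Sum.inl Q) (r (ℓ - 2)) (r 0) ∧
      ∀ i, 0 < i → i + 1 < ℓ →
        Tri (r i) (r (i + 1)) (r (i - 1)) (Sum.inl (z i)) ∧ r i ≠ Sum.inl (b i) := by
  classical
  rcases Nat.even_or_odd ℓ with hl | hl
  · have h4 : 4 ≤ ℓ := by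
      obtain ⟨a, ha⟩ := hl
      omega
    have hl1 : ¬ Even (ℓ - 1) := by
      rintro ⟨c, hc⟩
      obtain ⟨a, ha⟩ := hl
      omega
    have hl2 : Even (ℓ - 2) := by
      obtain ⟨a, ha⟩ := hl
      exact ⟨a - 1, by omega⟩
    set r : ℕ → C ⊕ Fin 2 := fun i => if i = 0 then Sum.inl Q else
      if i = ℓ - 1 then Sum.inl P else if Even i then Sum.inl (z 1) else Sum.inl (z (ℓ - 2))
      with hr
    have r0 : r 0 = Sum.inl Q := by simp [hr]
    have r1 : r (ℓ - 1) = Sum.inl P := by
      simp only [hr]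
      rw [if_neg (by omega), if_pos trivial]
    have r2 : ∀ i, i ≠ 0 → i ≠ ℓ - 1 → Even i → r i = Sum.inl (z 1) := by
      intro i h0 h1 h2; simp [hr, h0, h1, h2]
    have r3 : ∀ i, i ≠ 0 → i ≠ ℓ - 1 → ¬ Even i → r i = Sum.inl (z (ℓ - 2)) := by
      intro i h0 h1 h2; simp [hr, h0, h1, h2]
    have o1 : ¬ Even 1 := by decide
    refine ⟨r, r0, fun _ => r1, fun h => absurd hl (Nat.not_even_iff_odd.mpr h), ?_, ?_, ?_⟩
    · rw [r0, r1, r3 1 (by omega) (by omega) o1]
      have hp := hzP (ℓ - 2) (by omega) (by omega)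
      exact ⟨inl_ne hp.2.1, inl_ne hPQ, inl_ne hPQ, Or.inr (Or.inr ⟨rfl, inl_ne hp.1⟩)⟩
    · rw [r0, r1, r2 (ℓ - 2) (by omega) (by omega) hl2]
      have hp := hzP 1 (by omega) (by omega)
      exact ⟨inl_ne hPQ.symm, inl_ne hp.1, inl_ne hPQ.symm, Or.inr (Or.inl ⟨rfl, inl_ne hp.2.1⟩)⟩
    · intro i hi0 hi
      have hp := hzP i hi0 hi
      have hp1 := hzP 1 (by omega) (by omega)
      have hp2 := hzP (ℓ - 2) (by omega) (by omega)
      by_cases he : Even i
      · have he1 : ¬ Even (i + 1) := by rw [Nat.even_add_one]; exact fun h => h he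
        have he2 : ¬ Even (i - 1) := by
          rintro ⟨c, hc⟩
          obtain ⟨a, ha'⟩ := he
          omega
        have hi1 : i ≠ 1 := fun h => o1 (h ▸ he)
        have hi10 : i - 1 ≠ 0 := by omega
        by_cases hb : i + 1 = ℓ - 1
        · have hi2 : i = ℓ - 2 := by omega
          rw [r2 i (by omega) (by omega) he, hb, r1, r3 (i - 1) hi10 (by omega) he2, hi2]
          exact ⟨⟨inl_ne hp1.1.symm,
            inl_ne (hz _ _ (by omega) (by omega) (by omega) (by omega) (by omega)).1,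
            inl_ne (hz _ _ (by omega) (by omega) (by omega) (by omega) (by omega)).1,
            Or.inr (Or.inr ⟨rfl, inl_ne hp2.1.symm⟩)⟩,
            inl_ne (hz _ _ (by omega) (by omega) (by omega) (by omega) (by omega)).2⟩
        · rw [r2 i (by omega) (by omega) he, r3 (i + 1) (by omega) hb he1,
            r3 (i - 1) hi10 (by omega) he2]
          exact ⟨⟨inl_ne (hz _ _ (by omega) (by omega) (by omega) (by omega) (by omega)).1,
            inl_ne (hz _ _ (by omega) (by omega) (by omega) (by omega) (by omega)).1,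
            inl_ne (hz _ _ (by omega) (by omega) (by omega) (by omega) (by omega)).1,
            Or.inl ⟨rfl,
              inl_ne (hz _ _ (by omega) (by omega) (by omega) (by omega) (by omega)).1⟩⟩,
            inl_ne (hz _ _ (by omega) (by omega) (by omega) (by omega) (by omega)).2⟩
      · have he1 : Even (i + 1) := by rw [Nat.even_add_one]; exact he
        have he2 : Even (i - 1) := by
          obtain ⟨a, ha'⟩ := Nat.not_even_iff_odd.mp he
          exact ⟨a, by omega⟩
        have hne : i ≠ ℓ - 2 := fun h => he (h ▸ hl2)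
        have hi1 : i + 1 ≠ ℓ - 1 := by omega
        by_cases h1 : i = 1
        · subst h1
          rw [r3 1 (by omega) (by omega) he, r2 (1 + 1) (by omega) hi1 he1,
            show 1 - 1 = 0 by norm_num, r0]
          exact ⟨⟨inl_ne (hz _ _ (by omega) (by omega) (by omega) (by omega) (by omega)).1,
            inl_ne hp2.2.1.symm,
            inl_ne (hz _ _ (by omega) (by omega) (by omega) (by omega) (by omega)).1,
            Or.inr (Or.inl ⟨rfl, inl_ne hp1.2.1.symm⟩)⟩,
            inl_ne (hz _ _ (by omega) (by omega) (by omega) (by omega) (by omega)).2⟩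
        · rw [r3 i (by omega) (by omega) he, r2 (i + 1) (by omega) hi1 he1,
            r2 (i - 1) (by omega) (by omega) he2]
          exact ⟨⟨inl_ne (hz _ _ (by omega) (by omega) (by omega) (by omega) (by omega)).1,
            inl_ne (hz _ _ (by omega) (by omega) (by omega) (by omega) (by omega)).1,
            inl_ne (hz _ _ (by omega) (by omega) (by omega) (by omega) (by omega)).1,
            Or.inl ⟨rfl,
              inl_ne (hz _ _ (by omega) (by omega) (by omega) (by omega) (by omega)).1⟩⟩,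
            inl_ne (hz _ _ (by omega) (by omega) (by omega) (by omega) (by omega)).2⟩
  · have hl1 : Even (ℓ - 1) := by
      obtain ⟨a, ha⟩ := hl
      exact ⟨a, by omega⟩
    have hl2 : ¬ Even (ℓ - 2) := by
      rintro ⟨c, hc⟩
      obtain ⟨a, ha⟩ := hl
      omega
    set r : ℕ → C ⊕ Fin 2 := fun i => if i = 0 then Sum.inl Q else
      if Even i then Sum.inl (z 1) else Sum.inl P with hr
    have r0 : r 0 = Sum.inl Q := by simp [hr]
    have r2 : ∀ i, i ≠ 0 → Even i → r i = Sum.inl (z 1) := by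
      intro i h0 h2; simp [hr, h0, h2]
    have r3 : ∀ i, ¬ Even i → r i = Sum.inl P := by
      intro i h2
      have h0 : i ≠ 0 := fun h => h2 (h ▸ Even.zero)
      simp [hr, h0, h2]
    have o1 : ¬ Even 1 := by decide
    have hp1 := hzP 1 (by omega) (by omega)
    refine ⟨r, r0, fun h => absurd h (Nat.not_even_iff_odd.mpr hl),
      fun _ => r2 _ (by omega) hl1, ?_, ?_, ?_⟩
    · rw [r0, r3 1 o1, r2 (ℓ - 1) (by omega) hl1]
      exact ⟨inl_ne hPQ, inl_ne hPQ, inl_ne hp1.2.1, Or.inl ⟨rfl, inl_ne hp1.1⟩⟩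
    · rw [r0, r3 (ℓ - 2) hl2, r2 (ℓ - 1) (by omega) hl1]
      exact ⟨inl_ne hp1.2.1.symm, inl_ne hp1.1.symm, inl_ne hp1.2.1.symm,
        Or.inr (Or.inl ⟨rfl, inl_ne hPQ⟩)⟩
    · intro i hi0 hi
      have hp := hzP i hi0 hi
      by_cases he : Even i
      · have he1 : ¬ Even (i + 1) := by rw [Nat.even_add_one]; exact fun h => h he
        have he2 : ¬ Even (i - 1) := by
          rintro ⟨c, hc⟩
          obtain ⟨a, ha'⟩ := he
          omega
        have hi1 : i ≠ 1 := fun h => o1 (h ▸ he)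
        rw [r2 i (by omega) he, r3 (i + 1) he1, r3 (i - 1) he2]
        exact ⟨⟨inl_ne hp1.1.symm, inl_ne hp1.1.symm,
          inl_ne (hz _ _ (by omega) (by omega) (by omega) (by omega) (by omega)).1,
          Or.inl ⟨rfl, inl_ne hp.1⟩⟩,
          inl_ne (hz _ _ (by omega) (by omega) (by omega) (by omega) (by omega)).2⟩
      · have he1 : Even (i + 1) := by rw [Nat.even_add_one]; exact he
        have he2 : Even (i - 1) := by
          obtain ⟨a, ha'⟩ := Nat.not_even_iff_odd.mp he
          exact ⟨a, by omega⟩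
        by_cases h1 : i = 1
        · subst h1
          rw [r3 1 he, r2 (1 + 1) (by omega) he1, show 1 - 1 = 0 by norm_num, r0]
          exact ⟨⟨inl_ne hp1.1, inl_ne hPQ.symm, inl_ne hp1.1,
            Or.inr (Or.inl ⟨rfl, inl_ne hp1.2.1.symm⟩)⟩, inl_ne hp1.2.2.1.symm⟩
        · rw [r3 i he, r2 (i + 1) (by omega) he1, r2 (i - 1) (by omega) he2]
          exact ⟨⟨inl_ne hp1.1, inl_ne hp1.1, inl_ne hp.1,
            Or.inl ⟨rfl,
              inl_ne (hz _ _ (by omega) (by omega) (by omega) (by omega) (by omega)).1⟩⟩,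
            inl_ne hp.2.2.1.symm⟩

end Pool.Agent.HC
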