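import Mathlib
import Pool.Agent.HC.LinkProps
import Pool.Agent.HC.RingCol

/-!
# The colouring of the whole graph
-/

namespace Pool.Agent.HC

open Pool.Agent.H32.Hom

variable {V : Type} {G : SimpleGraph V} {N n : ℕ} {f : Equiv.Perm V} {mt : V → V}
  {D : Dat (UU f mt n)}

/-! ### Notation -/

namespace Asm

open Classical in
/-- The colour of the core, on the whole graph. -/
noncomputable def extC {C : Type} (c : UU f mt n → C) (y : V) : C ⊕ Fin 2 :=
  if h : y ∉ Del f mt n then Sum.inl (c ⟨y, h⟩) else Sum.inr 0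

open Classical in
/-- The colour `r` on `S` and the colour of the core outside. -/
noncomputable def mixC {C : Type} (c : UU f mt n → C) (S : Set V) (r : V → C ⊕ Fin 2) (y : V) :
    C ⊕ Fin 2 :=
  if y ∈ S then r y else extC c y

theorem extC_of {C : Type} (c : UU f mt n → C) {y : V} (h : y ∉ Del f mt n) :
    extC c y = Sum.inl (c ⟨y, h⟩) := by
  unfold extC
  rw [dif_pos h]

theorem extC_coe {C : Type} (c : UU f mt n → C) (y : UU f mt n) :
    extC c (y : V) = Sum.inl (c y) := by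
  rw [extC_of c y.2]

theorem mixC_mem {C : Type} (c : UU f mt n → C) {S : Set V} (r : V → C ⊕ Fin 2) {y : V}
    (h : y ∈ S) : mixC c S r y = r y := by
  unfold mixC
  rw [if_pos h]

theorem mixC_notMem {C : Type} (c : UU f mt n → C) {S : Set V} (r : V → C ⊕ Fin 2) {y : V}
    (h : y ∉ S) : mixC c S r y = extC c y := by
  unfold mixC
  rw [if_neg h]

/-- The colours `r` on the ring `S` fit to the colours `c` of the core. -/
structure Fits {C : Type} (f : Equiv.Perm V) (mt : V → V) (n : ℕ) (D : Dat (UU f mt n))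
    (c : UU f mt n → C) (S : Set V) (r : V → C ⊕ Fin 2) : Prop where
  tri : ∀ x ∈ S, Tri (mixC c S r x) (mixC c S r (f x)) (mixC c S r (f.symm x))
    (mixC c S r (mt x))
  mate : ∀ x : UU f mt n, mt x ∈ S → r (mt x) ≠ Sum.inl (c (D.f x))
  fwd : ∀ x : UU f mt n, f x ∈ S → r (f x) = Sum.inl (c (D.f x))
  bwd1 : ∀ p ∈ D.Sp, f.symm (D.f p) ∈ S → r (f.symm (D.f p)) = Sum.inl (c (D.u p))
  bwd2 : ∀ x : UU f mt n, f.symm x ∈ S → (∀ p ∈ D.Sp, x ≠ D.f p) →
    r (f.symm x) = Sum.inl (c (D.f.symm x))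

/-! ### Small facts -/

theorem rset_sub_del {w : V} {ℓ : ℕ} (h : IsRing f mt n w ℓ) {x : V} (hx : x ∈ rset f w ℓ) :
    x ∈ Del f mt n := ⟨w, ℓ, h, hx⟩

theorem adj_f (hd : Desc G f mt) (v : V) : G.Adj v (f v) := (hd.nbr v _).2 (Or.inl rfl)

theorem adj_fs (hd : Desc G f mt) (v : V) : G.Adj v (f.symm v) :=
  (hd.nbr v _).2 (Or.inr (Or.inl rfl))

theorem adj_mt (hd : Desc G f mt) (v : V) : G.Adj v (mt v) :=
  (hd.nbr v _).2 (Or.inr (Or.inr rfl))

/-- A ring which is entered along `f` is of the second kind. -/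
theorem cl_of_notMem {p : V} (hp : p ∉ Del f mt n) {ℓ : ℕ} (h : IsRing f mt n (f p) ℓ) :
    (f ^ (ℓ - 1)) (f p) = mt (f p) := by
  rcases h.cl with h1 | h1
  · exfalso
    apply hp
    refine rset_sub_del h ⟨ℓ - 1, by have := h.three; omega, ?_⟩
    apply f.injective
    rw [← Equiv.Perm.mul_apply, ← pow_succ', Nat.sub_add_cancel (by have := h.three; omega)]
    exact h1
  · exact h1

theorem symm_f_sp (hl : Link f mt n D) {p : UU f mt n} (hp : p ∈ D.Sp) :
    f.symm (D.f p : V) = mt (f p) ∧ mt (f p) ∈ Del f mt n := by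
  obtain ⟨ℓ, hr, -⟩ := (hl.sp p).1 hp
  have h3 := hr.three
  have hfp : f p ∈ Del f mt n := rset_sub_del hr ⟨0, by omega, by simp⟩
  refine ⟨?_, ?_⟩
  · rw [hl.f2 p hfp, Equiv.symm_apply_apply]
  · exact rset_sub_del hr ⟨ℓ - 1, by omega, cl_of_notMem p.2 hr⟩

/-- A point with a deleted neighbour other than the one before it is not after a special point. -/
theorem ne_f_sp (hl : Link f mt n D) {x : UU f mt n} (hx : f.symm x ∉ Del f mt n) :
    ∀ p ∈ D.Sp, x ≠ D.f p := by
  intro p hp hxp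
  apply hx
  rw [hxp, (symm_f_sp hl hp).1]
  exact (symm_f_sp hl hp).2

open Classical in
/-- The index of a vertex in a ring. -/
noncomputable def idx (f : Equiv.Perm V) (w : V) (ℓ : ℕ) (x : V) : ℕ :=
  if h : ∃ i, i < ℓ ∧ (f ^ i) w = x then h.choose else 0

theorem idx_pow {w : V} {ℓ : ℕ} (h : IsRing f mt n w ℓ) {i : ℕ} (hi : i < ℓ) :
    idx f w ℓ ((f ^ i) w) = i := by
  unfold idx
  have hex : ∃ j, j < ℓ ∧ (f ^ j) w = (f ^ i) w := ⟨i, hi, rfl⟩
  rw [dif_pos hex]
  exact h.inj _ hex.choose_spec.1 _ hi hex.choose_spec.2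

theorem f_pow (w : V) (i : ℕ) : f ((f ^ i) w) = (f ^ (i + 1)) w := by
  rw [pow_succ', Equiv.Perm.mul_apply]

theorem fs_pow (w : V) {i : ℕ} (hi : 0 < i) : f.symm ((f ^ i) w) = (f ^ (i - 1)) w := by
  rw [Equiv.symm_apply_eq, f_pow, Nat.sub_add_cancel hi]

/-! ### Rings of the first kind -/

theorem fits_first {C : Type} [Finite V] (hd : Desc G f mt) (hs : Sparse G N)
    (hN : 2 * n + 1 ≤ N) (hl : Link f mt n D) (c : UU f mt n → C) (hc : Out D c) {w : V} {ℓ : ℕ}
    (h : IsRing f mt n w ℓ) (hcl : (f ^ ℓ) w = w) :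
    ∃ r : V → C ⊕ Fin 2, Fits f mt n D c (rset f w ℓ) r := by
  have h3 := h.three
  have hlt : ∀ i, ∃ j < ℓ, (f ^ j) w = (f ^ i) w := by
    intro i
    refine ⟨i % ℓ, Nat.mod_lt _ (by omega), ?_⟩
    have hk : ∀ k : ℕ, (f ^ (ℓ * k)) w = w := by
      intro k
      induction k with
      | zero => simp
      | succ k ih => rw [Nat.mul_succ, pow_add, Equiv.Perm.mul_apply, hcl, ih]
    conv_rhs => rw [← Nat.mod_add_div i ℓ, pow_add, Equiv.Perm.mul_apply, hk]
  have hm : ∀ i, mt ((f ^ i) w) ∉ Del f mt n := by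
    intro i
    obtain ⟨j, hj, hji⟩ := hlt i
    rw [← hji]
    exact ring_mates hd hs hN h hcl j hj
  have hX : ∀ i < ℓ, ∀ j < ℓ, i ≠ j → D.X ⟨mt ((f ^ i) w), hm i⟩ ⟨mt ((f ^ j) w), hm j⟩ := by
    intro i hi j hj hij
    rw [hl.x]
    refine ⟨?_, w, ℓ, h, Or.inl ?_, Or.inl ?_⟩
    · intro he
      have h1 : mt ((f ^ i) w) = mt ((f ^ j) w) := congrArg Subtype.val he
      apply hij
      apply h.inj i hi j hj
      rw [← hd.invol ((f ^ i) w), h1, hd.invol]
    · exact ⟨i, hi, (hd.invol _).symm⟩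
    · exact ⟨j, hj, (hd.invol _).symm⟩
  obtain ⟨r, hr⟩ := ring0_colours ℓ h3 (fun i => c ⟨mt ((f ^ i) w), hm i⟩)
    (fun i => c (D.f ⟨mt ((f ^ i) w), hm i⟩)) (by
      intro i hi j hj hij
      exact ⟨hc.x _ _ (hX i hi j hj hij) _ _ (Or.inl rfl) (Or.inl rfl),
        hc.x _ _ (hX i hi j hj hij) _ _ (Or.inl rfl) (Or.inr (Or.inl rfl))⟩)
  have hmem : ∀ i, (f ^ i) w ∈ rset f w ℓ := by
    intro i
    obtain ⟨j, hj, hji⟩ := hlt i
    exact ⟨j, hj, hji⟩
  refine ⟨fun x => r (idx f w ℓ x), ?_, ?_, ?_, ?_, ?_⟩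
  · rintro x ⟨i, hi, rfl⟩
    have e1 : mixC c (rset f w ℓ) (fun x => r (idx f w ℓ x)) ((f ^ i) w) = r i := by
      rw [mixC_mem c _ (hmem i), idx_pow h hi]
    have e2 : mixC c (rset f w ℓ) (fun x => r (idx f w ℓ x)) (f ((f ^ i) w))
        = r (if i + 1 = ℓ then 0 else i + 1) := by
      rw [f_pow, mixC_mem c _ (hmem _)]
      by_cases h1 : i + 1 = ℓ
      · rw [if_pos h1, h1, hcl]
        have h2 := idx_pow h (i := 0) (by omega)
        rw [pow_zero, Equiv.Perm.one_apply] at h2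
        rw [h2]
      · rw [if_neg h1, idx_pow h (by omega)]
    have e3 : mixC c (rset f w ℓ) (fun x => r (idx f w ℓ x)) (f.symm ((f ^ i) w))
        = r (if i = 0 then ℓ - 1 else i - 1) := by
      by_cases h1 : i = 0
      · have h2 : f.symm ((f ^ i) w) = (f ^ (ℓ - 1)) w := by
          rw [h1, pow_zero, Equiv.Perm.one_apply, Equiv.symm_apply_eq, f_pow,
            Nat.sub_add_cancel (by omega), hcl]
        rw [h2, mixC_mem c _ (hmem _), if_pos h1, idx_pow h (by omega)]
      · rw [fs_pow w (by omega), mixC_mem c _ (hmem _), if_neg h1, idx_pow h (by omega)]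
    have e4 : mixC c (rset f w ℓ) (fun x => r (idx f w ℓ x)) (mt ((f ^ i) w))
        = Sum.inl (c ⟨mt ((f ^ i) w), hm i⟩) := by
      rw [mixC_notMem c _ (fun hh => hm i (rset_sub_del h hh)), extC_of c (hm i)]
    rw [e1, e2, e3, e4]
    exact (hr i hi).1
  · intro x hx
    obtain ⟨i, hi, hix⟩ := hx
    have hxu : x = ⟨mt ((f ^ i) w), hm i⟩ := by
      apply Subtype.ext
      show (x : V) = mt ((f ^ i) w)
      rw [hix, hd.invol]
    have h2 := (hr i hi).2
    have h4 : r (idx f w ℓ (mt x)) = r i := by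
      rw [← hix, idx_pow h hi]
    intro h5
    apply h2
    rw [← h4]
    show r (idx f w ℓ (mt x)) = Sum.inl (c (D.f ⟨mt ((f ^ i) w), hm i⟩))
    rw [← hxu]
    exact h5
  · intro x hx
    exfalso
    obtain ⟨i, hi, hix⟩ := hx
    apply x.2
    refine rset_sub_del h ?_
    have h1 : (x : V) = (f ^ (i + (ℓ - 1))) w := by
      apply f.injective
      rw [f_pow, ← hix, show i + (ℓ - 1) + 1 = i + ℓ by omega, pow_add, Equiv.Perm.mul_apply, hcl]
    rw [h1]
    exact hmem _
  · intro p hp hx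
    exfalso
    obtain ⟨i, hi, hix⟩ := hx
    apply (D.f p).2
    refine rset_sub_del h ?_
    have h1 : (D.f p : V) = (f ^ (i + 1)) w := by
      rw [← f_pow, hix, Equiv.apply_symm_apply]
    rw [h1]
    exact hmem _
  · intro x hx _
    exfalso
    obtain ⟨i, hi, hix⟩ := hx
    apply x.2
    refine rset_sub_del h ?_
    have h1 : (x : V) = (f ^ (i + 1)) w := by
      rw [← f_pow, hix, Equiv.apply_symm_apply]
    rw [h1]
    exact hmem _

/-! ### Rings of the second kind -/

theorem fits_second {C : Type} [Finite V] (hd : Desc G f mt) (hs : Sparse G N)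
    (hN : 2 * n + 1 ≤ N) (hl : Link f mt n D) (c : UU f mt n → C) (hc : Out D c) {w : V} {ℓ : ℕ}
    (h : IsRing f mt n w ℓ) (hcl : (f ^ (ℓ - 1)) w = mt w) :
    ∃ r : V → C ⊕ Fin 2, Fits f mt n D c (rset f w ℓ) r := by
  have h3 := h.three
  obtain ⟨hp, hq, hm⟩ := ring_ends hd hs hN h hcl
  have hmem : ∀ i < ℓ, (f ^ i) w ∈ rset f w ℓ := fun i hi => ⟨i, hi, rfl⟩
  have hw0 : w ∈ rset f w ℓ := ⟨0, by omega, by simp⟩
  have hwD : w ∈ Del f mt n := rset_sub_del h hw0
  have hmw : mt w ∈ rset f w ℓ := ⟨ℓ - 1, by omega, hcl⟩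
  -- the vertex before the ring
  have hfp : f (f.symm w) = w := f.apply_symm_apply w
  obtain ⟨p, hpv⟩ : ∃ p : UU f mt n, (p : V) = f.symm w := ⟨⟨f.symm w, hp⟩, rfl⟩
  have hfpw : f (p : V) = w := by rw [hpv, hfp]
  have hDf : (D.f p : V) = f (mt w) := by
    rw [hl.f2 p (by rw [hfpw]; exact hwD), hfpw]
  -- the mate of `p` and the vertex before `p` are not deleted
  have hmp : mt p ∉ Del f mt n := by
    intro hh
    have := one_nbr hd hs hN p.2 hh (by rw [hfpw]; exact hwD) (adj_mt hd p) (adj_f hd p)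
    exact hd.d2 p this.symm
  have hsp' : f.symm p ∉ Del f mt n := by
    intro hh
    have := one_nbr hd hs hN p.2 hh (by rw [hfpw]; exact hwD) (adj_fs hd p) (adj_f hd p)
    exact hd.d1 p this.symm
  have hPQ : c p ≠ c (D.f p) := by
    have h1 := hc.hom p (fun hh => hmp ((link_mt_iff hd hl p).1 hh)) (ne_f_sp hl hsp')
    exact fun h2 => h1.1 h2.symm
  -- the attached vertices
  have hXp : ∀ i (hi : 0 < i) (hi' : i + 1 < ℓ), D.X ⟨mt ((f ^ i) w), hm i hi hi'⟩ p := by
    intro i hi hi'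
    rw [hl.x]
    refine ⟨?_, w, ℓ, h, Or.inl ?_, Or.inr hfpw⟩
    · intro he
      have h1 : mt ((f ^ i) w) = p := congrArg Subtype.val he
      apply hmp
      rw [← h1, hd.invol]
      exact rset_sub_del h (hmem i (by omega))
    · exact ⟨i, by omega, (hd.invol _).symm⟩
  have hX : ∀ i j (hi : 0 < i) (hi' : i + 1 < ℓ) (hj : 0 < j) (hj' : j + 1 < ℓ), i ≠ j →
      D.X ⟨mt ((f ^ i) w), hm i hi hi'⟩ ⟨mt ((f ^ j) w), hm j hj hj'⟩ := by
    intro i j hi hi' hj hj' hij
    rw [hl.x]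
    refine ⟨?_, w, ℓ, h, Or.inl ?_, Or.inl ?_⟩
    · intro he
      have h1 : mt ((f ^ i) w) = mt ((f ^ j) w) := congrArg Subtype.val he
      apply hij
      apply h.inj i (by omega) j (by omega)
      rw [← hd.invol ((f ^ i) w), h1, hd.invol]
    · exact ⟨i, by omega, (hd.invol _).symm⟩
    · exact ⟨j, by omega, (hd.invol _).symm⟩
  classical
  set z : ℕ → C := fun i => if hi : 0 < i ∧ i + 1 < ℓ then
    c ⟨mt ((f ^ i) w), hm i hi.1 hi.2⟩ else c p with hz
  set b : ℕ → C := fun i => if hi : 0 < i ∧ i + 1 < ℓ then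
    c (D.f ⟨mt ((f ^ i) w), hm i hi.1 hi.2⟩) else c p with hb
  have ez : ∀ i (hi : 0 < i) (hi' : i + 1 < ℓ), z i = c ⟨mt ((f ^ i) w), hm i hi hi'⟩ := by
    intro i hi hi'
    rw [hz]
    exact dif_pos ⟨hi, hi'⟩
  have eb : ∀ i (hi : 0 < i) (hi' : i + 1 < ℓ),
      b i = c (D.f ⟨mt ((f ^ i) w), hm i hi hi'⟩) := by
    intro i hi hi'
    rw [hb]
    exact dif_pos ⟨hi, hi'⟩
  obtain ⟨r, r0, rE, rO, t0, t1, rr⟩ := ring1_colours ℓ h3 z b (c p) (c (D.f p)) hPQ (by
      intro i hi hi'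
      rw [ez i hi hi', eb i hi hi']
      have hx := hXp i hi hi'
      exact ⟨hc.x _ _ hx _ _ (Or.inl rfl) (Or.inl rfl),
        hc.x _ _ hx _ _ (Or.inl rfl) (Or.inr (Or.inl rfl)),
        hc.x _ _ hx _ _ (Or.inr (Or.inl rfl)) (Or.inl rfl),
        hc.x _ _ hx _ _ (Or.inr (Or.inl rfl)) (Or.inr (Or.inl rfl))⟩) (by
      intro i j hi hi' hj hj' hij
      rw [ez i hi hi', ez j hj hj', eb j hj hj']
      have hx := hX i j hi hi' hj hj' hij
      exact ⟨hc.x _ _ hx _ _ (Or.inl rfl) (Or.inl rfl),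
        hc.x _ _ hx _ _ (Or.inl rfl) (Or.inr (Or.inl rfl))⟩)
  have id0 : idx f w ℓ w = 0 := by
    have h2 := idx_pow h (i := 0) (by omega)
    rwa [pow_zero, Equiv.Perm.one_apply] at h2
  have id1 : idx f w ℓ (mt w) = ℓ - 1 := by
    rw [← hcl, idx_pow h (by omega)]
  have idM : ∀ i < ℓ, mixC c (rset f w ℓ) (fun x => r (idx f w ℓ x)) ((f ^ i) w) = r i := by
    intro i hi
    rw [mixC_mem c _ (hmem i hi), idx_pow h hi]
  refine ⟨fun x => r (idx f w ℓ x), ?_, ?_, ?_, ?_, ?_⟩
  · rintro x ⟨i, hi, rfl⟩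
    rw [idM i hi]
    rcases Nat.eq_zero_or_pos i with rfl | hi0
    · rw [f_pow, idM _ (by omega)]
      rw [pow_zero, Equiv.Perm.one_apply]
      have e3 : mixC c (rset f w ℓ) (fun x => r (idx f w ℓ x)) (f.symm w) = Sum.inl (c p) := by
        rw [mixC_notMem c _ (fun hh => hp (rset_sub_del h hh)), ← hpv, extC_coe]
      have e4 : mixC c (rset f w ℓ) (fun x => r (idx f w ℓ x)) (mt w) = r (ℓ - 1) := by
        rw [← hcl, idM _ (by omega)]
      rw [e3, e4]
      exact t0
    · rcases Nat.lt_or_ge (i + 1) ℓ with hi1 | hi1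
      · rw [f_pow, idM _ hi1, fs_pow w hi0, idM _ (by omega)]
        have e4 : mixC c (rset f w ℓ) (fun x => r (idx f w ℓ x)) (mt ((f ^ i) w))
            = Sum.inl (z i) := by
          rw [mixC_notMem c _ (fun hh => hm i hi0 hi1 (rset_sub_del h hh)),
            extC_of c (hm i hi0 hi1), ez i hi0 hi1]
        rw [e4]
        exact (rr i hi0 hi1).1
      · have hil : i = ℓ - 1 := by omega
        subst hil
        rw [fs_pow w hi0, idM _ (by omega), hcl, hd.invol]
        have e3 : mixC c (rset f w ℓ) (fun x => r (idx f w ℓ x)) (f (mt w))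
            = Sum.inl (c (D.f p)) := by
          rw [mixC_notMem c _ (fun hh => hq (rset_sub_del h hh)), ← hDf, extC_coe]
        have e4 : mixC c (rset f w ℓ) (fun x => r (idx f w ℓ x)) w = r 0 := by
          rw [mixC_mem c _ hw0, id0]
        rw [e3, e4, show ℓ - 1 - 1 = ℓ - 2 by omega]
        exact t1
  · intro x hx
    obtain ⟨i, hi, hix⟩ := hx
    have hi0 : 0 < i := by
      rcases Nat.eq_zero_or_pos i with rfl | hi0
      · exfalso
        apply x.2
        apply rset_sub_del h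
        rw [pow_zero, Equiv.Perm.one_apply] at hix
        rw [← hd.invol (x : V), ← hix]
        exact hmw
      · exact hi0
    have hi1 : i + 1 < ℓ := by
      by_contra hcon
      have hil : i = ℓ - 1 := by omega
      rw [hil, hcl] at hix
      apply x.2
      apply rset_sub_del h
      rw [← hd.invol (x : V), ← hix, hd.invol]
      exact hw0
    have hxu : x = ⟨mt ((f ^ i) w), hm i hi0 hi1⟩ := by
      apply Subtype.ext
      show (x : V) = mt ((f ^ i) w)
      rw [hix, hd.invol]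
    have h2 := (rr i hi0 hi1).2
    have h4 : r (idx f w ℓ (mt x)) = r i := by
      rw [← hix, idx_pow h hi]
    intro h5
    apply h2
    rw [← h4, eb i hi0 hi1]
    rw [← hxu]
    exact h5
  · intro x hx
    obtain ⟨i, hi, hix⟩ := hx
    rcases Nat.eq_zero_or_pos i with rfl | hi0
    · rw [pow_zero, Equiv.Perm.one_apply] at hix
      have hxp : x = p := by
        apply Subtype.ext
        apply f.injective
        rw [hfpw, hix]
      subst hxp
      show r (idx f w ℓ (f x)) = _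
      rw [hfpw, id0, r0]
    · exfalso
      apply x.2
      apply rset_sub_del h
      have h1 : (x : V) = (f ^ (i - 1)) w := by
        rw [← fs_pow w hi0, hix, Equiv.symm_apply_apply]
      rw [h1]
      exact hmem _ (by omega)
  · intro p' hp' hx
    obtain ⟨i, hi, hix⟩ := hx
    have hil : i = ℓ - 1 := by
      by_contra hcon
      apply (D.f p').2
      apply rset_sub_del h
      have h1 : (D.f p' : V) = (f ^ (i + 1)) w := by
        rw [← f_pow, hix, Equiv.apply_symm_apply]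
      rw [h1]
      exact hmem _ (by omega)
    have hpp : p' = p := by
      apply D.f.injective
      apply Subtype.ext
      rw [hDf, ← hcl, ← hil, hix, Equiv.apply_symm_apply]
    subst hpp
    obtain ⟨ℓ', hr', hodd⟩ := (hl.sp p').1 hp'
    rw [hfpw] at hr'
    have hll := (ring_unique hd hs hN h hr' hp hp hw0
      (⟨0, by have := hr'.three; omega, by simp⟩ : w ∈ rset f w ℓ')).2
    rw [← hll] at hodd
    have h1 : 1 + 1 < ℓ ∨ ℓ = 2 := by omega
    have h2 : r (ℓ - 1) = Sum.inl (z 1) := rO hodd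
    have h4 : r (idx f w ℓ (f.symm (D.f p'))) = r (ℓ - 1) := by
      rw [← hix, idx_pow h hi, hil]
    show r (idx f w ℓ (f.symm (D.f p'))) = _
    rw [h4, h2, ez 1 (by omega) (by omega)]
    congr 2
    apply Subtype.ext
    show mt ((f ^ 1) w) = _
    rw [hl.u p' hp', hfpw, pow_one]
  · intro x hx hxn
    obtain ⟨i, hi, hix⟩ := hx
    have hil : i = ℓ - 1 := by
      by_contra hcon
      apply x.2
      apply rset_sub_del h
      have h1 : (x : V) = (f ^ (i + 1)) w := by
        rw [← f_pow, hix, Equiv.apply_symm_apply]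
      rw [h1]
      exact hmem _ (by omega)
    have hxp : x = D.f p := by
      apply Subtype.ext
      rw [hDf, ← hcl, ← hil, hix, Equiv.apply_symm_apply]
    have hev : Even ℓ := by
      rw [← Nat.not_odd_iff_even]
      intro hodd
      refine hxn p ((hl.sp p).2 ⟨ℓ, ?_, hodd⟩) hxp
      rw [hfpw]
      exact h
    have h4 : r (idx f w ℓ (f.symm x)) = r (ℓ - 1) := by
      rw [← hix, idx_pow h hi, hil]
    show r (idx f w ℓ (f.symm x)) = _
    rw [h4, rE hev, hxp, Equiv.symm_apply_apply]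

theorem exists_fits {C : Type} [Finite V] (hd : Desc G f mt) (hs : Sparse G N)
    (hN : 2 * n + 1 ≤ N) (hl : Link f mt n D) (c : UU f mt n → C) (hc : Out D c) (S : Set V)
    (h : ∃ w ℓ, IsRing f mt n w ℓ ∧ rset f w ℓ = S) :
    ∃ r : V → C ⊕ Fin 2, Fits f mt n D c S r := by
  obtain ⟨w, ℓ, hr, rfl⟩ := h
  rcases hr.cl with h1 | h1
  · exact fits_first hd hs hN hl c hc hr h1
  · exact fits_second hd hs hN hl c hc hr h1

end Asm

open Asm

theorem colour_of_out {C : Type} [Finite V] (hd : Desc G f mt) (hs : Sparse G N)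
    (hN : 2 * n + 1 ≤ N) (hl : Link f mt n D) (c : UU f mt n → C) (hc : Out D c) :
    ∃ c' : V → C ⊕ Fin 2, Homog f mt c' := by
  classical
  -- the colours of the rings
  have hex : ∀ S : Set V, ∃ r : V → C ⊕ Fin 2,
      (∃ w ℓ, IsRing f mt n w ℓ ∧ rset f w ℓ = S) → Fits f mt n D c S r := by
    intro S
    by_cases hS : ∃ w ℓ, IsRing f mt n w ℓ ∧ rset f w ℓ = S
    · obtain ⟨r, hr⟩ := exists_fits hd hs hN hl c hc S hS
      exact ⟨r, fun _ => hr⟩
    · exact ⟨fun _ => Sum.inr 0, fun hh => absurd hh hS⟩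
  choose r hr using hex
  -- the ring through a vertex
  have hring : ∀ x, ∃ S : Set V, x ∈ Del f mt n →
      (∃ w ℓ, IsRing f mt n w ℓ ∧ rset f w ℓ = S) ∧ x ∈ S := by
    intro x
    by_cases hx : x ∈ Del f mt n
    · obtain ⟨w, ℓ, h1, h2⟩ := hx
      exact ⟨rset f w ℓ, fun _ => ⟨⟨w, ℓ, h1, rfl⟩, h2⟩⟩
    · exact ⟨∅, fun hh => absurd hh hx⟩
  choose R hR using hring
  -- the colouring
  set c' : V → C ⊕ Fin 2 := fun x => if x ∈ Del f mt n then r (R x) x else extC c x with hc'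
  have cD : ∀ S : Set V, (∃ w ℓ, IsRing f mt n w ℓ ∧ rset f w ℓ = S) → ∀ x ∈ S,
      c' x = r S x := by
    intro S hS x hx
    obtain ⟨w, ℓ, h1, rfl⟩ := hS
    have hxD : x ∈ Del f mt n := rset_sub_del h1 hx
    obtain ⟨⟨w', ℓ', h1', h2'⟩, h3'⟩ := hR x hxD
    have h4 : R x = rset f w ℓ := by
      rw [← h2'] at h3' ⊢
      exact ring_eq hd hs (by omega) h1' h1 h3' hx
    show (if x ∈ Del f mt n then r (R x) x else extC c x) = _
    rw [if_pos hxD, h4]
  have cU : ∀ x : UU f mt n, c' x = Sum.inl (c x) := by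
    intro x
    show (if (x : V) ∈ Del f mt n then r (R x) x else extC c x) = _
    rw [if_neg x.2, extC_coe]
  have cV : ∀ (x : V) (y : UU f mt n), (y : V) = x → c' x = Sum.inl (c y) := by
    intro x y hxy
    rw [← hxy]
    exact cU y
  have hinl : ∀ {a b : C}, a ≠ b → (Sum.inl a : C ⊕ Fin 2) ≠ Sum.inl b := by
    intro a b hab hh
    exact hab (Sum.inl.inj hh)
  -- from the core condition
  have key : ∀ x : UU f mt n, ∀ a b m : V, c' a = Sum.inl (c (D.f x)) →
      c' b = Sum.inl (c (D.f.symm x)) → c' m = Sum.inl (c (D.mt x)) →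
      HomAt D.f D.mt c x →
      c' a ≠ c' x ∧ c' m ≠ c' x ∧ ((c' a = c' b ∧ c' m ≠ c' a) ∨ (c' m = c' a ∧ c' b ≠ c' a) ∨
        (c' m = c' b ∧ c' a ≠ c' b)) := by
    intro x a b m ha hb hm hh
    rw [ha, hb, hm, cU x]
    obtain ⟨h1, h2, h3⟩ := hh
    refine ⟨hinl h1, hinl h2, ?_⟩
    rcases h3 with ⟨h4, h5⟩ | ⟨h4, h5⟩ | ⟨h4, h5⟩
    · exact Or.inl ⟨by rw [h4], hinl h5⟩
    · exact Or.inr (Or.inl ⟨by rw [h4], hinl h5⟩)
    · exact Or.inr (Or.inr ⟨by rw [h4], hinl h5⟩)
  refine ⟨c', ?_⟩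
  intro x
  by_cases hx : x ∈ Del f mt n
  · -- deleted vertices
    obtain ⟨hS, hxS⟩ := hR x hx
    have hF := hr (R x) hS
    have hnb : ∀ y, G.Adj x y → mixC c (R x) (r (R x)) y = c' y := by
      intro y hy
      by_cases hyD : y ∈ Del f mt n
      · have hyS : y ∈ R x := by
          obtain ⟨w, ℓ, h1, h2⟩ := hS
          rw [← h2] at hxS ⊢
          exact ring_closed hd hs (by omega) h1 hxS hyD hy
        rw [mixC_mem c _ hyS, cD (R x) hS y hyS]
      · have hyS : y ∉ R x := by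
          intro hh
          apply hyD
          obtain ⟨w, ℓ, h1, h2⟩ := hS
          rw [← h2] at hh
          exact rset_sub_del h1 hh
        rw [mixC_notMem c _ hyS]
        show _ = (if y ∈ Del f mt n then r (R y) y else extC c y)
        rw [if_neg hyD]
    have ht := hF.tri x hxS
    rw [hnb _ (adj_f hd x), hnb _ (adj_fs hd x), hnb _ (adj_mt hd x), mixC_mem c _ hxS,
      ← cD (R x) hS x hxS] at ht
    exact ⟨ht.1, ht.2.2.1, ht.2.2.2⟩
  · -- the other vertices
    obtain ⟨x, rfl⟩ : ∃ y : UU f mt n, (y : V) = x := ⟨⟨x, hx⟩, rfl⟩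
    by_cases hm : mt x ∈ Del f mt n
    · have hfx : f x ∉ Del f mt n := by
        intro hh
        exact hd.d2 x (one_nbr hd hs hN x.2 hh hm (adj_f hd x) (adj_mt hd x))
      have hsx : f.symm x ∉ Del f mt n := by
        intro hh
        exact hd.d3 x (one_nbr hd hs hN x.2 hh hm (adj_fs hd x) (adj_mt hd x))
      obtain ⟨e1, e2⟩ := hc.e x (hl.m2 x hm)
      have ea := cV _ (D.f x) (hl.f1 x hfx)
      have eb := cV _ (D.f.symm x) (link_s_f1 hd hs hN hl x hsx)
      obtain ⟨hS, hmS⟩ := hR (mt x) hm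
      have hF := hr _ hS
      have em : c' (mt x) = r (R (mt x)) (mt x) := cD _ hS _ hmS
      have h1 : c' (mt x) ≠ c' (f x) := by
        rw [em, ea]
        exact hF.mate x hmS
      have h2 : c' (mt x) ≠ c' x := by
        have ht := (hF.tri (mt x) hmS).2.2.1
        rw [hd.invol, mixC_mem c _ hmS] at ht
        have hxS : (x : V) ∉ R (mt x) := by
          intro hh
          apply hx
          obtain ⟨w, ℓ, h1, h2⟩ := hS
          rw [← h2] at hh
          exact rset_sub_del h1 hh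
        rw [mixC_notMem c _ hxS, extC_coe] at ht
        rw [em, cU x]
        exact fun hh => ht hh.symm
      refine ⟨?_, h2, Or.inl ⟨?_, h1⟩⟩
      · rw [ea, cU x]
        exact hinl e2
      · rw [ea, eb, e1]
    · have hDm : D.mt x ≠ x := fun hh => hm ((link_mt_iff hd hl x).1 hh)
      have em := cV _ (D.mt x) (hl.m1 x hm)
      by_cases hfx : f x ∈ Del f mt n
      · have hsx : f.symm x ∉ Del f mt n := by
          intro hh
          exact hd.d1 x (one_nbr hd hs hN x.2 hfx hh (adj_f hd x) (adj_fs hd x))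
        have eb := cV _ (D.f.symm x) (link_s_f1 hd hs hN hl x hsx)
        obtain ⟨hS, hfS⟩ := hR (f x) hfx
        have hF := hr _ hS
        have ea : c' (f x) = Sum.inl (c (D.f x)) := by
          rw [cD _ hS _ hfS, hF.fwd x hfS]
        exact key x _ _ _ ea eb em (hc.hom x hDm (ne_f_sp hl hsx))
      · have ea := cV _ (D.f x) (hl.f1 x hfx)
        by_cases hsx : f.symm x ∈ Del f mt n
        · obtain ⟨hS, hfS⟩ := hR (f.symm x) hsx
          have hF := hr _ hS
          by_cases hsp : ∃ p ∈ D.Sp, x = D.f p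
          · obtain ⟨p, hp, rfl⟩ := hsp
            obtain ⟨s1, s2, s3, s4, s5, s6⟩ := hc.sp p hp
            have eb : c' (f.symm (D.f p)) = Sum.inl (c (D.u p)) := by
              rw [cD _ hS _ hfS, hF.bwd1 p hp hfS]
            refine ⟨?_, ?_, Or.inl ⟨?_, ?_⟩⟩
            · rw [ea, cU]
              exact hinl s3
            · rw [em, cU]
              exact hinl s4
            · rw [ea, eb, s1]
            · rw [em, ea]
              exact hinl s5
          · have hsp' : ∀ p ∈ D.Sp, x ≠ D.f p := by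
              intro p hp hh
              exact hsp ⟨p, hp, hh⟩
            have eb : c' (f.symm x) = Sum.inl (c (D.f.symm x)) := by
              rw [cD _ hS _ hfS, hF.bwd2 x hfS hsp']
            exact key x _ _ _ ea eb em (hc.hom x hDm hsp')
        · have eb := cV _ (D.f.symm x) (link_s_f1 hd hs hN hl x hsx)
          exact key x _ _ _ ea eb em (hc.hom x hDm (ne_f_sp hl hsx))

end Pool.Agent.HC
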