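import Mathlib
import Pool.Agent.HC.LinkProps

/-!
# Chains along the lines: no short closed lines, attached vertices are far from each other
-/

namespace Pool.Agent.HC

open Pool.Agent.H32.Hom

variable {V : Type} {G : SimpleGraph V} {f : Equiv.Perm V} {mt : V → V} {L : ℕ}

section chain

variable {n : ℕ} {D : Dat (UU f mt n)}

open Classical in
/-- the chain of `v` of length `a` -/
noncomputable def chF (D : Dat (UU f mt n)) (v : UU f mt n) (a : ℕ) : Finset V :=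
  ((Finset.range (a + 1)).image (fun i => ((D.f ^ i) v : V)) ∪
    (Finset.range a).image (fun i => f ((D.f ^ i) v : V))) ∪
    (Finset.range a).image (fun i => f.symm ((D.f ^ (i + 1)) v : V))

theorem mem_chF {v : UU f mt n} {a : ℕ} {x : V} : x ∈ chF D v a ↔
    (∃ i ≤ a, ((D.f ^ i) v : V) = x) ∨ (∃ i < a, f ((D.f ^ i) v : V) = x) ∨
      (∃ i < a, f.symm ((D.f ^ (i + 1)) v : V) = x) := by
  classical
  unfold chF
  simp only [Finset.mem_union, Finset.mem_image, Finset.mem_range, Nat.lt_succ_iff]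
  rw [or_assoc]

theorem chF_card (v : UU f mt n) (a : ℕ) : (chF D v a).card ≤ 3 * a + 1 := by
  classical
  unfold chF
  have h1 := Finset.card_union_le ((Finset.range (a + 1)).image (fun i => ((D.f ^ i) v : V)) ∪
    (Finset.range a).image (fun i => f ((D.f ^ i) v : V)))
    ((Finset.range a).image (fun i => f.symm ((D.f ^ (i + 1)) v : V)))
  have h2 := Finset.card_union_le ((Finset.range (a + 1)).image (fun i => ((D.f ^ i) v : V)))
    ((Finset.range a).image (fun i => f ((D.f ^ i) v : V)))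
  have h3 := Finset.card_image_le (s := Finset.range (a + 1)) (f := fun i => ((D.f ^ i) v : V))
  have h4 := Finset.card_image_le (s := Finset.range a) (f := fun i => f ((D.f ^ i) v : V))
  have h5 := Finset.card_image_le (s := Finset.range a)
    (f := fun i => f.symm ((D.f ^ (i + 1)) v : V))
  rw [Finset.card_range] at h3 h4 h5
  omega

theorem chF_step (D : Dat (UU f mt n)) (v : UU f mt n) (i : ℕ) :
    (D.f ^ (i + 1)) v = D.f ((D.f ^ i) v) := by
  rw [pow_succ', Equiv.Perm.mul_apply]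

/-- the vertex after `y` on the line -/
theorem ch_next (hl : Link f mt n D) (y : UU f mt n) :
    (f y ∉ Del f mt n ∧ (D.f y : V) = f y) ∨
      (f y ∈ Del f mt n ∧ f.symm (D.f y : V) = mt (f y)) := by
  by_cases h : f y ∈ Del f mt n
  · refine Or.inr ⟨h, ?_⟩
    rw [hl.f2 y h, Equiv.symm_apply_apply]
  · exact Or.inl ⟨h, hl.f1 y h⟩

theorem adj_f (hd : Desc G f mt) (v : V) : G.Adj v (f v) := (hd.nbr v _).2 (Or.inl rfl)

theorem adj_fs (hd : Desc G f mt) (v : V) : G.Adj v (f.symm v) :=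
  (hd.nbr v _).2 (Or.inr (Or.inl rfl))

theorem adj_mt (hd : Desc G f mt) (v : V) : G.Adj v (mt v) :=
  (hd.nbr v _).2 (Or.inr (Or.inr rfl))

/-- inner vertices of the chain have two neighbours in the chain -/
theorem chF_two (hd : Desc G f mt) (hl : Link f mt n D) {v : UU f mt n} {a : ℕ} {x : V}
    (hx : x ∈ chF D v a) : x = v ∨ x = ((D.f ^ a) v : V) ∨
      ∃ p ∈ chF D v a, ∃ q ∈ chF D v a, p ≠ q ∧ G.Adj x p ∧ G.Adj x q := by
  have key : ∀ i < a, ((D.f ^ i) v : V) ∈ chF D v a ∧ f ((D.f ^ i) v : V) ∈ chF D v a ∧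
      ((D.f ^ (i + 1)) v : V) ∈ chF D v a ∧ f.symm ((D.f ^ (i + 1)) v : V) ∈ chF D v a := by
    intro i hi
    refine ⟨mem_chF.2 (Or.inl ⟨i, hi.le, rfl⟩), mem_chF.2 (Or.inr (Or.inl ⟨i, hi, rfl⟩)),
      mem_chF.2 (Or.inl ⟨i + 1, hi, rfl⟩), mem_chF.2 (Or.inr (Or.inr ⟨i, hi, rfl⟩))⟩
  have hfirst : ∀ i ≤ a, ((D.f ^ i) v : V) = x → x = v ∨ x = ((D.f ^ a) v : V) ∨
      ∃ p ∈ chF D v a, ∃ q ∈ chF D v a, p ≠ q ∧ G.Adj x p ∧ G.Adj x q := by
    rintro i hi rfl
    rcases Nat.eq_zero_or_pos i with rfl | hi0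
    · exact Or.inl (by rw [pow_zero, Equiv.Perm.one_apply])
    · rcases Nat.lt_or_ge i a with hia | hia
      · refine Or.inr (Or.inr ⟨_, (key i hia).2.1, f.symm ((D.f ^ i) v : V), ?_,
          hd.d1 _, adj_f hd _, adj_fs hd _⟩)
        obtain ⟨j, rfl⟩ : ∃ j, i = j + 1 := ⟨i - 1, by omega⟩
        exact (key j (by omega)).2.2.2
      · have : i = a := le_antisymm hi hia
        exact Or.inr (Or.inl (by rw [this]))
  rcases mem_chF.1 hx with ⟨i, hi, h1⟩ | ⟨i, hi, h1⟩ | ⟨i, hi, h1⟩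
  · exact hfirst i hi h1
  · rcases ch_next hl ((D.f ^ i) v) with ⟨_, h3⟩ | ⟨_, h3⟩
    · rw [← chF_step] at h3
      exact hfirst (i + 1) hi (h3.trans h1)
    · rw [← chF_step] at h3
      refine Or.inr (Or.inr ⟨_, (key i hi).1, _, (key i hi).2.2.2, ?_, ?_, ?_⟩)
      · rw [h3]
        have h4 := hd.d3 (f ((D.f ^ i) v : V))
        rwa [Equiv.symm_apply_apply] at h4
      · rw [← h1]
        exact (adj_f hd _).symm
      · rw [h3, ← h1]
        exact adj_mt hd _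
  · rcases ch_next hl ((D.f ^ i) v) with ⟨_, h3⟩ | ⟨_, h3⟩
    · rw [← chF_step] at h3
      refine hfirst i hi.le ?_
      rw [← h1, h3, Equiv.symm_apply_apply]
    · rw [← chF_step] at h3
      refine Or.inr (Or.inr ⟨_, (key i hi).2.1, _, (key i hi).2.2.1, ?_, ?_, ?_⟩)
      · intro h4
        rw [h4] at h3
        exact hd.d3 _ h3
      · rw [← h1, h3]
        have := adj_mt hd (mt (f ((D.f ^ i) v : V)))
        rwa [hd.invol] at this
      · rw [← h1]
        exact (adj_fs hd _).symm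

theorem mem_rset_self {w : V} {ℓ : ℕ} (h : IsRing f mt n w ℓ) : w ∈ rset f w ℓ :=
  ⟨0, by have := h.three; omega, by rw [pow_zero, Equiv.Perm.one_apply]⟩

/-- an ear between deleted vertices is long -/
theorem ear [Finite V] (hd : Desc G f mt) {N : ℕ} (hs : Sparse G N) (hl : Link f mt n D)
    {x : UU f mt n} {a : ℕ} (haN : 3 * a + 1 + 2 * n ≤ N) {c c' : V} (hc : c ∈ Del f mt n)
    (hc' : c' ∈ Del f mt n) (hxc : G.Adj x c) (hyc : G.Adj ((D.f ^ a) x : V) c')
    (h1 : 0 < a → c ≠ f x) (h2 : 0 < a → c' ≠ f.symm ((D.f ^ a) x : V))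
    (h3 : a = 0 → c ≠ c') : False := by
  obtain ⟨w, ℓ, hw, hcw⟩ := hc
  obtain ⟨w', ℓ', hw', hcw'⟩ := hc'
  set S : Set V := (chF D x a : Set V) ∪ (rset f w ℓ ∪ rset f w' ℓ') with hS
  have hSc : S.ncard ≤ N := by
    have e1 : S.ncard ≤ (chF D x a : Set V).ncard + (rset f w ℓ ∪ rset f w' ℓ').ncard :=
      Set.ncard_union_le _ _
    have e2 := Set.ncard_union_le (rset f w ℓ) (rset f w' ℓ')
    have e3 := chF_card (D := D) x a
    rw [Set.ncard_coe_finset] at e1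
    have e4 := rset_ncard_le f w ℓ
    have e5 := rset_ncard_le f w' ℓ'
    have e6 := hw.le
    have e7 := hw'.le
    omega
  have hR := hw.two hd
  have hR' := hw'.two hd
  have hsub : ∀ z ∈ chF D x a, z ∈ S := fun z hz => Or.inl hz
  have hx : ((x : UU f mt n) : V) ∈ chF D x a := mem_chF.2 (Or.inl ⟨0, Nat.zero_le _, by
    rw [pow_zero, Equiv.Perm.one_apply]⟩)
  have hxtwo : ∃ p ∈ S, ∃ q ∈ S, p ≠ q ∧ G.Adj (x : V) p ∧ G.Adj (x : V) q := by
    rcases Nat.eq_zero_or_pos a with ha | ha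
    · subst ha
      refine ⟨c, Or.inr (Or.inl hcw), c', Or.inr (Or.inr hcw'), h3 rfl, hxc, ?_⟩
      rwa [pow_zero, Equiv.Perm.one_apply] at hyc
    · refine ⟨c, Or.inr (Or.inl hcw), f x, hsub _ (mem_chF.2 (Or.inr (Or.inl ⟨0, ha, by
        rw [pow_zero, Equiv.Perm.one_apply]⟩))), h1 ha, hxc, adj_f hd _⟩
  have hytwo : ∃ p ∈ S, ∃ q ∈ S, p ≠ q ∧ G.Adj ((D.f ^ a) x : V) p ∧
      G.Adj ((D.f ^ a) x : V) q := by
    rcases Nat.eq_zero_or_pos a with ha | ha
    · subst ha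
      rw [pow_zero, Equiv.Perm.one_apply]
      exact hxtwo
    · refine ⟨c', Or.inr (Or.inr hcw'), f.symm ((D.f ^ a) x : V), hsub _
        (mem_chF.2 (Or.inr (Or.inr ⟨a - 1, by omega, ?_⟩))), h2 ha, hyc, adj_fs hd _⟩
      rw [Nat.sub_add_cancel ha]
  have hST : Two G S := by
    intro z hz
    rcases hz with hz | hz | hz
    · rcases chF_two hd hl hz with h | h | ⟨p, hp, q, hq, h⟩
      · rw [h]; exact hxtwo
      · rw [h]; exact hytwo
      · exact ⟨p, hsub p hp, q, hsub q hq, h⟩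
    · obtain ⟨p, hp, q, hq, h⟩ := hR z hz
      exact ⟨p, Or.inr (Or.inl hp), q, Or.inr (Or.inl hq), h⟩
    · obtain ⟨p, hp, q, hq, h⟩ := hR' z hz
      exact ⟨p, Or.inr (Or.inr hp), q, Or.inr (Or.inr hq), h⟩
  have h4 := two_closed hs hST hSc hR (fun z hz => Or.inr (Or.inl hz)) hcw (hsub _ hx) hxc.symm
  exact x.2 ⟨w, ℓ, hw, h4⟩

/-- no short closed line -/
theorem w0_nat [Finite V] (hd : Desc G f mt) {N : ℕ} (hs : Sparse G N) (hl : Link f mt n D)
    {v : UU f mt n} {a : ℕ} (ha0 : 0 < a) (han : a ≤ n) (haN : 3 * a + 1 + n ≤ N)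
    (h : (D.f ^ a) v = v) : False := by
  have hv : ((v : UU f mt n) : V) ∈ chF D v a := mem_chF.2 (Or.inl ⟨0, Nat.zero_le _, by
    rw [pow_zero, Equiv.Perm.one_apply]⟩)
  have hvtwo : ∃ p ∈ chF D v a, ∃ q ∈ chF D v a, p ≠ q ∧ G.Adj (v : V) p ∧ G.Adj (v : V) q := by
    refine ⟨f v, mem_chF.2 (Or.inr (Or.inl ⟨0, ha0, by
      rw [pow_zero, Equiv.Perm.one_apply]⟩)), f.symm v,
      mem_chF.2 (Or.inr (Or.inr ⟨a - 1, by omega, ?_⟩)), hd.d1 _, adj_f hd _, adj_fs hd _⟩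
    rw [Nat.sub_add_cancel ha0, h]
  have hTwo : Two G (chF D v a : Set V) := by
    intro z hz
    rcases chF_two hd hl hz with h1 | h1 | h1
    · rw [h1]; exact hvtwo
    · rw [h1, h]; exact hvtwo
    · exact h1
  by_cases hall : ∀ i < a, f ((D.f ^ i) v : V) ∉ Del f mt n
  · have h1 : ∀ i ≤ a, ((D.f ^ i) v : V) = (f ^ i) v := by
      intro i
      induction i with
      | zero => intro _; rw [pow_zero, pow_zero, Equiv.Perm.one_apply, Equiv.Perm.one_apply]
      | succ i ih =>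
        intro hi
        rw [chF_step, hl.f1 _ (hall i hi), ih (by omega), pow_succ', Equiv.Perm.mul_apply]
    have h2 := h1 a le_rfl
    rw [h] at h2
    exact v.2 (mem_del_of_pow hd ha0 han h2.symm)
  · push Not at hall
    obtain ⟨i, hi, w, ℓ, hw, hcw⟩ := hall
    have hR := hw.two hd
    have hST : Two G ((chF D v a : Set V) ∪ rset f w ℓ) := hTwo.union hR
    have hSc : ((chF D v a : Set V) ∪ rset f w ℓ).ncard ≤ N := by
      have e1 := Set.ncard_union_le (chF D v a : Set V) (rset f w ℓ)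
      have e3 := chF_card (D := D) v a
      rw [Set.ncard_coe_finset] at e1
      have e4 := rset_ncard_le f w ℓ
      have e6 := hw.le
      omega
    have h4 := two_closed hs hST hSc hR (fun z hz => Or.inr hz) hcw
      (Or.inl (mem_chF.2 (Or.inl ⟨i, hi.le, rfl⟩)) : ((D.f ^ i) v : V) ∈ _) (adj_f hd _).symm
    exact ((D.f ^ i) v).2 ⟨w, ℓ, hw, h4⟩

/-- attached vertices are far from each other -/
theorem x3_nat [Finite V] (hd : Desc G f mt) {N : ℕ} (hs : Sparse G N) (hl : Link f mt n D)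
    {x x' : UU f mt n} (h : mt x ∈ Del f mt n ∨ f x ∈ Del f mt n)
    (h' : mt x' ∈ Del f mt n ∨ f x' ∈ Del f mt n) {a : ℕ} (ha0 : 0 < a)
    (haN : 3 * a + 1 + 2 * n ≤ N) (hx : (D.f ^ a) x = x') : False := by
  obtain ⟨c', hc'1, hc'2, hc'3, hc'4⟩ : ∃ c' ∈ Del f mt n, G.Adj (x' : V) c' ∧
      c' ≠ f.symm x' ∧ (c' = mt x' ∨ c' = f x') := by
    rcases h' with h' | h'
    · exact ⟨_, h', adj_mt hd _, (hd.d3 _).symm, Or.inl rfl⟩
    · exact ⟨_, h', adj_f hd _, hd.d1 _, Or.inr rfl⟩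
  rcases h with h | h
  · refine ear hd hs hl haN h hc'1 (adj_mt hd _) ?_ (fun _ => (hd.d2 _).symm) ?_
      (fun h0 => absurd h0 ha0.ne')
    · rw [hx]; exact hc'2
    · rw [hx]; exact fun _ => hc'3
  · obtain ⟨b, rfl⟩ : ∃ b, a = b + 1 := ⟨a - 1, by omega⟩
    have hN2 : 2 * n + 1 ≤ N := by omega
    obtain ⟨ℓ, hr, hcl⟩ := ring_start hd hs hN2 x.2 h
    have hmt : mt (f x) ∈ Del f mt n :=
      ⟨f x, ℓ, hr, ⟨ℓ - 1, by have := hr.three; omega, hcl⟩⟩
    have hfs : f.symm (D.f x : V) = mt (f x) := by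
      rw [hl.f2 x h, Equiv.symm_apply_apply]
    have hx2 : (D.f ^ b) (D.f x) = x' := by
      rw [← hx, pow_succ, Equiv.Perm.mul_apply]
    refine ear hd hs hl (x := D.f x) (a := b) (by omega) hmt hc'1 ?_ ?_ ?_ ?_ ?_
    · rw [← hfs]; exact adj_fs hd _
    · rw [hx2]; exact hc'2
    · intro _
      rw [← hfs]
      exact (hd.d1 _).symm
    · rw [hx2]; exact fun _ => hc'3
    · intro hb
      subst hb
      rw [pow_zero, Equiv.Perm.one_apply] at hx2
      rw [← hfs, hx2]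
      exact hc'3.symm

end chain

variable {D : Dat (UU f mt (100 * L))}

theorem link_w0 [Finite V] (hd : Desc G f mt) (hL : 0 < L) (hs : Sparse G (2000 * L))
    (hl : Link f mt (100 * L) D) (v : UU f mt (100 * L)) (a : ℤ) (ha : a ≠ 0)
    (haL : |a| ≤ 60 * (L : ℤ)) : (D.f ^ a) v ≠ v := by
  intro h
  have hab := abs_le.1 haL
  rcases Int.lt_or_lt_of_ne ha with h0 | h0
  · obtain ⟨b, hb⟩ := Int.eq_ofNat_of_zero_le (by omega : 0 ≤ -a)
    have h1 : (D.f ^ b) v = v := by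
      have h2 : (D.f ^ (-a)) v = v := by
        rw [zpow_neg]
        exact (Equiv.Perm.inv_eq_iff_eq).2 h.symm
      rw [hb] at h2
      exact h2
    exact w0_nat hd hs hl (a := b) (by omega) (by omega) (by omega) h1
  · obtain ⟨b, hb⟩ := Int.eq_ofNat_of_zero_le (by omega : 0 ≤ a)
    rw [hb] at h
    exact w0_nat hd hs hl (a := b) (by omega) (by omega) (by omega) h

theorem link_x3 [Finite V] (hd : Desc G f mt) (hL : 0 < L) (hs : Sparse G (2000 * L))
    (hl : Link f mt (100 * L) D) (x y x' y' : UU f mt (100 * L)) (h : D.X x y) (h' : D.X x' y')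
    (a : ℤ) (ha : |a| ≤ 60 * (L : ℤ)) (hx : (D.f ^ a) x = x') : x = x' := by
  have hat : ∀ {x y : UU f mt (100 * L)}, D.X x y →
      mt x ∈ Del f mt (100 * L) ∨ f x ∈ Del f mt (100 * L) := by
    intro x y h
    obtain ⟨_, w, ℓ, hw, hA, _⟩ := (hl.x x y).1 h
    rcases hA with h1 | h1
    · exact Or.inl ⟨w, ℓ, hw, h1⟩
    · exact Or.inr ⟨w, ℓ, hw, by rw [h1]; exact mem_rset_self hw⟩
  have hab := abs_le.1 ha
  rcases lt_trichotomy a 0 with h0 | h0 | h0
  · obtain ⟨b, hb⟩ := Int.eq_ofNat_of_zero_le (by omega : 0 ≤ -a)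
    have h1 : (D.f ^ b) x' = x := by
      have h2 : (D.f ^ (-a)) x' = x := by
        rw [zpow_neg]
        exact (Equiv.Perm.inv_eq_iff_eq).2 hx.symm
      rw [hb] at h2
      exact h2
    exact (x3_nat hd hs hl (hat h') (hat h) (a := b) (by omega) (by omega) h1).elim
  · rw [h0, zpow_zero, Equiv.Perm.one_apply] at hx
    exact hx
  · obtain ⟨b, hb⟩ := Int.eq_ofNat_of_zero_le (by omega : 0 ≤ a)
    rw [hb] at hx
    exact (x3_nat hd hs hl (hat h) (hat h') (a := b) (by omega) (by omega) hx).elim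

end Pool.Agent.HC
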