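import Mathlib
import Pool.Agent.HC.LinkProps

/-!
# From walks in the data of the core to walks in the graph
-/

namespace Pool.Agent.HC

open Pool.Agent.H32.Hom

variable {V : Type} {G : SimpleGraph V} {N n : ℕ} {f : Equiv.Perm V} {mt : V → V}
  {D : Dat (UU f mt n)}

/-- The matching edges which do not touch a deleted vertex. -/
def CvM (f : Equiv.Perm V) (mt : V → V) (n : ℕ) (e : Sym2 V) : Prop :=
  ∃ z, e = s(z, mt z) ∧ z ∉ Del f mt n ∧ mt z ∉ Del f mt n

/-- `x` and `y` are joined by a walk of length at most `k` without such edges. -/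
def CvJ (G : SimpleGraph V) (f : Equiv.Perm V) (mt : V → V) (n k : ℕ) (x y : V) : Prop :=
  ∃ p : G.Walk x y, p.length ≤ k ∧ ∀ e ∈ p.edges, ¬ CvM f mt n e

theorem CvJ.symm {k : ℕ} {x y : V} (h : CvJ G f mt n k x y) : CvJ G f mt n k y x := by
  obtain ⟨p, hp, he⟩ := h
  refine ⟨p.reverse, by simpa using hp, fun e hm => he e ?_⟩
  simpa using hm

theorem CvJ.trans {k l : ℕ} {x y z : V} (h : CvJ G f mt n k x y) (h' : CvJ G f mt n l y z) :
    CvJ G f mt n (k + l) x z := by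
  obtain ⟨p, hp, he⟩ := h
  obtain ⟨q, hq, he'⟩ := h'
  refine ⟨p.append q, ?_, fun e hm => ?_⟩
  · rw [SimpleGraph.Walk.length_append]
    omega
  · rw [SimpleGraph.Walk.edges_append, List.mem_append] at hm
    exact hm.elim (he e) (he' e)

theorem CvJ.mono {k l : ℕ} {x y : V} (h : CvJ G f mt n k x y) (hkl : k ≤ l) :
    CvJ G f mt n l x y := by
  obtain ⟨p, hp, he⟩ := h
  exact ⟨p, hp.trans hkl, he⟩

theorem cvJ_adj {x y : V} (h : G.Adj x y) (he : ¬ CvM f mt n s(x, y)) :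
    CvJ G f mt n 1 x y := by
  refine ⟨h.toWalk, by simp, fun e hm => ?_⟩
  have : e = s(x, y) := by simpa using hm
  rw [this]
  exact he

theorem cvJ_f (hd : Desc G f mt) (x : V) : CvJ G f mt n 1 x (f x) := by
  refine cvJ_adj ((hd.nbr x (f x)).2 (Or.inl rfl)) ?_
  rintro ⟨z, hz, -, -⟩
  rw [Sym2.eq_iff] at hz
  rcases hz with ⟨rfl, h⟩ | ⟨h, h'⟩
  · exact hd.d2 _ h
  · apply hd.d2 x
    rw [h', h, hd.invol]

theorem cvJ_mt (hd : Desc G f mt) (x : V) (hx : x ∈ Del f mt n ∨ mt x ∈ Del f mt n) :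
    CvJ G f mt n 1 x (mt x) := by
  refine cvJ_adj ((hd.nbr x (mt x)).2 (Or.inr (Or.inr rfl))) ?_
  rintro ⟨z, hz, h1, h2⟩
  rw [Sym2.eq_iff] at hz
  rcases hz with ⟨rfl, h⟩ | ⟨h, h'⟩
  · exact hx.elim h1 h2
  · rw [← h'] at h1
    rw [← h] at h2
    exact hx.elim h2 h1

theorem cvJ_pow (hd : Desc G f mt) (x : V) (i : ℕ) : CvJ G f mt n i x ((f ^ i) x) := by
  induction i with
  | zero =>
    have h : CvJ G f mt n 0 x x := by
      refine ⟨SimpleGraph.Walk.nil, ?_, ?_⟩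
      · rw [SimpleGraph.Walk.length_nil]
      · intro e he
        rw [SimpleGraph.Walk.edges_nil] at he
        exact absurd he List.not_mem_nil
    simpa using h
  | succ i ih =>
    have h := ih.trans (cvJ_f (n := n) hd ((f ^ i) x))
    rwa [← Equiv.Perm.mul_apply, ← pow_succ'] at h

theorem cvJ_ring (hd : Desc G f mt) {w : V} {l i j : ℕ} (hi : i < l) (hj : j < l) :
    CvJ G f mt n (l - 1) ((f ^ i) w) ((f ^ j) w) := by
  have key : ∀ a b : ℕ, a ≤ b → b < l → CvJ G f mt n (l - 1) ((f ^ a) w) ((f ^ b) w) := by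
    intro a b hab hb
    have h := cvJ_pow (n := n) hd ((f ^ a) w) (b - a)
    rw [← Equiv.Perm.mul_apply, ← pow_add, Nat.sub_add_cancel hab] at h
    exact h.mono (by omega)
  rcases le_total i j with h | h
  · exact key i j h hj
  · exact (key j i h hi).symm

theorem cvJ_fwd (hd : Desc G f mt) (hl : Link f mt n D) (y : UU f mt n) :
    CvJ G f mt n 3 (y : V) (D.f y : V) := by
  by_cases h : f (y : V) ∈ Del f mt n
  · rw [hl.f2 y h]
    exact ((cvJ_f hd (y : V)).trans (cvJ_mt hd _ (Or.inl h))).trans (cvJ_f hd _)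
  · rw [hl.f1 y h]
    exact (cvJ_f hd (y : V)).mono (by norm_num)

theorem cvJ_bwd (hd : Desc G f mt) (hl : Link f mt n D) (y : UU f mt n) :
    CvJ G f mt n 3 (y : V) (D.f.symm y : V) := by
  have h := cvJ_fwd hd hl (D.f.symm y)
  rw [Equiv.apply_symm_apply] at h
  exact h.symm

theorem cvJ_imp (hd : Desc G f mt) (hl : Link f mt n D) {p : UU f mt n} (hp : p ∈ D.Sp) :
    CvJ G f mt n 3 (p : V) (D.u p : V) := by
  obtain ⟨l, hr, -⟩ := (hl.sp p).1 hp
  rw [hl.u p hp]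
  have h3 := hr.three
  have hmem : f (f (p : V)) ∈ Del f mt n := ⟨f p, l, hr, 1, by omega, by simp⟩
  exact ((cvJ_f hd (p : V)).trans (cvJ_f hd _)).trans (cvJ_mt hd _ (Or.inl hmem))

theorem cvJ_at (hd : Desc G f mt) {w x : V} {l : ℕ} (hr : IsRing f mt n w l)
    (hx : At f mt w l x) : ∃ i < l, CvJ G f mt n 1 x ((f ^ i) w) := by
  have h3 := hr.three
  rcases hx with ⟨i, hi, hx⟩ | hx
  · refine ⟨i, hi, ?_⟩
    rw [hx]
    exact cvJ_mt hd x (Or.inr ⟨w, l, hr, i, hi, hx⟩)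
  · refine ⟨0, by omega, ?_⟩
    have h := cvJ_f (n := n) hd x
    rw [hx] at h
    simpa using h

theorem cvJ_ex (hd : Desc G f mt) (hl : Link f mt n D) {y y' : UU f mt n} (h : D.X y y') :
    CvJ G f mt n (n + 3) (y : V) (y' : V) := by
  obtain ⟨-, w, l, hr, h1, h2⟩ := (hl.x y y').1 h
  obtain ⟨i, hi, hy⟩ := cvJ_at hd hr h1
  obtain ⟨j, hj, hy'⟩ := cvJ_at hd hr h2
  have h3 := (hy.trans (cvJ_ring (n := n) (w := w) hd hi hj)).trans hy'.symm
  have := hr.le
  exact h3.mono (by omega)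

open Classical in
theorem mc_eq_countP {x y : V} (p : G.Walk x y) :
    mc f mt n p = p.edges.countP (fun e => CvM f mt n e) := rfl

open Classical in
/-- Prepending a clean walk. -/
theorem cv_cons {k m c : ℕ} {x y z : V} {e0 : Sym2 V} (h0 : CvM f mt n e0)
    (h : CvJ G f mt n k x y)
    (h' : ∃ p : G.Walk y z, p.length ≤ c ∧ e0 ∉ p.edges ∧ mc f mt n p ≤ m) :
    ∃ p : G.Walk x z, p.length ≤ k + c ∧ e0 ∉ p.edges ∧ mc f mt n p ≤ m := by
  obtain ⟨q, hq, hc⟩ := h
  obtain ⟨p, hp, he, hm⟩ := h'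
  refine ⟨q.append p, ?_, ?_, ?_⟩
  · rw [SimpleGraph.Walk.length_append]
    omega
  · rw [SimpleGraph.Walk.edges_append, List.mem_append]
    rintro (h | h)
    · exact hc _ h h0
    · exact he h
  · rw [mc_eq_countP] at hm ⊢
    rw [SimpleGraph.Walk.edges_append, List.countP_append]
    have : q.edges.countP (fun e => CvM f mt n e) = 0 := by
      rw [List.countP_eq_zero]
      intro e he'
      simpa using hc e he'
    omega

theorem walk_of_wk [Finite V] (hd : Desc G f mt) (hs : Sparse G N) (hN : 2 * n + 1 ≤ N)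
    (hl : Link f mt n D) (v : UU f mt n) (hv : mt v ∉ Del f mt n) {m e l : ℕ}
    {y z : UU f mt n} (h : Wk D v m e l y z) :
    ∃ p : G.Walk (y : V) (z : V), p.length ≤ m + e * (n + 3) + 3 * l ∧
      s((v : V), mt v) ∉ p.edges ∧ mc f mt n p ≤ m := by
  classical
  have h0 : CvM f mt n s((v : V), mt v) := ⟨v, rfl, v.2, hv⟩
  induction h with
  | nil y =>
    refine ⟨SimpleGraph.Walk.nil, by simp, by simp, by simp [mc]⟩
  | @fwd m e l y z h ih =>
    obtain ⟨p, h1, h2, h3⟩ := cv_cons h0 (cvJ_fwd hd hl y) ih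
    exact ⟨p, by linarith, h2, h3⟩
  | @bwd m e l y z h ih =>
    obtain ⟨p, h1, h2, h3⟩ := cv_cons h0 (cvJ_bwd hd hl y) ih
    exact ⟨p, by linarith, h2, h3⟩
  | @mate m e l y z hy hyv hyv' h ih =>
    obtain ⟨p, h1, h2, h3⟩ := ih
    have hmy : mt (y : V) ∉ Del f mt n := fun hc => hy (hl.m2 y hc)
    have hadj : G.Adj (y : V) (D.mt y : V) := by
      rw [hl.m1 y hmy]
      exact (hd.nbr _ _).2 (Or.inr (Or.inr rfl))
    refine ⟨SimpleGraph.Walk.cons hadj p, ?_, ?_, ?_⟩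
    · rw [SimpleGraph.Walk.length_cons]
      omega
    · rw [SimpleGraph.Walk.edges_cons, List.mem_cons]
      rintro (hc | hc)
      · rw [hl.m1 y hmy, Sym2.eq_iff] at hc
        rcases hc with ⟨hc, -⟩ | ⟨hc, hc'⟩
        · exact hyv (Subtype.ext hc.symm)
        · apply hyv'
          apply Subtype.ext
          rw [hl.m1 v hv]
          exact hc'.symm
      · exact h2 hc
    · unfold mc at h3 ⊢
      rw [SimpleGraph.Walk.edges_cons, List.countP_cons]
      split_ifs <;> omega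
  | @imp m e l p z hp h ih =>
    obtain ⟨p, h1, h2, h3⟩ := cv_cons h0 (cvJ_imp hd hl hp) ih
    exact ⟨p, by linarith, h2, h3⟩
  | @imp' m e l p z hp h ih =>
    obtain ⟨p, h1, h2, h3⟩ := cv_cons h0 (cvJ_imp hd hl hp).symm ih
    exact ⟨p, by linarith, h2, h3⟩
  | @ex m e l y y' z hx h ih =>
    obtain ⟨p, h1, h2, h3⟩ := cv_cons h0 (cvJ_ex hd hl hx) ih
    exact ⟨p, by linarith, h2, h3⟩

/-- The same with a path. -/
theorem path_of_wk [Finite V] (hd : Desc G f mt) (hs : Sparse G N) (hN : 2 * n + 1 ≤ N)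
    (hl : Link f mt n D) (v : UU f mt n) (hv : mt v ∉ Del f mt n) {m e l : ℕ}
    {y z : UU f mt n} (h : Wk D v m e l y z) :
    ∃ p : G.Walk (y : V) (z : V), p.IsPath ∧ p.length ≤ m + e * (n + 3) + 3 * l ∧
      s((v : V), mt v) ∉ p.edges ∧ mc f mt n p ≤ m := by
  classical
  obtain ⟨p, h1, h2, h3⟩ := walk_of_wk hd hs hN hl v hv h
  refine ⟨p.bypass, p.bypass_isPath, (p.length_bypass_le_length).trans h1, ?_, ?_⟩
  · exact fun hc => h2 (p.edges_bypass_subset_edges hc)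
  · unfold mc at h3 ⊢
    have hn : p.bypass.edges.Nodup := (p.bypass_isPath).isTrail.edges_nodup
    exact ((List.subperm_of_subset hn p.edges_bypass_subset_edges).countP_le _).trans h3

end Pool.Agent.HC
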