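import Mathlib
import Pool.Agent.HC.Conv

/-!
# No short walk from the mate of a vertex to the vertex without steps to mates
-/

namespace Pool.Agent.HC

open Pool.Agent.H32.Hom

variable {V : Type} {G : SimpleGraph V} {f : Equiv.Perm V} {mt : V → V} {L : ℕ}
  {D : Dat (UU f mt (100 * L))}

/-- The path of a walk from the mate of `v` to `v` does not touch deleted vertices. -/
theorem path_avoids [Finite V] (hd : Desc G f mt) (hL : 0 < L) (hs : Sparse G (2000 * L))
    (v : V) (hv : v ∉ Del f mt (100 * L)) (p : G.Walk (mt v) v) (hp : p.IsPath)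
    (he : s(v, mt v) ∉ p.edges) (hlen : p.length ≤ 600 * L) :
    ∀ z ∈ p.support, z ∉ Del f mt (100 * L) := by
  rintro z hz ⟨w, ℓ, hr, hzr⟩
  apply hv
  have hadj : G.Adj (mt v) v := ((hd.nbr v (mt v)).2 (Or.inr (Or.inr rfl))).symm
  have hS : Two G {z | z ∈ p.support} :=
    two_of_path p hp hadj (by rw [Sym2.eq_swap]; exact he)
  have hR := hr.two hd
  have hc : ({z | z ∈ p.support} ∪ rset f w ℓ).ncard ≤ 2000 * L := by
    have h1 := Set.ncard_union_le {z | z ∈ p.support} (rset f w ℓ)
    have h2 := ncard_support_le p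
    have h3 := rset_ncard_le f w ℓ
    have h4 := hr.le
    omega
  have h5 := subset_of_touch hs (hS.union hR) hc hR Set.subset_union_right (inConn_support p)
    Set.subset_union_left hzr hz
  exact ⟨w, ℓ, hr, h5 p.end_mem_support⟩

/-- a walk which uses only edges of `f` is a power of `f` -/
private theorem ho_pow {x y : V} (q : G.Walk x y)
    (h : ∀ a b, s(a, b) ∈ q.edges → b = f a ∨ b = f.symm a) :
    ∃ k : ℤ, |k| ≤ q.length ∧ (f ^ k) x = y := by
  induction q with
  | nil => exact ⟨0, by simp, by simp⟩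
  | @cons x u y hadj q ih =>
    obtain ⟨k, hk, hky⟩ := ih (fun a b hab => h a b (by
      rw [SimpleGraph.Walk.edges_cons]
      exact List.mem_cons_of_mem _ hab))
    have h1 := h x u (by
      rw [SimpleGraph.Walk.edges_cons]
      exact List.mem_cons_self)
    rw [SimpleGraph.Walk.length_cons]
    push_cast
    rcases h1 with h1 | h1
    · refine ⟨k + 1, ?_, ?_⟩
      · have := abs_add_le k 1
        rw [abs_one] at this
        omega
      · rw [zpow_add, Equiv.Perm.mul_apply, zpow_one, ← h1, hky]
    · refine ⟨k - 1, ?_, ?_⟩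
      · have := abs_sub k 1
        rw [abs_one] at this
        omega
      · rw [zpow_sub, Equiv.Perm.mul_apply, zpow_one]
        have : (f⁻¹ : Equiv.Perm V) x = f.symm x := rfl
        rw [this, ← h1, hky]

theorem link_h1 [Finite V] (hd : Desc G f mt) (hL : 0 < L) (hs : Sparse G (2000 * L))
    (hl : Link f mt (100 * L) D) (v : UU f mt (100 * L)) (hv : D.mt v ≠ v) (l : ℕ)
    (hlL : l ≤ 30 * L) : ¬ Wk D v 0 0 l (D.mt v) v := by
  classical
  intro h
  have hmv : mt v ∉ Del f mt (100 * L) := fun h1 => hv (hl.m2 v h1)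
  have hm1 : (D.mt v : V) = mt v := hl.m1 v hmv
  obtain ⟨p, hp, hlen, he, hmc⟩ := path_of_wk hd hs (by omega) hl v hmv h
  have key : ∀ (x : V) (q : G.Walk x (v : V)), x = mt v → q.IsPath → q.length ≤ 90 * L →
      s((v : V), mt v) ∉ q.edges → mc f mt (100 * L) q = 0 → False := by
    intro x q hx hq hql hqe hqm
    subst hx
    have hav := path_avoids hd hL hs v v.2 q hq hqe (by omega)
    have hno : ∀ e ∈ q.edges, ¬ ∃ z, e = s(z, mt z) ∧ z ∉ Del f mt (100 * L) ∧
        mt z ∉ Del f mt (100 * L) := by
      intro e heq hz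
      unfold mc at hqm
      rw [List.countP_eq_zero] at hqm
      exact hqm e heq (by simpa using hz)
    obtain ⟨k, hk, hky⟩ := ho_pow (f := f) q (by
      intro a b hab
      have hadj : G.Adj a b := q.adj_of_mem_edges hab
      have ha := q.fst_mem_support_of_mem_edges hab
      have hb := q.snd_mem_support_of_mem_edges hab
      rcases (hd.nbr a b).1 hadj with h1 | h1 | h1
      · exact Or.inl h1
      · exact Or.inr h1
      · exfalso
        apply hno _ hab
        refine ⟨a, by rw [h1], hav a ha, ?_⟩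
        rw [← h1]
        exact hav b hb)
    have hk' : |k| ≤ 90 * (L : ℤ) := by
      have : (q.length : ℤ) ≤ 90 * (L : ℤ) := by exact_mod_cast hql
      omega
    rcases lt_trichotomy k 0 with h0 | h0 | h0
    · -- negative
      obtain ⟨a, ha⟩ : ∃ a : ℕ, k = -(a : ℤ) := ⟨(-k).toNat, by omega⟩
      subst ha
      have h3 : (f ^ a) (v : V) = mt v := by
        rw [zpow_neg, zpow_natCast] at hky
        have h4 : (f ^ a) ((f ^ a)⁻¹ (mt v)) = mt v := Equiv.apply_symm_apply (f ^ a) _
        rw [hky] at h4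
        exact h4
      have h5 : |(-(a : ℤ))| = a := by rw [abs_neg, Nat.abs_cast]
      rw [h5] at hk'
      have h6 := isRing_of_mt hd hs (n := 100 * L) (by omega) (w := (v : V)) (a := a)
        (by omega) (by omega) h3
      exact v.2 ⟨v, a + 1, h6, 0, by omega, rfl⟩
    · subst h0
      rw [zpow_zero, Equiv.Perm.one_apply] at hky
      have h3 : G.Adj (v : V) (mt v) := (hd.nbr v (mt v)).2 (Or.inr (Or.inr rfl))
      rw [hky] at h3
      exact G.loopless.irrefl _ h3
    · obtain ⟨a, ha⟩ : ∃ a : ℕ, k = (a : ℤ) := ⟨k.toNat, by omega⟩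
      subst ha
      rw [zpow_natCast] at hky
      rw [Nat.abs_cast] at hk'
      have h6 := isRing_of_mt hd hs (n := 100 * L) (by omega) (w := mt v) (a := a)
        (by omega) (by omega) (by rw [hd.invol]; exact hky)
      exact hmv ⟨mt v, a + 1, h6, 0, by omega, rfl⟩
  exact key _ p hm1 hp (by omega) he (by omega)

end Pool.Agent.HC
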