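import Mathlib
import Pool.Agent.HC.Defs

/-!
Walks in the data of the core
-/

namespace Pool.Agent.HC

open Pool.Agent.H32.Hom

variable {U : Type} {D : Dat U} {st : U → U} {pos : U → ℕ} {L : ℕ}

theorem Wk.cast' {v x y : U} {m e l m' e' l' : ℕ} (h : Wk D v m e l x y) (hm : m = m')
    (he : e = e') (hl : l = l') : Wk D v m' e' l' x y := by
  subst hm he hl
  exact h

theorem Wk.trans {v x y z : U} {m e l m' e' l' : ℕ} (h : Wk D v m e l x y)
    (h' : Wk D v m' e' l' y z) : Wk D v (m + m') (e + e') (l + l') x z := by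
  induction h with
  | nil y => exact h'.cast' (by omega) (by omega) (by omega)
  | fwd _ ih => exact (Wk.fwd (ih h')).cast' rfl rfl (by omega)
  | bwd _ ih => exact (Wk.bwd (ih h')).cast' rfl rfl (by omega)
  | mate h1 h2 h3 _ ih => exact (Wk.mate h1 h2 h3 (ih h')).cast' (by omega) rfl rfl
  | imp hp _ ih => exact (Wk.imp hp (ih h')).cast' rfl rfl (by omega)
  | imp' hp _ ih => exact (Wk.imp' hp (ih h')).cast' rfl rfl (by omega)
  | ex hx _ ih => exact (Wk.ex hx (ih h')).cast' rfl (by omega) rfl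

theorem wk_pow (v : U) : ∀ (k : ℕ) (y : U), Wk D v 0 0 k y ((D.f ^ k) y) := by
  intro k
  induction k with
  | zero =>
    intro y
    exact Wk.nil y
  | succ k ih =>
    intro y
    have h := Wk.fwd (ih (D.f y))
    rw [pow_succ, Equiv.Perm.mul_apply]
    exact h

theorem wk_symm_pow (v : U) : ∀ (k : ℕ) (y : U), Wk D v 0 0 k y ((D.f⁻¹ ^ k) y) := by
  intro k
  induction k with
  | zero =>
    intro y
    exact Wk.nil y
  | succ k ih =>
    intro y
    have h := Wk.bwd (ih (D.f.symm y))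
    rw [pow_succ, Equiv.Perm.mul_apply]
    exact h

theorem wk_zpow (v y : U) (k : ℤ) : Wk D v 0 0 k.natAbs y ((D.f ^ k) y) := by
  rcases Int.natAbs_eq k with h | h
  · have h1 := wk_pow (D := D) v k.natAbs y
    have h2 : D.f ^ k = D.f ^ k.natAbs := by
      conv_lhs => rw [h]
      rw [zpow_natCast]
    rw [h2]
    exact h1
  · have h1 := wk_symm_pow (D := D) v k.natAbs y
    have h2 : D.f ^ k = D.f⁻¹ ^ k.natAbs := by
      conv_lhs => rw [h]
      rw [zpow_neg, zpow_natCast, inv_pow]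
    rw [h2]
    exact h1

/-- From a vertex to the start of its block. -/
theorem wk_st (hB : Blocks D.f L st pos) (v y : U) : ∃ l ≤ 3 * L, Wk D v 0 0 l y (st y) := by
  refine ⟨pos y, (hB.pos_lt y).le, ?_⟩
  have h1 := wk_symm_pow (D := D) v (pos y) y
  have h2 : (D.f⁻¹ ^ pos y) y = st y := by
    have h3 := hB.eq_pow y
    conv_lhs => rw [← h3]
    rw [← Equiv.Perm.mul_apply, ← hB.eq_pow y]
    simp [hB.eq_pow]
  rw [h2] at h1
  exact h1

/-- From the start of a block to a vertex of the block. -/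
theorem wk_of_st (hB : Blocks D.f L st pos) (v y : U) : ∃ l ≤ 3 * L, Wk D v 0 0 l (st y) y := by
  refine ⟨pos y, (hB.pos_lt y).le, ?_⟩
  have h1 := wk_pow (D := D) v (pos y) (st y)
  rw [hB.eq_pow] at h1
  exact h1

theorem wk_in3 (hB : Blocks D.f L st pos) (v : U) {x y a : U} (h : In3 D.f st x a)
    (h' : In3 D.f st y a) : ∃ l ≤ 9 * L, Wk D v 0 0 l x y := by
  obtain ⟨k, hk, hkx⟩ := In3.near hB h h'
  refine ⟨k.natAbs, ?_, ?_⟩
  · rw [abs_le] at hk
    omega
  · have h1 := wk_zpow (D := D) v x k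
    rw [hkx] at h1
    exact h1

theorem wk_in4 (hB : Blocks D.f L st pos) (v : U) {x y a : U} (h : In4 D st x a)
    (h' : In4 D st y a) : ∃ l ≤ 15 * L + 2, Wk D v 0 0 l x y := by
  rcases h with h | ⟨hx, h⟩
  · rcases h' with h' | ⟨hy, h'⟩
    · obtain ⟨l, hl, hw⟩ := wk_in3 hB v h h'
      exact ⟨l, by omega, hw⟩
    · obtain ⟨l, hl, hw⟩ := wk_in3 hB v h h'
      obtain ⟨l', hl', hw'⟩ := wk_of_st hB v y
      exact ⟨l + (l' + 1), by omega, (hw.trans (Wk.imp' hy hw')).cast' rfl rfl rfl⟩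
  · obtain ⟨l0, hl0, hw0⟩ := wk_st hB v x
    rcases h' with h' | ⟨hy, h'⟩
    · obtain ⟨l, hl, hw⟩ := wk_in3 hB v h h'
      exact ⟨l0 + (l + 1), by omega, (hw0.trans (Wk.imp hx hw)).cast' rfl rfl rfl⟩
    · obtain ⟨l, hl, hw⟩ := wk_in3 hB v h h'
      obtain ⟨l', hl', hw'⟩ := wk_of_st hB v y
      have h1 := hw.trans (Wk.imp' hy hw')
      exact ⟨l0 + (l + (l' + 1) + 1), by omega, (hw0.trans (Wk.imp hx h1)).cast' rfl rfl rfl⟩

end Pool.Agent.HC
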