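import Mathlib
import Pool.Agent.HC.Walk
import Pool.Agent.HC.HOne
import Pool.Agent.HC.Chain

/-!
# Few bad vertices on a segment; the separation properties
-/

namespace Pool.Agent.HC

open Pool.Agent.H32.Hom

variable {V : Type} {G : SimpleGraph V} {f : Equiv.Perm V} {mt : V → V} {L : ℕ}
  {D : Dat (UU f mt (100 * L))}

/-- On the cycle formed by a path and an edge joining its ends, every vertex has two neighbours
along the cycle. -/
theorem cyc_nbrs {x y z : V} (p : G.Walk x y) (hp : p.IsPath) (hadj : G.Adj y x)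
    (he : s(y, x) ∉ p.edges) (hz : z ∈ p.support) :
    ∃ a b, a ≠ b ∧ a ∈ p.support ∧ b ∈ p.support ∧ G.Adj z a ∧ G.Adj z b ∧
      (s(z, a) ∈ p.edges ∨ s(z, a) = s(y, x)) ∧ (s(z, b) ∈ p.edges ∨ s(z, b) = s(y, x)) := by
  have hc : (SimpleGraph.Walk.cons hadj p).IsCycle := by
    rw [SimpleGraph.Walk.cons_isCycle_iff]
    exact ⟨hp, he⟩
  have hz' : z ∈ (SimpleGraph.Walk.cons hadj p).support := by
    rw [SimpleGraph.Walk.support_cons]
    exact List.mem_cons_of_mem _ hz
  have h2 := hc.ncard_neighborSet_toSubgraph_eq_two hz'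
  obtain ⟨a, b, hab, hs⟩ := Set.ncard_eq_two.mp h2
  have key : ∀ c, c ∈ (SimpleGraph.Walk.cons hadj p).toSubgraph.neighborSet z →
      c ∈ p.support ∧ G.Adj z c ∧ (s(z, c) ∈ p.edges ∨ s(z, c) = s(y, x)) := by
    intro c hcN
    have h3 : (SimpleGraph.Walk.cons hadj p).toSubgraph.Adj z c := hcN
    have h4 : s(z, c) ∈ (SimpleGraph.Walk.cons hadj p).edges := by
      rw [← SimpleGraph.Walk.mem_edges_toSubgraph]
      exact h3
    have h5 : c ∈ (SimpleGraph.Walk.cons hadj p).support :=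
      SimpleGraph.Walk.snd_mem_support_of_mem_edges _ h4
    refine ⟨?_, h3.adj_sub, ?_⟩
    · rw [SimpleGraph.Walk.support_cons, List.mem_cons] at h5
      rcases h5 with rfl | h5
      · exact p.end_mem_support
      · exact h5
    · rw [SimpleGraph.Walk.edges_cons, List.mem_cons] at h4
      exact h4.symm
  have ha : a ∈ (SimpleGraph.Walk.cons hadj p).toSubgraph.neighborSet z := by rw [hs]; simp
  have hb : b ∈ (SimpleGraph.Walk.cons hadj p).toSubgraph.neighborSet z := by rw [hs]; simp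
  obtain ⟨a1, a2, a3⟩ := key a ha
  obtain ⟨b1, b2, b3⟩ := key b hb
  exact ⟨a, b, hab, a1, b1, a2, b2, a3, b3⟩

section

variable [Finite V]

/-- Different positions of a short segment are different vertices. -/
theorem link_inj (hd : Desc G f mt) (hL : 0 < L) (hs : Sparse G (2000 * L))
    (hl : Link f mt (100 * L) D) (v : UU f mt (100 * L)) (a b : ℤ) (hab : |a - b| ≤ 60 * (L : ℤ))
    (h : (D.f ^ a) v = (D.f ^ b) v) : a = b := by
  by_contra hne
  refine link_w0 hd hL hs hl ((D.f ^ b) v) (a - b) (sub_ne_zero.mpr hne) hab ?_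
  rw [← Equiv.Perm.mul_apply, ← zpow_add, sub_add_cancel, h]

theorem link_inj_nat (hd : Desc G f mt) (hL : 0 < L) (hs : Sparse G (2000 * L))
    (hl : Link f mt (100 * L) D) (v : UU f mt (100 * L)) (a b : ℕ) (ha : a < 3 * L)
    (hb : b < 3 * L) (h : (D.f ^ a) v = (D.f ^ b) v) : a = b := by
  have h1 := link_inj hd hL hs hl v a b (by rw [abs_le]; constructor <;> omega)
    (by rw [zpow_natCast, zpow_natCast]; exact h)
  exact_mod_cast h1

/-- The positions of attached vertices on a line. -/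
theorem link_x3_pos (hd : Desc G f mt) (hL : 0 < L) (hs : Sparse G (2000 * L))
    (hl : Link f mt (100 * L) D) (v : UU f mt (100 * L)) (a b : ℤ) (hab : |a - b| ≤ 60 * (L : ℤ))
    {y y' : UU f mt (100 * L)} (h : D.X ((D.f ^ a) v) y) (h' : D.X ((D.f ^ b) v) y') :
    a = b := by
  refine link_inj hd hL hs hl v a b hab ?_
  have h1 := link_x3 hd hL hs hl _ _ _ _ h' h (a - b) hab (by
    rw [← Equiv.Perm.mul_apply, ← zpow_add, sub_add_cancel])
  exact h1.symm

/-- The fourth kind of bad vertices. -/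
def Near (D : Dat (UU f mt (100 * L))) (x : UU f mt (100 * L)) : Prop :=
  D.mt x ≠ x ∧ ∃ m ≤ 2, ∃ e ≤ 1, ∃ l ≤ 60 * L, Wk D x m e l (D.mt x) x

omit [Finite V] in
theorem Near.notMem (hd : Desc G f mt) (hl : Link f mt (100 * L) D) {x : UU f mt (100 * L)}
    (h : Near D x) : mt x ∉ Del f mt (100 * L) := by
  intro h1
  exact h.1 ((link_mt_iff hd hl x).mpr h1)

theorem Near.path (hd : Desc G f mt) (hL : 0 < L) (hs : Sparse G (2000 * L))
    (hl : Link f mt (100 * L) D) {x : UU f mt (100 * L)} (h : Near D x) :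
    ∃ p : G.Walk (mt x) (x : V), p.IsPath ∧ p.length ≤ 285 * L ∧ s((x : V), mt x) ∉ p.edges ∧
      mc f mt (100 * L) p ≤ 2 := by
  have hm := h.notMem hd hl
  obtain ⟨_, m, hm2, e, he1, l, hl60, hw⟩ := h
  obtain ⟨p, hp1, hp2, hp3, hp4⟩ := path_of_wk hd hs (by omega) hl x hm hw
  have h1 : ((D.mt x : UU f mt (100 * L)) : V) = mt x := hl.m1 x hm
  have h2 : e * (100 * L + 3) ≤ 1 * (100 * L + 3) := Nat.mul_le_mul_right _ he1
  refine ⟨p.copy h1 rfl, ?_, ?_, ?_, ?_⟩
  · rw [SimpleGraph.Walk.isPath_copy]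
    exact hp1
  · rw [SimpleGraph.Walk.length_copy]
    omega
  · rw [SimpleGraph.Walk.edges_copy]
    exact hp3
  · unfold mc at hp4 ⊢
    rw [SimpleGraph.Walk.edges_copy]
    exact hp4.trans hm2

theorem near_card (hd : Desc G f mt) (hL : 0 < L) (hs : Sparse G (2000 * L))
    (hl : Link f mt (100 * L) D) (v : UU f mt (100 * L)) :
    ∃ T : Finset ℕ, (∀ t < 3 * L, Near D ((D.f ^ t) v) → t ∈ T) ∧ T.card ≤ 6 := by
  classical
  by_cases hex : ∃ t0 < 3 * L, Near D ((D.f ^ t0) v)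
  swap
  · refine ⟨∅, ?_, by simp⟩
    intro t ht h
    exact absurd ⟨t, ht, h⟩ hex
  obtain ⟨t0, ht0, hn0⟩ := hex
  obtain ⟨x0, hx0⟩ : ∃ x0, x0 = (D.f ^ t0) v := ⟨_, rfl⟩
  rw [← hx0] at hn0
  obtain ⟨p0, hp1, hp2, hp3, hp4⟩ := hn0.path hd hL hs hl
  have hm0 := hn0.notMem hd hl
  have hadj0 : ∀ y : V, G.Adj y (mt y) := fun y => (hd.nbr y (mt y)).mpr (Or.inr (Or.inr rfl))
  have hS0 : Two G {z | z ∈ p0.support} :=
    two_of_path p0 hp1 (hadj0 _).symm (by rw [Sym2.eq_swap]; exact hp3)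
  have hN0 : {z | z ∈ p0.support}.ncard ≤ 285 * L + 1 :=
    (ncard_support_le p0).trans (by omega)
  -- the supports are equal
  have heq : ∀ t < 3 * L, Near D ((D.f ^ t) v) →
      ((D.f ^ t) v : V) ∈ p0.support ∧ mt ((D.f ^ t) v : V) ∈ p0.support := by
    intro t ht hn
    obtain ⟨x, hx⟩ : ∃ x, x = (D.f ^ t) v := ⟨_, rfl⟩
    rw [← hx] at hn ⊢
    obtain ⟨p, hq1, hq2, hq3, hq4⟩ := hn.path hd hL hs hl
    have hm := hn.notMem hd hl
    have hS : Two G {z | z ∈ p.support} :=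
      two_of_path p hq1 (hadj0 _).symm (by rw [Sym2.eq_swap]; exact hq3)
    have hN : {z | z ∈ p.support}.ncard ≤ 285 * L + 1 :=
      (ncard_support_le p).trans (by omega)
    have hwk := wk_zpow (D := D) x x ((t0 : ℤ) - t)
    have hx0' : (D.f ^ ((t0 : ℤ) - t)) x = x0 := by
      rw [hx, hx0, ← zpow_natCast D.f t, ← Equiv.Perm.mul_apply, ← zpow_add, sub_add_cancel,
        zpow_natCast]
    rw [hx0'] at hwk
    obtain ⟨q, hq, -, -⟩ := walk_of_wk hd hs (by omega) hl x hm hwk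
    have hqlen : q.length ≤ 9 * L := by
      have : ((t0 : ℤ) - t).natAbs ≤ 3 * L := by omega
      omega
    have h1 := two_eq hs hS hS0 (inConn_support p) (inConn_support p0)
      (x := (x : V)) (y := (x0 : V)) p.end_mem_support p0.end_mem_support q (by omega)
    have h2 : (x : V) ∈ {z | z ∈ p.support} := p.end_mem_support
    have h3 : mt (x : V) ∈ {z | z ∈ p.support} := p.start_mem_support
    rw [h1] at h2 h3
    exact ⟨h2, h3⟩
  -- the matching edges
  let E0 : Finset (Sym2 V) := insert (s((x0 : V), mt x0)) (p0.edges.filter (fun e =>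
    decide (∃ z, e = s(z, mt z) ∧ z ∉ Del f mt (100 * L) ∧
      mt z ∉ Del f mt (100 * L)))).toFinset
  have hE0 : E0.card ≤ 3 := by
    refine (Finset.card_insert_le _ _).trans ?_
    have h1 := List.toFinset_card_le (p0.edges.filter (fun e =>
      decide (∃ z, e = s(z, mt z) ∧ z ∉ Del f mt (100 * L) ∧ mt z ∉ Del f mt (100 * L))))
    rw [← List.countP_eq_length_filter] at h1
    have h2 : p0.edges.countP (fun e =>
      decide (∃ z, e = s(z, mt z) ∧ z ∉ Del f mt (100 * L) ∧ mt z ∉ Del f mt (100 * L))) ≤ 2 := by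
      unfold mc at hp4
      exact hp4
    omega
  have hmemE : ∀ t < 3 * L, Near D ((D.f ^ t) v) →
      s(((D.f ^ t) v : V), mt ((D.f ^ t) v : V)) ∈ E0 := by
    intro t ht hn
    obtain ⟨h1, h2⟩ := heq t ht hn
    have hm := hn.notMem hd hl
    obtain ⟨x, hx⟩ : ∃ x, x = (D.f ^ t) v := ⟨_, rfl⟩
    rw [← hx] at hn h1 h2 hm ⊢
    obtain ⟨a, b, hab, ha, hb, haA, hbA, ha', hb'⟩ :=
      cyc_nbrs p0 hp1 (hadj0 x0) hp3 h1
    have h3 : mt (x : V) = a ∨ mt (x : V) = b := by
      by_contra hcon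
      push Not at hcon
      exact no_three hs hS0 (by omega) (v := (x : V)) (a := a) (b := b) (c := mt x) h1 ha hb h2 hab
        (fun h => hcon.1 h.symm) (fun h => hcon.2 h.symm) haA hbA (hadj0 _)
    have h4 : s((x : V), mt (x : V)) ∈ p0.edges ∨ s((x : V), mt (x : V)) = s((x0 : V), mt x0) := by
      rcases h3 with h3 | h3
      · rw [h3]; exact ha'
      · rw [h3]; exact hb'
    rcases h4 with h4 | h4
    · refine Finset.mem_insert_of_mem (List.mem_toFinset.mpr (List.mem_filter.mpr ⟨h4, ?_⟩))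
      exact decide_eq_true ⟨(x : V), rfl, x.2, hm⟩
    · rw [h4]
      exact Finset.mem_insert_self _ _
  refine ⟨(Finset.range (3 * L)).filter (fun t => Near D ((D.f ^ t) v)), ?_, ?_⟩
  · intro t ht hn
    exact Finset.mem_filter.mpr ⟨Finset.mem_range.mpr ht, hn⟩
  · have h1 : ((Finset.range (3 * L)).filter (fun t => Near D ((D.f ^ t) v))).card ≤
        (E0.biUnion (fun e => e.toFinset)).card := by
      refine Finset.card_le_card_of_injOn (fun t => ((D.f ^ t) v : V)) ?_ ?_
      · intro t ht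
        have ht' := Finset.mem_filter.mp (Finset.mem_coe.mp ht)
        refine Finset.mem_coe.mpr (Finset.mem_biUnion.mpr ⟨_,
          hmemE t (Finset.mem_range.mp ht'.1) ht'.2, ?_⟩)
        rw [Sym2.mem_toFinset]
        exact Sym2.mem_mk_left _ _
      · intro t ht t' ht' h
        have h2 := Finset.mem_filter.mp (Finset.mem_coe.mp ht)
        have h3 := Finset.mem_filter.mp (Finset.mem_coe.mp ht')
        exact link_inj_nat hd hL hs hl v t t' (Finset.mem_range.mp h2.1)
          (Finset.mem_range.mp h3.1) (Subtype.ext h)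
    have h2 : (E0.biUnion (fun e => e.toFinset)).card ≤ E0.card * 2 := by
      refine Finset.card_biUnion_le_card_mul _ _ 2 ?_
      intro e _
      rw [Sym2.card_toFinset]
      split_ifs <;> omega
    omega

theorem link_bc (hd : Desc G f mt) (hL : 0 < L) (hs : Sparse G (2000 * L))
    (hl : Link f mt (100 * L) D) (v : UU f mt (100 * L)) :
    ∃ T : Finset ℕ, (∀ t < 3 * L, Bad D L ((D.f ^ t) v) → t ∈ T) ∧ T.card ≤ 21 := by
  classical
  -- attached vertices
  have hT1 : ∃ T : Finset ℕ, (∀ t < 3 * L, (∃ y, D.X ((D.f ^ t) v) y) → t ∈ T) ∧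
      T.card ≤ 1 := by
    by_cases hex : ∃ t0 < 3 * L, ∃ y, D.X ((D.f ^ t0) v) y
    · obtain ⟨t0, ht0, y0, hy0⟩ := hex
      refine ⟨{t0}, ?_, by simp⟩
      rintro t ht ⟨y, hy⟩
      rw [Finset.mem_singleton]
      rw [← zpow_natCast] at hy hy0
      have := link_x3_pos hd hL hs hl v (t : ℤ) (t0 : ℤ) (by rw [abs_le]; constructor <;> omega)
        hy hy0
      exact_mod_cast this
    · refine ⟨∅, ?_, by simp⟩
      intro t ht h
      exact absurd ⟨t, ht, h⟩ hex
  -- the neighbourhood of special vertices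
  have hT2 : ∃ T : Finset ℕ, (∀ t < 3 * L, (∃ p ∈ D.Sp, ∃ j ≤ 3, (D.f ^ j) p = (D.f ^ t) v) →
      t ∈ T) ∧ T.card ≤ 4 := by
    have hback : ∀ (t j : ℕ) (p : UU f mt (100 * L)), (D.f ^ j) p = (D.f ^ t) v →
        p = (D.f ^ ((t : ℤ) - j)) v := by
      intro t j p h
      rw [← zpow_natCast, ← zpow_natCast] at h
      have h1 : (D.f ^ (-(j : ℤ))) ((D.f ^ (j : ℤ)) p) = p := by
        rw [← Equiv.Perm.mul_apply, ← zpow_add]; simp
      rw [← h1, h, ← Equiv.Perm.mul_apply, ← zpow_add]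
      congr 2
      ring
    by_cases hex : ∃ t0 < 3 * L, ∃ p ∈ D.Sp, ∃ j ≤ 3, (D.f ^ j) p = (D.f ^ t0) v
    · obtain ⟨t0, ht0, p0, hp0, j0, hj0, h0⟩ := hex
      refine ⟨(Finset.range 4).image (fun j : ℕ => ((t0 : ℤ) - j0 + (j : ℤ)).toNat), ?_, ?_⟩
      · rintro t ht ⟨p, hp, j, hj, h⟩
        have e0 := hback t0 j0 p0 h0
        have e1 := hback t j p h
        have x0 := link_s2 hd hs (by omega) hl p0 hp0
        have x1 := link_s2 hd hs (by omega) hl p hp
        rw [e0] at x0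
        rw [e1] at x1
        have h2 := link_x3_pos hd hL hs hl v ((t : ℤ) - j) ((t0 : ℤ) - j0)
          (by rw [abs_le]; constructor <;> omega) x1 x0
        refine Finset.mem_image.mpr ⟨j, Finset.mem_range.mpr (by omega), ?_⟩
        rw [← h2]
        simp
      · exact Finset.card_image_le.trans (by simp)
    · refine ⟨∅, ?_, by simp⟩
      intro t ht h
      exact absurd ⟨t, ht, h⟩ hex
  obtain ⟨T1, h1, c1⟩ := hT1
  obtain ⟨T2, h2, c2⟩ := hT2
  obtain ⟨T3, h3, c3⟩ := near_card hd hL hs hl v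
  refine ⟨T1 ∪ T2 ∪ T3, ?_, ?_⟩
  · intro t ht hb
    by_cases hm : D.mt ((D.f ^ t) v) = (D.f ^ t) v
    · obtain ⟨y, hy⟩ := link_e_x hd hs (by omega) hl _ hm
      exact Finset.mem_union_left _ (Finset.mem_union_left _ (h1 t ht ⟨y, hy⟩))
    · rcases hb with hb | hb | hb | hb
      · exact Finset.mem_union_left _ (Finset.mem_union_left _ (h1 t ht hb))
      · exact absurd hb hm
      · exact Finset.mem_union_left _ (Finset.mem_union_right _ (h2 t ht hb))
      · exact Finset.mem_union_right _ (h3 t ht ⟨hm, hb⟩)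
  · have := Finset.card_union_le (T1 ∪ T2) T3
    have := Finset.card_union_le T1 T2
    omega

theorem sep_of_link (hd : Desc G f mt) (hL : 0 < L) (hs : Sparse G (2000 * L))
    (hl : Link f mt (100 * L) D) : Sep D L where
  invol := link_invol hd hl
  w0 := fun v a ha haL => link_w0 hd hL hs hl v a ha haL
  h1 := fun v hv l hlL => link_h1 hd hL hs hl v hv l hlL
  xs := link_xs hl
  xi := link_xi hl
  x3 := fun x y x' y' h h' a ha hx => link_x3 hd hL hs hl x y x' y' h h' a ha hx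
  x4 := by
    intro x
    obtain ⟨T, h1, h2⟩ := link_x4 hd hs (by omega) hl x
    exact ⟨T, h1, by omega⟩
  s1 := link_s1 hd hs (by omega) hl
  s2 := link_s2 hd hs (by omega) hl
  s3 := link_s3 hd hs (by omega) hl
  s4 := link_s4 hd hs (by omega) hl
  s6 := link_s6 hd hl
  bc := link_bc hd hL hs hl

end

end Pool.Agent.HC
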