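import Mathlib
import Pool.Agent.H32.Hom.BlockEx
import Pool.Agent.HC.Defs

/-!
# Existence of blocks with prescribed starts
-/

namespace Pool.Agent.HC

open Pool.Agent.H32.Hom

variable {U : Type}

/-- Blocks which start at all points of a gapped set. -/
theorem exists_blocks_of [Finite U] (f : Equiv.Perm U) (L : ℕ) (hL : Odd L)
    (hcyc : ∀ (v : U) (k : ℕ), 0 < k → k < 3 * L → (f ^ k) v ≠ v) (S0 : Set U)
    (hS0 : Gapped f L S0) :
    ∃ (st : U → U) (pos : U → ℕ), Blocks f L st pos ∧ ∀ v ∈ S0, st v = v := by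
  classical
  have hL0 : 0 < L := hL.pos
  have hfin : Finite (Set U) := inferInstance
  obtain ⟨S, hS, hS0S, hmax'⟩ : ∃ S : Set U, Gapped f L S ∧ S0 ⊆ S ∧
      ∀ S', Gapped f L S' → S0 ⊆ S' → S'.ncard ≤ S.ncard := by
    have hfinset : {S : Set U | Gapped f L S ∧ S0 ⊆ S}.Finite := Set.toFinite _
    have hne : {S : Set U | Gapped f L S ∧ S0 ⊆ S}.Nonempty := ⟨S0, hS0, subset_rfl⟩
    obtain ⟨S, hS, hmax⟩ := Set.exists_max_image _ Set.ncard hfinset hne
    exact ⟨S, hS.1, hS.2, fun S' hS' hS0' => hmax S' ⟨hS', hS0'⟩⟩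
  have hmax : ∀ S', Gapped f L S' → S ⊆ S' → S'.ncard ≤ S.ncard :=
    fun S' hS' hSS' => hmax' S' hS' (hS0S.trans hSS')
  have hhit : ∀ v, ∃ k : ℕ, (f.symm ^ k) v ∈ S := by
    intro v
    by_contra hcon
    have hcon' : ∀ k : ℕ, (f.symm ^ k) v ∉ S := fun k hk => hcon ⟨k, hk⟩
    obtain ⟨S', h1, h2, h3⟩ := gapped_extend hL hcyc hS v hcon'
    have h4 := hmax S' h3 h1
    have h5 : S ⊂ S' := ⟨h1, fun h => hcon' 0 (h h2)⟩
    have h6 := Set.ncard_lt_ncard h5 (Set.toFinite S')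
    omega
  have hgap : ∀ v ∈ S, ∃ k : ℕ, Odd k ∧ L ≤ k ∧ k < 3 * L ∧ (f ^ k) v ∈ S ∧
      ∀ j : ℕ, 0 < j → j < k → (f ^ j) v ∉ S := by
    intro v hv
    obtain ⟨k, h1, h2, h3, h4⟩ := hS v hv
    refine ⟨k, h1, h2, ?_, h3, h4⟩
    by_contra hcon
    obtain ⟨S', g1, g2, g3, g4⟩ := gapped_refine hL hcyc hS v hv k h1 (by omega) h3 h4
    have h4 := hmax S' g4 g1
    have h5 : S ⊂ S' := ⟨g1, fun h => g3 (h g2)⟩
    have h6 := Set.ncard_lt_ncard h5 (Set.toFinite S')
    omega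
  let pos : U → ℕ := fun v => Nat.find (hhit v)
  let st : U → U := fun v => (f.symm ^ (pos v)) v
  have hstS : ∀ v, st v ∈ S := fun v => Nat.find_spec (hhit v)
  have hminp : ∀ v j, j < pos v → (f.symm ^ j) v ∉ S := fun v j hj => Nat.find_min (hhit v) hj
  have hpos0 : ∀ v ∈ S, pos v = 0 := by
    intro v hv
    rw [Nat.find_eq_zero (hhit v)]
    exact hv
  have hst0 : ∀ v ∈ S, st v = v := by
    intro v hv
    show (f.symm ^ (pos v)) v = v
    rw [hpos0 v hv]; rfl
  have heq : ∀ v, (f ^ (pos v)) (st v) = v := fun v => symm_pow_apply f (pos v) v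
  have hlt : ∀ v k, (f ^ k) (st v) ∈ S → 0 < k → pos v < k := by
    intro v k hk hk0
    by_contra hcon
    have h1 : (f ^ (pos v - k)) ((f ^ k) (st v)) = v := by
      rw [← Equiv.Perm.mul_apply, ← pow_add, show pos v - k + k = pos v by omega, heq]
    have h2 := eq_symm_pow h1
    exact hminp v (pos v - k) (by omega) (h2 ▸ hk)
  refine ⟨st, pos, ⟨fun v => hst0 _ (hstS v), fun v => hpos0 _ (hstS v), heq, ?_, ?_⟩,
    fun v hv => hst0 v (hS0S hv)⟩
  · intro v
    obtain ⟨k, h1, h2, h3, h4, h5⟩ := hgap _ (hstS v)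
    have := hlt v k h4 (by omega)
    omega
  · intro v
    obtain ⟨k, h1, h2, h3, h4, h5⟩ := hgap _ (hstS v)
    have hpk := hlt v k h4 (by omega)
    have hfv : f v = (f ^ (pos v + 1)) (st v) := by
      rw [pow_succ', Equiv.Perm.mul_apply, heq]
    rcases Nat.lt_or_ge (pos v + 1) k with hlt' | hge
    · left
      have hfS : f v ∉ S := by rw [hfv]; exact h5 _ (by omega) hlt'
      have hp : pos (f v) = pos v + 1 := by
        have hge0 : ∀ j, j < pos v + 1 → (f.symm ^ j) (f v) ∉ S := by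
          intro j hj
          rcases j with _ | j
          · exact hfS
          · rw [pow_succ, Equiv.Perm.mul_apply, Equiv.symm_apply_apply]
            exact hminp v j (by omega)
        have hmem : (f.symm ^ (pos v + 1)) (f v) ∈ S := by
          rw [pow_succ, Equiv.Perm.mul_apply, Equiv.symm_apply_apply]
          exact hstS v
        exact (Nat.find_eq_iff (hhit (f v))).mpr ⟨hmem, fun j hj => hge0 j hj⟩
      refine ⟨?_, hp⟩
      show (f.symm ^ (pos (f v))) (f v) = st v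
      rw [hp, pow_succ, Equiv.Perm.mul_apply, Equiv.symm_apply_apply]
    · right
      have hk' : pos v + 1 = k := by omega
      have hfS : f v ∈ S := by rw [hfv, hk']; exact h4
      exact ⟨hst0 _ hfS, hpos0 _ hfS, hk' ▸ h1, hk' ▸ h2⟩

/-- Blocks which start at all points of `Sp`, if these are far from each other. -/
theorem exists_blocks_sp [Finite U] (f : Equiv.Perm U) (L : ℕ) (hL : Odd L)
    (hcyc : ∀ (v : U) (k : ℕ), 0 < k → k < 3 * L → (f ^ k) v ≠ v) (Sp : Set U)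
    (hSp : ∀ p ∈ Sp, ∀ k : ℕ, 0 < k → k < 3 * L → (f ^ k) p ∉ Sp) :
    ∃ (st : U → U) (pos : U → ℕ), Blocks f L st pos ∧ ∀ p ∈ Sp, st p = p := by
  classical
  have hL0 : 0 < L := hL.pos
  have hex : ∀ p ∈ Sp, ∃ k : ℕ, 0 < k ∧ 3 * L ≤ k ∧ (f ^ k) p ∈ Sp ∧
      ∀ j : ℕ, 0 < j → j < k → (f ^ j) p ∉ Sp := by
    intro p hp
    have h1 : ∃ k : ℕ, 0 < k ∧ (f ^ k) p ∈ Sp := by
      refine ⟨orderOf f, orderOf_pos f, ?_⟩
      rw [pow_orderOf_eq_one]
      exact hp
    obtain ⟨h2, h3⟩ := Nat.find_spec h1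
    refine ⟨Nat.find h1, h2, ?_, h3, fun j hj0 hj hjS => Nat.find_min h1 hj ⟨hj0, hjS⟩⟩
    by_contra h4
    exact hSp p hp _ h2 (by omega) h3
  choose! g g1 g2 g3 g4 using hex
  have hback : ∀ p ∈ Sp, ∀ q ∈ Sp, ∀ j : ℕ, j < L → (f ^ j) p ≠ (f ^ L) q := by
    intro p hp q hq j hj h
    have h1 := pow_sub_eq h hj.le
    exact hSp q hq (L - j) (by omega) (by omega) (h1 ▸ hp)
  obtain ⟨st, pos, hB, hst⟩ := exists_blocks_of f L hL hcyc
    (Sp ∪ {v | ∃ p ∈ Sp, Even (g p) ∧ v = (f ^ L) p}) (by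
    rintro v (hp | ⟨p, hp, hev, rfl⟩)
    · by_cases hev : Even (g v)
      · refine ⟨L, hL, le_rfl, Or.inr ⟨v, hp, hev, rfl⟩, ?_⟩
        rintro j hj0 hjL (h | ⟨q, hq, hqe, h⟩)
        · exact hSp v hp j hj0 (by omega) h
        · exact hback v hp q hq j hjL h
      · refine ⟨g v, Nat.not_even_iff_odd.1 hev, by have := g2 v hp; omega, Or.inl (g3 v hp), ?_⟩
        rintro j hj0 hjk (h | ⟨q, hq, hqe, h⟩)
        · exact g4 v hp j hj0 hjk h
        · rcases Nat.lt_or_ge j L with hjL | hjL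
          · exact hback v hp q hq j hjL h
          · have h1 := pow_sub_eq h.symm hjL
            rcases Nat.eq_zero_or_pos (j - L) with h0 | h0
            · rw [h0] at h1
              have h2 : q = v := by simpa using h1
              exact hev (h2 ▸ hqe)
            · exact g4 v hp (j - L) h0 (by omega) (h1 ▸ hq)
    · have hg2 := g2 p hp
      refine ⟨g p - L, Nat.Even.sub_odd (by omega) hev hL, by omega, Or.inl ?_, ?_⟩
      · rw [← Equiv.Perm.mul_apply, ← pow_add, show g p - L + L = g p by omega]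
        exact g3 p hp
      · intro j hj0 hjk h
        rw [← Equiv.Perm.mul_apply, ← pow_add] at h
        rcases h with h | ⟨q, hq, hqe, h⟩
        · exact g4 p hp (j + L) (by omega) (by omega) h
        · have h1 := pow_sub_eq h.symm (by omega)
          rw [Nat.add_sub_cancel] at h1
          exact g4 p hp j hj0 (by omega) (h1 ▸ hq))
  exact ⟨st, pos, hB, fun p hp => hst p (Or.inl hp)⟩

end Pool.Agent.HC
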