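import Mathlib
import Pool.Agent.HC.Walk

/-!
# Facts about the blocks, from the separation properties
-/

namespace Pool.Agent.HC

open Pool.Agent.H32.Hom

variable {U : Type} {D : Dat U} {st : U → U} {pos : U → ℕ} {L : ℕ}

theorem in3_of_st_eq {f : Equiv.Perm U} {x y b : U} (h : st x = st y) (hb : In3 f st x b) :
    In3 f st y b := by
  unfold In3 bk at hb ⊢
  rw [h] at hb
  exact hb

theorem in4_of_st_eq {x y b : U} (h : st x = st y) (hb : In4 D st x b) : In4 D st y b := by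
  rcases hb with hb | ⟨h1, hb⟩
  · exact Or.inl (in3_of_st_eq h hb)
  · rw [h] at h1 hb
    exact Or.inr ⟨h1, hb⟩

theorem sg4_in4 (D : Dat U) (st : U → U) (pos : U → ℕ) (w : ℕ) (p : U → ℕ) (v : U) :
    In4 D st v (sg4 D st pos w p v) := by
  unfold sg4
  split_ifs with h
  · exact Or.inr ⟨h.1, sg_in3 D.f st pos w p (D.u (st v))⟩
  · exact Or.inl (sg_in3 D.f st pos w p v)

theorem st_ne_bk4 (hB : Blocks D.f L st pos) (hS : Sep D L) (x : U) : st x ≠ bk D.f st x := by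
  intro h
  obtain ⟨k, hk0, hk, hk'⟩ := bk_pow hB x
  rw [← h] at hk'
  refine hS.w0 (st x) k (by omega) ?_ (by simpa using hk')
  rw [abs_of_nonneg (by omega)]; omega

theorem bk_ne_bk4 (hB : Blocks D.f L st pos) (hS : Sep D L) (x : U) :
    bk D.f st x ≠ bk D.f st (bk D.f st x) := by
  have h := st_ne_bk4 hB hS (bk D.f st x)
  rwa [bk_st hB] at h

theorem st_ne_bkbk4 (hB : Blocks D.f L st pos) (hS : Sep D L) (x : U) :
    st x ≠ bk D.f st (bk D.f st x) := by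
  intro h
  obtain ⟨k, hk0, hk, hk'⟩ := bk_pow hB x
  obtain ⟨l, hl0, hl, hl'⟩ := bk_pow hB (bk D.f st x)
  rw [← h, bk_st hB] at hl'
  have h2 : (D.f ^ (k + l)) (st x) = st x := by
    rw [pow_add, Equiv.Perm.mul_apply, hl', hk']
  refine hS.w0 (st x) ((k + l : ℕ) : ℤ) (by omega) ?_ ?_
  · rw [abs_of_nonneg (by omega)]; omega
  · rw [zpow_natCast]; exact h2

/-- The blocks of attached vertices of the same deleted cycle are different. -/
theorem in3_x_ne (hB : Blocks D.f L st pos) (hS : Sep D L) {x y a b : U} (hX : D.X x y)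
    (ha : In3 D.f st x a) (hb : In3 D.f st y b) : a ≠ b := by
  rintro rfl
  obtain ⟨k, hk, hk'⟩ := In3.near hB ha hb
  exact hS.xi x y hX (hS.x3 x y y x hX (hS.xs x y hX) k (by omega) hk')

/-- In a special block, the own blocks and those of the imported vertex are different. -/
theorem in3_u_ne (hB : Blocks D.f L st pos) (hS : Sep D L) {x a b : U} (hx : st x ∈ D.Sp)
    (ha : In3 D.f st x a) (hb : In3 D.f st (D.u (st x)) b) : a ≠ b :=
  in3_x_ne hB hS (hS.s2 (st x) hx) (in3_of_st_eq (hB.st_st x).symm ha) hb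

/-- The block of an imported vertex is not special. -/
theorem st_u_notMem (hB : Blocks D.f L st pos) (hS : Sep D L) {p : U} (hp : p ∈ D.Sp) :
    st (D.u p) ∉ D.Sp := by
  intro hp'
  have h1 := hB.eq_pow (D.u p)
  have h2 := hB.pos_lt (D.u p)
  have h3 : st (D.u p) = D.u p :=
    hS.x3 (st (D.u p)) (D.u (st (D.u p))) (D.u p) p (hS.s2 _ hp') (hS.xs _ _ (hS.s2 p hp))
      (pos (D.u p)) (by rw [abs_of_nonneg (by omega)]; omega)
      (by rw [zpow_natCast]; exact h1)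
  have h4 := hS.s3 _ hp'
  rw [h3] at h4
  exact h4 (hS.s1 p hp)

/-- An attached vertex in a special block is its start. -/
theorem st_eq_of_x (hB : Blocks D.f L st pos) (hS : Sep D L) {x y : U} (hX : D.X x y)
    (hx : st x ∈ D.Sp) : st x = x := by
  have h1 := hB.eq_pow x
  have h2 := hB.pos_lt x
  exact hS.x3 (st x) (D.u (st x)) x y (hS.s2 _ hx) hX (pos x)
    (by rw [abs_of_nonneg (by omega)]; omega) (by rw [zpow_natCast]; exact h1)

/-- The blocks of a vertex and of its mate are different. -/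
theorem in4_mt_ne (hB : Blocks D.f L st pos) (hS : Sep D L) (hL : 0 < L) {x a b : U}
    (hx : D.mt x ≠ x) (ha : In4 D st x a) (hb : In4 D st (D.mt x) b) : a ≠ b := by
  rintro rfl
  obtain ⟨l, hl, hw⟩ := wk_in4 hB x hb ha
  exact hS.h1 x hx l (by omega) hw

/-- The walk between two vertices at the positions `t` and `t'` of a block. -/
theorem wk_pos (v s : U) {t t' : ℕ} (ht : t < L) (ht' : t' < L) :
    ∃ l ≤ L, Wk D v 0 0 l ((D.f ^ t) s) ((D.f ^ t') s) := by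
  have h1 : (D.f ^ t') s = (D.f ^ ((t' : ℤ) - t)) ((D.f ^ t) s) := by
    rw [← zpow_natCast D.f t, ← zpow_natCast D.f t', ← Equiv.Perm.mul_apply, ← zpow_add]; simp
  refine ⟨((t' : ℤ) - t).natAbs, by omega, ?_⟩
  rw [h1]
  exact wk_zpow v _ _

theorem ne_pos (hS : Sep D L) (s : U) {t t' : ℕ} (ht : t < L) (ht' : t' < L) (hne : t ≠ t') :
    (D.f ^ t) s ≠ (D.f ^ t') s := by
  intro h
  have h1 : (D.f ^ t') s = (D.f ^ ((t' : ℤ) - t)) ((D.f ^ t) s) := by
    rw [← zpow_natCast D.f t, ← zpow_natCast D.f t', ← Equiv.Perm.mul_apply, ← zpow_add]; simp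
  refine hS.w0 ((D.f ^ t) s) ((t' : ℤ) - t) (by omega) ?_ (h1.symm.trans h.symm)
  rw [abs_le]
  constructor <;> omega

theorem mt_ne_of_not_bad {x : U} (h : ¬ Bad D L x) : D.mt x ≠ x :=
  fun h' => h (Or.inr (Or.inl h'))

theorem mt_pos_ne (hS : Sep D L) {s : U} {t t' : ℕ} (ht : t < L) (ht' : t' < L)
    (h2 : ¬ Bad D L ((D.f ^ t') s)) : D.mt ((D.f ^ t') s) ≠ (D.f ^ t) s := by
  intro h
  obtain ⟨l, hl, hw⟩ := wk_pos (D := D) ((D.f ^ t') s) s ht ht'
  rw [← h] at hw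
  exact hS.h1 _ (mt_ne_of_not_bad h2) l (by omega) hw

/-- A walk from the mate of `f ^ t s` to the mate of `f ^ t' s` makes `f ^ t s` bad. -/
theorem bad_of_wk (hS : Sep D L) {s : U} {t t' : ℕ} (ht : t < L) (ht' : t' < L) (hne : t ≠ t')
    (h1 : ¬ Bad D L ((D.f ^ t) s)) (h2 : ¬ Bad D L ((D.f ^ t') s)) {m e l : ℕ} (hm : m ≤ 1)
    (he : e ≤ 1) (hl : l ≤ 59 * L)
    (hw : Wk D ((D.f ^ t) s) m e l (D.mt ((D.f ^ t) s)) (D.mt ((D.f ^ t') s))) : False := by
  obtain ⟨l', hl', hw'⟩ := wk_pos (D := D) ((D.f ^ t) s) s ht' ht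
  have h3 : D.mt (D.mt ((D.f ^ t') s)) = (D.f ^ t') s := hS.invol _
  have h4 : Wk D ((D.f ^ t) s) 1 0 l' (D.mt ((D.f ^ t') s)) ((D.f ^ t) s) := by
    refine Wk.mate ?_ (mt_pos_ne hS ht ht' h2) ?_ (by rw [h3]; exact hw')
    · rw [h3]
      exact (mt_ne_of_not_bad h2).symm
    · intro h5
      have h6 := congrArg D.mt h5
      rw [hS.invol, hS.invol] at h6
      exact ne_pos hS s ht ht' hne h6.symm
  exact h1 (Or.inr (Or.inr (Or.inr ⟨m + 1, by omega, e + 0, by omega, l + l', by omega,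
    hw.trans h4⟩)))

/-- The block of `f ^ t s` is not near the mate of `f ^ t' s`. -/
theorem not_in4_pos (hB : Blocks D.f L st pos) (hS : Sep D L) (hL : 0 < L) {s : U} {t t' : ℕ}
    (ht : t < L) (ht' : t' < L) (h2 : ¬ Bad D L ((D.f ^ t') s)) {b : U}
    (hb : In4 D st (D.mt ((D.f ^ t') s)) b) (hb' : In4 D st ((D.f ^ t) s) b) : False := by
  obtain ⟨l, hl, hw⟩ := wk_in4 hB ((D.f ^ t') s) hb hb'
  obtain ⟨l', hl', hw'⟩ := wk_pos (D := D) ((D.f ^ t') s) s ht ht'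
  exact hS.h1 _ (mt_ne_of_not_bad h2) (l + l') (by omega) ((hw.trans hw').cast' rfl rfl rfl)

/-- Blocks around the mates of two different vertices of a block. -/
theorem in4_ne (hB : Blocks D.f L st pos) (hS : Sep D L) (hL : 0 < L) {s : U} {t t' : ℕ}
    (ht : t < L) (ht' : t' < L) (hne : t ≠ t') (h1 : ¬ Bad D L ((D.f ^ t) s))
    (h2 : ¬ Bad D L ((D.f ^ t') s)) {a b : U} (ha : In4 D st (D.mt ((D.f ^ t) s)) a)
    (hb : In4 D st (D.mt ((D.f ^ t') s)) b) : a ≠ b := by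
  rintro rfl
  obtain ⟨l, hl, hw⟩ := wk_in4 hB ((D.f ^ t) s) ha hb
  exact bad_of_wk hS ht ht' hne h1 h2 (by omega) (by omega) (by omega) hw

/-- The common part of the two statements which follow. -/
theorem not_in4_aux (hB : Blocks D.f L st pos) (hS : Sep D L) (hL : 0 < L) {s : U} {t t' : ℕ}
    (ht : t < L) (ht' : t' < L) (hne : t ≠ t') (h1 : ¬ Bad D L ((D.f ^ t) s))
    (h2 : ¬ Bad D L ((D.f ^ t') s)) {y a b : U} (ha : In4 D st (D.mt ((D.f ^ t) s)) a)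
    (hya : In4 D st y a) (hb : In4 D st (D.mt ((D.f ^ t') s)) b) (hyb : In4 D st (D.mt y) b) :
    False := by
  obtain ⟨l, hl, hw⟩ := wk_in4 hB ((D.f ^ t) s) ha hya
  obtain ⟨l', hl', hw'⟩ := wk_in4 hB ((D.f ^ t) s) hyb hb
  by_cases hy : D.mt y = y
  · rw [hy] at hw'
    exact bad_of_wk hS ht ht' hne h1 h2 (by omega) (by omega) (by omega) (hw.trans hw')
  by_cases hy1 : y = (D.f ^ t) s
  · rw [hy1] at hya
    exact in4_mt_ne hB hS hL (mt_ne_of_not_bad h1) hya ha rfl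
  by_cases hy2 : y = D.mt ((D.f ^ t) s)
  · rw [hy2, hS.invol] at hyb
    exact not_in4_pos hB hS hL ht ht' h2 hb hyb
  exact bad_of_wk hS ht ht' hne h1 h2 (by omega) (by omega) (by omega)
    (hw.trans (Wk.mate hy hy1 hy2 hw'))

theorem not_rel4 (hB : Blocks D.f L st pos) (hS : Sep D L) (hL : 0 < L) {s : U} {t t' : ℕ}
    (ht : t < L) (ht' : t' < L) (hne : t ≠ t') (h1 : ¬ Bad D L ((D.f ^ t) s))
    (h2 : ¬ Bad D L ((D.f ^ t') s)) {a b : U} (ha : In4 D st (D.mt ((D.f ^ t) s)) a)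
    (hb : In4 D st (D.mt ((D.f ^ t') s)) b) : ¬ Rel4 D st a b := by
  rintro (⟨y, hya, hyb | hyb⟩ | ⟨y, z, hX, hya, hzb⟩)
  · obtain ⟨l, hl, hw⟩ := wk_in4 hB ((D.f ^ t) s) ha hya
    obtain ⟨l', hl', hw'⟩ := wk_in4 hB ((D.f ^ t) s) hyb hb
    exact bad_of_wk hS ht ht' hne h1 h2 (by omega) (by omega) (by omega) (hw.trans hw')
  · exact not_in4_aux hB hS hL ht ht' hne h1 h2 ha hya hb hyb
  · obtain ⟨l, hl, hw⟩ := wk_in4 hB ((D.f ^ t) s) ha (Or.inl hya)
    obtain ⟨l', hl', hw'⟩ := wk_in4 hB ((D.f ^ t) s) (Or.inl hzb) hb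
    exact bad_of_wk hS ht ht' hne h1 h2 (by omega) (by omega) (by omega)
      (hw.trans (Wk.ex hX hw'))

theorem not_in4_mt (hB : Blocks D.f L st pos) (hS : Sep D L) (hL : 0 < L) {s : U} {t t' : ℕ}
    (ht : t < L) (ht' : t' < L) (hne : t ≠ t') (h1 : ¬ Bad D L ((D.f ^ t) s))
    (h2 : ¬ Bad D L ((D.f ^ t') s)) {y b : U} (hy : st y = st (D.mt ((D.f ^ t) s)))
    (hb : In4 D st (D.mt ((D.f ^ t') s)) b) : ¬ In4 D st (D.mt y) b := by
  intro hyb
  exact not_in4_aux hB hS hL ht ht' hne h1 h2 (Or.inl (Or.inl hy)) (Or.inl (Or.inl rfl)) hb hyb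

end Pool.Agent.HC
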