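import Mathlib
import Pool.Agent.HC.Facts

/-!
# The colouring of the core from the block data
-/

namespace Pool.Agent.HC

open Pool.Agent.H32.Hom

variable {U : Type}

theorem out_of_data {C : Type} (D : Dat U) (st : U → U) (pos : U → ℕ)
    (L w R : ℕ) (p : U → ℕ) (hS : Sep D L) (hB : Blocks D.f L st pos)
    (hsp : ∀ q ∈ D.Sp, st q = q) (hL : w * R < L) (hw4 : 4 ≤ w) (hp : ∀ s, p s < R)
    (hpb : ∀ s, st s = s → ∀ t : ℕ, t / w = p s → ¬ Bad D L ((D.f ^ t) s))
    (κ : U → C) (hκ : ∀ a b, a ≠ b → Rel4 D st a b → κ a ≠ κ b)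
    (hC : ∀ s, st s = s → Imp D st pos w p κ s) :
    ∃ c : U → C, Out D c := by
  classical
  have hw0 : 0 < w := by omega
  have hL0 : 0 < L := by omega
  have hL5 : ∀ v : U, 5 ≤ L := by
    intro v
    have h1 := hp v
    have h2 : w * 1 ≤ w * R := Nat.mul_le_mul_left _ (by omega)
    omega
  -- the neighbours on the line
  have hsym : ∀ v, (st v = st (D.f.symm v) ∧ pos v = pos (D.f.symm v) + 1) ∨
      (st v = v ∧ pos v = 0 ∧ Odd (pos (D.f.symm v) + 1) ∧ L ≤ pos (D.f.symm v) + 1) := by
    intro v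
    have h := hB.next (D.f.symm v)
    rw [Equiv.apply_symm_apply] at h
    exact h
  have hbk : ∀ x y, st x = st y → bk D.f st x = bk D.f st y := by
    intro x y h
    unfold bk
    rw [h]
  have hss : ∀ v, st (st v) = st v := hB.st_st
  have hpow : ∀ v, (D.f ^ (pos v)) (st v) = v := hB.eq_pow
  -- memberships
  have m0 : ∀ v, In3 D.f st v (st v) := fun v => Or.inl rfl
  have m1 : ∀ v, In3 D.f st v (bk D.f st v) := fun v => Or.inr (Or.inl rfl)
  have m2 : ∀ v, In3 D.f st v (bk D.f st (bk D.f st v)) := fun v => Or.inr (Or.inr rfl)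
  -- block colours
  have k4 : ∀ x a b, In4 D st x a → In4 D st x b → a ≠ b → κ a ≠ κ b :=
    fun x a b ha hb hne => hκ a b hne (Or.inl ⟨x, ha, Or.inl hb⟩)
  have hBB : ∀ x a b, D.mt x ≠ x → In4 D st x a → In4 D st (D.mt x) b → κ a ≠ κ b :=
    fun x a b hx ha hb => hκ a b (in4_mt_ne hB hS hL0 hx ha hb) (Or.inl ⟨x, ha, Or.inr hb⟩)
  have hA3 : ∀ x, κ (st x) ≠ κ (bk D.f st x) ∧ κ (st x) ≠ κ (bk D.f st (bk D.f st x)) ∧
      κ (bk D.f st x) ≠ κ (bk D.f st (bk D.f st x)) := by
    intro x
    exact ⟨k4 x _ _ (Or.inl (m0 x)) (Or.inl (m1 x)) (st_ne_bk4 hB hS x),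
      k4 x _ _ (Or.inl (m0 x)) (Or.inl (m2 x)) (st_ne_bkbk4 hB hS x),
      k4 x _ _ (Or.inl (m1 x)) (Or.inl (m2 x)) (bk_ne_bk4 hB hS x)⟩
  have msg : ∀ v, In4 D st v (sg4 D st pos w p v) := fun v => sg4_in4 D st pos w p v
  have hrun : ∀ s, st s = s → ∀ t, t < L → st ((D.f ^ t) s) = s ∧ pos ((D.f ^ t) s) = t :=
    fun s hs t ht => hB.st_pos_pow hs t ht
  -- bad vertices are not in the windows
  have hbw : ∀ v, Bad D L v → ¬ Win st pos w p v := by
    intro v hv hW
    refine hpb (st v) (hss v) (pos v) hW ?_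
    rw [hpow]
    exact hv
  -- choose the data
  have hC' : ∀ s, ∃ (i j : ℕ) (z : C), st s = s → (Odd i ∧ Odd j ∧ i < j ∧ i / w = p s ∧
      j / w = p s ∧ ¬ Win st pos w p (D.mt ((D.f ^ i) s)) ∧
      ¬ Win st pos w p (D.mt ((D.f ^ j) s)) ∧
      κ (src4 D st pos w p s i) = z ∧ κ (src4 D st pos w p s j) = z ∧
      ∀ t, i < t → t < j → (∀ b, In4 D st (D.mt ((D.f ^ t) s)) b → κ b ≠ z) ∧
        (Win st pos w p (D.mt ((D.f ^ t) s)) → ∀ y, st y = st (D.mt ((D.f ^ t) s)) →
          Win st pos w p y → ¬ Win st pos w p (D.mt y) →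
            κ (sg4 D st pos w p (D.mt y)) ≠ z)) := by
    intro s
    by_cases hs : st s = s
    · obtain ⟨i, j, z, h⟩ := hC s hs
      exact ⟨i, j, z, fun _ => h⟩
    · exact ⟨0, 0, κ s, fun h => absurd h hs⟩
  choose i j z hh using hC'
  have hiL : ∀ s, st s = s → i s < w * R := by
    intro s hs
    obtain ⟨_, _, _, h, _⟩ := hh s hs
    have h1 := hp s
    rw [← h] at h1
    have := (Nat.div_lt_iff_lt_mul hw0).1 h1
    rw [mul_comm]
    exact this
  have hjL : ∀ s, st s = s → j s < w * R := by
    intro s hs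
    obtain ⟨_, _, _, _, h, _⟩ := hh s hs
    have h1 := hp s
    rw [← h] at h1
    have := (Nat.div_lt_iff_lt_mul hw0).1 h1
    rw [mul_comm]
    exact this
  -- in special blocks the window is not the first one
  have hi4 : ∀ s ∈ D.Sp, 4 ≤ i s := by
    intro s hs
    have hst := hsp s hs
    obtain ⟨_, _, _, h, _⟩ := hh s hst
    have h1 : p s ≠ 0 := by
      intro h0
      refine hpb s hst 0 (by rw [h0]; simp) ?_
      exact Or.inr (Or.inr (Or.inl ⟨s, hs, 0, by omega, rfl⟩))
    by_contra hcon
    have h2 : i s / w = 0 := Nat.div_eq_of_lt (by omega)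
    omega
  -- the mates at the positions i
  have hmi : ∀ s, st s = s → D.mt ((D.f ^ (i s)) s) ≠ (D.f ^ (i s)) s := by
    intro s hs h
    obtain ⟨_, _, _, h1, _⟩ := hh s hs
    exact hpb s hs _ h1 (Or.inr (Or.inl h))
  -- the colouring
  let A : U → C := fun v => if st v ∈ D.Sp then κ (sg D.f st pos w p (D.u (st v)))
    else κ (bk D.f st (bk D.f st v))
  have Adef : ∀ v, A v = if st v ∈ D.Sp then κ (sg D.f st pos w p (D.u (st v)))
    else κ (bk D.f st (bk D.f st v)) := fun v => rfl
  let c : U → C := fun v => if Odd (pos v) then κ (bk D.f st v)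
    else if pos v < i (st v) then (if 2 ≤ pos v then A v else κ (bk D.f st (bk D.f st v)))
    else if pos v < j (st v) then z (st v) else κ (st v)
  have cdef : ∀ v, c v = if Odd (pos v) then κ (bk D.f st v)
    else if pos v < i (st v) then (if 2 ≤ pos v then A v else κ (bk D.f st (bk D.f st v)))
    else if pos v < j (st v) then z (st v) else κ (st v) := fun v => rfl
  have hAm : ∀ v, ∃ b, In4 D st v b ∧ A v = κ b ∧ b ≠ bk D.f st v := by
    intro v
    rw [Adef v]
    by_cases hv : st v ∈ D.Sp
    · rw [if_pos hv]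
      refine ⟨_, Or.inr ⟨hv, sg_in3 D.f st pos w p _⟩, rfl, ?_⟩
      exact (in3_u_ne hB hS hv (m1 v) (sg_in3 D.f st pos w p _)).symm
    · rw [if_neg hv]
      exact ⟨_, Or.inl (m2 v), rfl, (bk_ne_bk4 hB hS v).symm⟩
  have hA1 : ∀ v, A v ≠ κ (bk D.f st v) := by
    intro v
    obtain ⟨b, hb, hb1, hb2⟩ := hAm v
    rw [hb1]
    exact k4 v _ _ hb (Or.inl (m1 v)) hb2
  have hAst : ∀ v v', st v = st v' → A v = A v' := by
    intro v v' h
    rw [Adef v, Adef v', h, hbk v v' h]
  -- outside the windows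
  have hout : ∀ y, ¬ Win st pos w p y → c y = κ (sg4 D st pos w p y) := by
    intro y hy
    obtain ⟨hoi, hoj, hij, hi, hj, _⟩ := hh (st y) (hss y)
    rw [cdef y]
    unfold sg4 sg
    unfold Win at hy
    by_cases ho : Odd (pos y)
    · rw [if_pos ho, if_neg (fun h => h.2.1 ho), if_pos ho]
    · rw [if_neg ho]
      by_cases hlt : pos y / w < p (st y)
      · have h1 : pos y < i (st y) := by
          by_contra hcon
          have := Nat.div_le_div_right (c := w) (not_lt.1 hcon)
          omega
        rw [if_pos h1]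
        by_cases h2 : 2 ≤ pos y
        · rw [if_pos h2, Adef y]
          by_cases h3 : st y ∈ D.Sp
          · rw [if_pos h3, if_pos ⟨h3, ho, h2, hlt⟩]
            rfl
          · rw [if_neg h3, if_neg (fun h => h3 h.1), if_neg ho, if_pos hlt]
        · rw [if_neg h2, if_neg (fun h => h2 h.2.2.1), if_neg ho, if_pos hlt]
      · have h2 : j (st y) < pos y := by
          by_contra hcon
          have := Nat.div_le_div_right (c := w) (not_lt.1 hcon)
          omega
        rw [if_neg (by omega), if_neg (by omega), if_neg (fun h => hlt h.2.2.2), if_neg ho,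
          if_neg hlt]
  -- the colours on the line for even positions
  have hEf : ∀ v, ¬ Odd (pos v) → c (D.f v) = κ (bk D.f st v) := by
    intro v hv
    rcases hB.next v with ⟨a, b⟩ | ⟨a, b, _, _⟩
    · have ho : Odd (pos (D.f v)) := by
        rw [b]
        exact (Nat.not_odd_iff_even.1 hv).add_one
      rw [cdef (D.f v), if_pos ho, hbk _ _ a]
    · have h0 : ¬ Odd (pos (D.f v)) := by rw [b]; decide
      obtain ⟨hoi, _⟩ := hh (D.f v) a
      have hi0 : pos (D.f v) < i (st (D.f v)) := by
        rw [a, b]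
        exact hoi.pos
      rw [cdef (D.f v), if_neg h0, if_pos hi0, if_neg (by rw [b]; omega)]
      have h1 : bk D.f st (D.f v) = st v := by
        unfold bk
        rw [a, Equiv.symm_apply_apply]
      rw [h1, hbk (st v) v (hss v)]
  have hEs : ∀ v, ¬ Odd (pos v) → c (D.f.symm v) = κ (bk D.f st v) := by
    intro v hv
    rcases hsym v with ⟨a, b⟩ | ⟨a, b, ho, hl⟩
    · have ho : Odd (pos (D.f.symm v)) := by
        rw [b] at hv
        rw [Nat.not_odd_iff_even] at hv
        rw [← Nat.not_even_iff_odd]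
        intro h
        have := h.add_one
        rw [← Nat.not_even_iff_odd] at this
        exact this hv
      rw [cdef (D.f.symm v), if_pos ho, hbk _ _ a]
    · have ho' : ¬ Odd (pos (D.f.symm v)) := by
        intro h
        have := h.add_one
        rw [← Nat.not_odd_iff_even] at this
        exact this ho
      have h1 := hiL (st (D.f.symm v)) (hss _)
      have h2 := hjL (st (D.f.symm v)) (hss _)
      rw [cdef (D.f.symm v), if_neg ho', if_neg (by omega), if_neg (by omega)]
      unfold bk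
      rw [a]
  -- odd positions
  have hOf : ∀ v, Odd (pos v) → st (D.f v) = st v ∧ pos (D.f v) = pos v + 1 := by
    intro v hv
    rcases hB.next v with h | ⟨_, _, h, _⟩
    · exact h
    · have := hv.add_one
      rw [← Nat.not_odd_iff_even] at this
      exact absurd h this
  have hOs : ∀ v, Odd (pos v) → st (D.f.symm v) = st v ∧ pos (D.f.symm v) + 1 = pos v := by
    intro v hv
    rcases hsym v with ⟨a, b⟩ | ⟨_, b, _, _⟩
    · exact ⟨a.symm, b.symm⟩
    · rw [b] at hv
      exact absurd hv (by decide)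
  have hcOf : ∀ v, Odd (pos v) → c (D.f v) = if pos v + 1 < i (st v) then A v
      else if pos v + 1 < j (st v) then z (st v) else κ (st v) := by
    intro v hv
    obtain ⟨a, b⟩ := hOf v hv
    have he : ¬ Odd (pos (D.f v)) := by
      rw [b, Nat.not_odd_iff_even]
      exact hv.add_one
    have h2 : 2 ≤ pos (D.f v) := by
      rcases hv with ⟨k, hk⟩
      omega
    rw [cdef (D.f v), if_neg he, if_pos h2, a, b, hAst _ _ a]
  have hcOs : ∀ v, Odd (pos v) → (st v ∈ D.Sp → pos v ≠ 1) → c (D.f.symm v) =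
      if pos v < i (st v) + 1 then A v
      else if pos v < j (st v) + 1 then z (st v) else κ (st v) := by
    intro v hv hv1
    obtain ⟨a, b⟩ := hOs v hv
    have he : ¬ Odd (pos (D.f.symm v)) := by
      intro h
      rw [← b] at hv
      have := h.add_one
      rw [← Nat.not_odd_iff_even] at this
      exact this hv
    have hA0 : (if 2 ≤ pos (D.f.symm v) then A (D.f.symm v)
        else κ (bk D.f st (bk D.f st (D.f.symm v)))) = A v := by
      rw [hAst _ _ a]
      split_ifs with h2
      · rfl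
      · have h3 : pos v = 1 := by
          rcases hv with ⟨k, hk⟩
          omega
        have h4 : st v ∉ D.Sp := fun h => hv1 h h3
        rw [Adef v, if_neg h4, hbk _ _ a]
    rw [cdef (D.f.symm v), if_neg he, hA0, a]
    have e1 : (pos (D.f.symm v) < i (st v)) = (pos v < i (st v) + 1) := by
      rw [← b]; simp
    have e2 : (pos (D.f.symm v) < j (st v)) = (pos v < j (st v) + 1) := by
      rw [← b]; simp
    simp only [e1, e2]
  -- the positions i of a block
  have hvi : ∀ s, st s = s → st ((D.f ^ (i s)) s) = s ∧ pos ((D.f ^ (i s)) s) = i s := by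
    intro s hs
    exact hrun s hs _ (lt_trans (hiL s hs) hL)
  -- z is not a colour of the blocks of v
  have hz4 : ∀ v b, In4 D st v b → z (st v) ≠ κ b := by
    intro v b hb
    obtain ⟨_, _, _, _, _, _, _, h8, _⟩ := hh (st v) (hss v)
    obtain ⟨h1, _⟩ := hvi (st v) (hss v)
    rw [← h8]
    have h2 : In4 D st ((D.f ^ (i (st v))) (st v)) b := in4_of_st_eq (by rw [h1]) hb
    have h3 := hBB _ b _ (hmi (st v) (hss v)) h2 (msg (D.mt ((D.f ^ (i (st v))) (st v))))
    exact fun h => h3 h.symm
  have hzA : ∀ v, z (st v) ≠ A v := by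
    intro v
    obtain ⟨b, hb, hb1, _⟩ := hAm v
    rw [hb1]
    exact hz4 v b hb
  -- the strict middle
  let S : U → Prop := fun v => i (st v) < pos v ∧ pos v < j (st v)
  have hSw : ∀ v, S v → Win st pos w p v := by
    intro v hv
    obtain ⟨_, _, hij, hi, hj, _⟩ := hh (st v) (hss v)
    unfold Win
    have a1 := Nat.div_le_div_right (c := w) hv.1.le
    have a2 := Nat.div_le_div_right (c := w) hv.2.le
    omega
  have hS1 : ∀ v, S v → ∀ b, In4 D st (D.mt v) b → κ b ≠ z (st v) := by
    intro v hv b hb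
    obtain ⟨_, _, _, _, _, _, _, _, _, h⟩ := hh (st v) (hss v)
    have := (h (pos v) hv.1 hv.2).1 b
    rw [hpow v] at this
    exact this hb
  have hS2 : ∀ v, S v → S (D.mt v) → z (st (D.mt v)) ≠ z (st v) := by
    intro v hv hy
    obtain ⟨_, _, _, _, _, _, _, _, _, h⟩ := hh (st v) (hss v)
    have h1 := (h (pos v) hv.1 hv.2).2
    rw [hpow v] at h1
    obtain ⟨_, _, hij, hi, hj, h6, _, h8, _, _⟩ := hh (st (D.mt v)) (hss (D.mt v))
    obtain ⟨g1, g2⟩ := hvi (st (D.mt v)) (hss (D.mt v))
    have h2 := h1 (hSw _ hy) ((D.f ^ (i (st (D.mt v)))) (st (D.mt v))) g1 (by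
      unfold Win
      rw [g2, g1]
      exact hi) h6
    rw [← h8]
    exact h2
  -- colours of vertices
  have hcS' : ∀ v, (∃ b, In4 D st v b ∧ c v = κ b) ∨ (S v ∧ c v = z (st v)) := by
    intro v
    rw [cdef v]
    by_cases ho : Odd (pos v)
    · exact Or.inl ⟨_, Or.inl (m1 v), by rw [if_pos ho]⟩
    · rw [if_neg ho]
      by_cases h1 : pos v < i (st v)
      · rw [if_pos h1]
        left
        split_ifs
        · obtain ⟨b, hb, hb1, _⟩ := hAm v
          exact ⟨b, hb, hb1⟩
        · exact ⟨_, Or.inl (m2 v), rfl⟩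
      · rw [if_neg h1]
        by_cases h2 : pos v < j (st v)
        · right
          refine ⟨⟨?_, h2⟩, by rw [if_pos h2]⟩
          have : pos v ≠ i (st v) := by
            intro he
            apply ho
            rw [he]
            exact (hh (st v) (hss v)).1
          omega
        · left
          exact ⟨_, Or.inl (m0 v), by rw [if_neg h2]⟩
  -- normal vertices
  have hmain : ∀ v (X : C), D.mt v ≠ v →
      ((∃ b, In4 D st v b ∧ X = κ b) ∨ (S v ∧ X = z (st v))) → c (D.mt v) ≠ X := by
    intro v X hmv hX hcX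
    rcases hcS' (D.mt v) with ⟨b', hb', e'⟩ | ⟨hy, e'⟩
    · rcases hX with ⟨b, hb, e⟩ | ⟨hv, e⟩
      · exact hBB v b b' hmv hb hb' (by rw [← e, ← e', hcX])
      · exact hS1 v hv b' hb' (by rw [← e, ← e', hcX])
    · rcases hX with ⟨b, hb, e⟩ | ⟨hv, e⟩
      · refine hS1 (D.mt v) hy b ?_ (by rw [← e, ← e', hcX])
        rw [hS.invol v]
        exact hb
      · exact hS2 v hv hy (by rw [← e, ← e', hcX])
  -- vertices at the positions i and j
  have hspec : ∀ v, (pos v = i (st v) ∨ pos v = j (st v)) → c (D.mt v) = z (st v) := by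
    intro v hv
    obtain ⟨_, _, _, _, _, h6, h7, h8, h9, _⟩ := hh (st v) (hss v)
    rcases hv with hv | hv
    · have hx : (D.f ^ (i (st v))) (st v) = v := by rw [← hv]; exact hpow v
      unfold src4 at h8
      rw [hx] at h6 h8
      rw [hout _ h6, h8]
    · have hx : (D.f ^ (j (st v))) (st v) = v := by rw [← hv]; exact hpow v
      unfold src4 at h9
      rw [hx] at h7 h9
      rw [hout _ h7, h9]
  have hij2 : ∀ v, i (st v) + 2 ≤ j (st v) := by
    intro v
    obtain ⟨hoi, hoj, hij, _⟩ := hh (st v) (hss v)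
    rcases hoi with ⟨a, ha⟩
    rcases hoj with ⟨b, hb⟩
    omega
  have hcb : ∀ v, ¬ Odd (pos v) → κ (bk D.f st v) ≠ c v := by
    intro v ho
    have hz1 := hz4 v _ (Or.inl (m1 v))
    obtain ⟨h1, h2, h3⟩ := hA3 v
    rw [cdef v, if_neg ho]
    split_ifs
    · exact (hA1 v).symm
    · exact h3
    · exact hz1.symm
    · exact h1.symm
  -- special starts
  have hspos : ∀ q ∈ D.Sp, pos q = 0 := by
    intro q hq
    have := hB.pos_st q
    rwa [hsp q hq] at this
  have hsp1 : ∀ q ∈ D.Sp, st (D.f q) = q ∧ pos (D.f q) = 1 := by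
    intro q hq
    have := hrun q (hsp q hq) 1 (by have := hL5 q; omega)
    rwa [pow_one] at this
  have hsp2 : ∀ q ∈ D.Sp, st (D.f (D.f q)) = q ∧ pos (D.f (D.f q)) = 2 := by
    intro q hq
    have := hrun q (hsp q hq) 2 (by have := hL5 q; omega)
    rwa [pow_two, Equiv.Perm.mul_apply] at this
  have hnorm : ∀ v, (∀ q ∈ D.Sp, v ≠ D.f q) → (st v ∈ D.Sp → pos v ≠ 1) := by
    intro v hv hs h1
    refine hv (st v) hs ?_
    have := hpow v
    rw [h1, pow_one] at this
    exact this.symm
  refine ⟨c, ?_, ?_, ?_, ?_⟩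
  · -- hom
    intro v hmv hvf
    have hn1 := hnorm v hvf
    obtain ⟨hB1, hB2, hB3⟩ := hA3 v
    have hij' := hij2 v
    have hz0 := hz4 v _ (Or.inl (m0 v))
    have hz1 := hz4 v _ (Or.inl (m1 v))
    have hz2 := hzA v
    unfold HomAt
    by_cases ho : Odd (pos v)
    · have cv : c v = κ (bk D.f st v) := by rw [cdef v, if_pos ho]
      have cf := hcOf v ho
      have cs := hcOs v ho hn1
      by_cases hi : pos v = i (st v)
      · have cm := hspec v (Or.inl hi)
        rw [if_neg (by omega), if_pos (by omega)] at cf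
        rw [if_pos (by omega)] at cs
        rw [cv, cf, cs, cm]
        exact ⟨hz1, hz1, Or.inr (Or.inl ⟨rfl, fun h => hz2 h.symm⟩)⟩
      by_cases hj : pos v = j (st v)
      · have cm := hspec v (Or.inr hj)
        rw [if_neg (by omega), if_neg (by omega)] at cf
        rw [if_neg (by omega), if_pos (by omega)] at cs
        rw [cv, cf, cs, cm]
        exact ⟨hB1, hz1, Or.inr (Or.inr ⟨rfl, fun h => hz0 h.symm⟩)⟩
      -- normal, odd
      obtain ⟨hoi, hoj, hij, _⟩ := hh (st v) (hss v)
      have hpar : pos v ≠ i (st v) + 1 ∧ pos v + 1 ≠ i (st v) ∧ pos v ≠ j (st v) + 1 ∧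
          pos v + 1 ≠ j (st v) := by
        rcases hoi with ⟨a, ha⟩
        rcases hoj with ⟨b, hb⟩
        rcases ho with ⟨d, hd⟩
        omega
      have key : ∀ X : C, c (D.f v) = X → c (D.f.symm v) = X → X ≠ κ (bk D.f st v) →
          ((∃ b, In4 D st v b ∧ X = κ b) ∨ (S v ∧ X = z (st v))) →
          c (D.f v) ≠ c v ∧ c (D.mt v) ≠ c v ∧
            ((c (D.f v) = c (D.f.symm v) ∧ c (D.mt v) ≠ c (D.f v)) ∨
            (c (D.mt v) = c (D.f v) ∧ c (D.f.symm v) ≠ c (D.f v)) ∨
            (c (D.mt v) = c (D.f.symm v) ∧ c (D.f v) ≠ c (D.f.symm v))) := by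
        intro X e1 e2 hX hm
        rw [e1, e2]
        refine ⟨by rw [cv]; exact hX, hmain v (c v) hmv (Or.inl ⟨_, Or.inl (m1 v), cv⟩),
          Or.inl ⟨rfl, hmain v X hmv hm⟩⟩
      by_cases h1 : pos v < i (st v)
      · rw [if_pos (by omega)] at cf
        rw [if_pos (by omega)] at cs
        obtain ⟨b, hb, hb1, _⟩ := hAm v
        exact key _ cf cs (hA1 v) (Or.inl ⟨b, hb, hb1⟩)
      · by_cases h2 : pos v < j (st v)
        · rw [if_neg (by omega), if_pos (by omega)] at cf
          rw [if_neg (by omega), if_pos (by omega)] at cs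
          exact key _ cf cs hz1 (Or.inr ⟨⟨by omega, h2⟩, rfl⟩)
        · rw [if_neg (by omega), if_neg (by omega)] at cf
          rw [if_neg (by omega), if_neg (by omega)] at cs
          exact key _ cf cs hB1 (Or.inl ⟨_, Or.inl (m0 v), rfl⟩)
    · have cf := hEf v ho
      have cs := hEs v ho
      have cne := hcb v ho
      rw [cf, cs]
      exact ⟨cne, hmain v (c v) hmv (hcS' v),
        Or.inl ⟨rfl, hmain v _ hmv (Or.inl ⟨_, Or.inl (m1 v), rfl⟩)⟩⟩
  · -- deleted mates
    intro v hmv
    by_cases ho : Odd (pos v)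
    · have hW := hbw v (Or.inr (Or.inl hmv))
      have hn1 : st v ∈ D.Sp → pos v ≠ 1 := by
        refine hnorm v ?_
        intro q hq h
        apply hS.s4 q hq
        rw [← h]
        exact hmv
      have cv : c v = κ (bk D.f st v) := by rw [cdef v, if_pos ho]
      have cf := hcOf v ho
      have cs := hcOs v ho hn1
      obtain ⟨hoi, hoj, hij, hi, hj, _⟩ := hh (st v) (hss v)
      have hni : pos v ≠ i (st v) := by
        intro h
        apply hW
        unfold Win
        rw [h]
        exact hi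
      have hnj : pos v ≠ j (st v) := by
        intro h
        apply hW
        unfold Win
        rw [h]
        exact hj
      have hpar : pos v ≠ i (st v) + 1 ∧ pos v + 1 ≠ i (st v) ∧ pos v ≠ j (st v) + 1 ∧
          pos v + 1 ≠ j (st v) := by
        rcases hoi with ⟨a, ha⟩
        rcases hoj with ⟨b, hb⟩
        rcases ho with ⟨d, hd⟩
        omega
      by_cases h1 : pos v < i (st v)
      · rw [if_pos (by omega)] at cf
        rw [if_pos (by omega)] at cs
        rw [cf, cs, cv]
        exact ⟨rfl, hA1 v⟩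
      · by_cases h2 : pos v < j (st v)
        · rw [if_neg (by omega), if_pos (by omega)] at cf
          rw [if_neg (by omega), if_pos (by omega)] at cs
          rw [cf, cs, cv]
          exact ⟨rfl, hz4 v _ (Or.inl (m1 v))⟩
        · rw [if_neg (by omega), if_neg (by omega)] at cf
          rw [if_neg (by omega), if_neg (by omega)] at cs
          rw [cf, cs, cv]
          exact ⟨rfl, (hA3 v).1⟩
    · rw [hEf v ho, hEs v ho]
      exact ⟨rfl, hcb v ho⟩
  · -- special points
    intro q hq
    obtain ⟨a1, b1⟩ := hsp1 q hq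
    obtain ⟨a2, b2⟩ := hsp2 q hq
    have hsq := hsp q hq
    have hpq := hspos q hq
    have h4 := hi4 q hq
    have hodd0 : ¬ Odd (pos q) := by rw [hpq]; decide
    have hodd1 : Odd (pos (D.f q)) := by rw [b1]; decide
    have c0 : c q = κ (bk D.f st (bk D.f st q)) := by
      rw [cdef q, if_neg hodd0, if_pos (by rw [hpq, hsq]; omega), if_neg (by rw [hpq]; omega)]
    have c1 : c (D.f q) = κ (bk D.f st q) := hEf q hodd0
    have c2 : c (D.f (D.f q)) = A (D.f q) := by
      rw [hcOf _ hodd1, if_pos (by rw [b1, a1]; omega)]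
    have cA : A (D.f q) = κ (sg D.f st pos w p (D.u q)) := by
      rw [Adef, a1, if_pos hq]
    have hbkq : bk D.f st (D.f q) = bk D.f st q := hbk _ _ (by rw [a1, hsq])
    have hu : c (D.u q) = κ (sg D.f st pos w p (D.u q)) := by
      rw [hout _ (hbw _ (Or.inr (Or.inl (hS.s1 q hq))))]
      congr 1
      unfold sg4
      rw [if_neg (fun h => st_u_notMem hB hS hq h.1)]
    obtain ⟨hB1, hB2, hB3⟩ := hA3 q
    refine ⟨by rw [c2, cA, hu], by rw [c1, c0]; exact hB3, ?_, ?_, ?_, ?_⟩
    · rw [c2, c1, ← hbkq]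
      exact hA1 (D.f q)
    · rw [c1]
      refine hmain (D.f q) _ (hS.s4 q hq) (Or.inl ⟨bk D.f st (D.f q), Or.inl (m1 _), ?_⟩)
      rw [hbkq]
    · rw [c2]
      obtain ⟨b, hb, hb1, _⟩ := hAm (D.f q)
      exact hmain (D.f q) _ (hS.s4 q hq) (Or.inl ⟨b, hb, hb1⟩)
    · rw [hEs q hodd0, c1]
  · -- attached vertices
    have hx3 : ∀ a b, D.X a b → ∀ a', (a' = a ∨ a' = D.f a ∨ a' = D.f.symm a) →
        ∃ s, In3 D.f st a s ∧ c a' = κ s := by
      intro a b hX a' ha'
      have hW := hbw a (Or.inl ⟨b, hX⟩)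
      by_cases hsa : st a ∈ D.Sp
      · -- then a is special
        have h1 := st_eq_of_x hB hS hX hsa
        have hpa : pos a = 0 := by
          have := hB.pos_st a
          rwa [h1] at this
        have hodd0 : ¬ Odd (pos a) := by rw [hpa]; decide
        rcases ha' with rfl | rfl | rfl
        · refine ⟨_, m2 a', ?_⟩
          have h2 := hi4 (st a') hsa
          rw [cdef a', if_neg hodd0, if_pos (by rw [hpa]; omega), if_neg (by rw [hpa]; omega)]
        · exact ⟨_, m1 a, hEf a hodd0⟩
        · exact ⟨_, m1 a, hEs a hodd0⟩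
      · have hAa : A a = κ (bk D.f st (bk D.f st a)) := by rw [Adef, if_neg hsa]
        obtain ⟨hoi, hoj, hij, hi, hj, _⟩ := hh (st a) (hss a)
        have hwin : pos a < i (st a) ∨ j (st a) < pos a := by
          by_contra hcon
          push Not at hcon
          apply hW
          unfold Win
          have e1 := Nat.div_le_div_right (c := w) hcon.1
          have e2 := Nat.div_le_div_right (c := w) hcon.2
          omega
        by_cases ho : Odd (pos a)
        · have cf := hcOf a ho
          have cs := hcOs a ho (fun h => absurd h hsa)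
          have hpar : pos a + 1 ≠ i (st a) := by
            rcases hoi with ⟨d, hd⟩
            rcases ho with ⟨e, he⟩
            omega
          rcases ha' with rfl | rfl | rfl
          · exact ⟨_, m1 a', by rw [cdef a', if_pos ho]⟩
          · rcases hwin with h | h
            · rw [if_pos (by omega), hAa] at cf
              exact ⟨_, m2 a, cf⟩
            · rw [if_neg (by omega), if_neg (by omega)] at cf
              exact ⟨_, m0 a, cf⟩
          · rcases hwin with h | h
            · rw [if_pos (by omega), hAa] at cs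
              exact ⟨_, m2 a, cs⟩
            · rw [if_neg (by omega), if_neg (by omega)] at cs
              exact ⟨_, m0 a, cs⟩
        · rcases ha' with rfl | rfl | rfl
          · rw [cdef a', if_neg ho]
            rcases hwin with h | h
            · rw [if_pos h]
              split_ifs
              · exact ⟨_, m2 a', hAa⟩
              · exact ⟨_, m2 a', rfl⟩
            · rw [if_neg (by omega), if_neg (by omega)]
              exact ⟨_, m0 a', rfl⟩
          · exact ⟨_, m1 a, hEf a ho⟩
          · exact ⟨_, m1 a, hEs a ho⟩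
    intro a b hX a' b' ha' hb'
    obtain ⟨s, hs, hs'⟩ := hx3 a b hX a' ha'
    obtain ⟨t, ht, ht'⟩ := hx3 b a (hS.xs _ _ hX) b' hb'
    rw [hs', ht']
    exact hκ s t (in3_x_ne hB hS hX hs ht) (Or.inr ⟨a, b, hX, hs, ht⟩)

end Pool.Agent.HC
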