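import Mathlib
import Pool.Agent.HC.Facts

/-!
# The degree of the relation between blocks
-/

namespace Pool.Agent.HC

open Pool.Agent.H32.Hom

variable {U : Type} {D : Dat U} {st : U → U} {pos : U → ℕ} {L : ℕ}

theorem rel4_symm (hS : Sep D L) {a b : U} (h : Rel4 D st a b) : Rel4 D st b a := by
  rcases h with ⟨x, ha, hb | hb⟩ | ⟨x, y, hX, ha, hb⟩
  · exact Or.inl ⟨x, hb, Or.inl ha⟩
  · exact Or.inl ⟨D.mt x, hb, Or.inr (by rw [hS.invol]; exact ha)⟩
  · exact Or.inr ⟨y, x, hS.xs _ _ hX, hb, ha⟩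

/-- Two attached vertices on the same short piece of a line are equal. -/
private theorem deg_x3 (hS : Sep D L) {a x y x' y' : U} {k k' : ℕ} (hk : k < 9 * L)
    (hk' : k' < 9 * L) (h : (D.f ^ k) a = x) (h' : (D.f ^ k') a = x') (hX : D.X x y)
    (hX' : D.X x' y') : x = x' := by
  refine hS.x3 x y x' y' hX hX' ((k' : ℤ) - k) ?_ ?_
  · rw [abs_le]
    constructor <;> omega
  · rw [← h, ← h', ← zpow_natCast, ← zpow_natCast, ← Equiv.Perm.mul_apply, ← zpow_add]
    congr 2
    ring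

/-- Every block is related to at most `1100 * L` blocks. -/
theorem rel4_finset [Finite U] (hB : Blocks D.f L st pos) (hS : Sep D L) (hL : 0 < L) (a : U) :
    ∃ T : Finset U, (∀ b, Rel4 D st a b → b ∈ T) ∧ T.card ≤ 1100 * L := by
  classical
  let c3 : U → Finset U := fun x => {st x, bk D.f st x, bk D.f st (bk D.f st x)}
  have hc3 : ∀ x b, In3 D.f st x b → b ∈ c3 x := by
    intro x b h
    simp only [c3, Finset.mem_insert, Finset.mem_singleton]
    exact h
  have hcard : ∀ x, (c3 x).card ≤ 3 := fun x => Finset.card_le_three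
  let c6 : U → Finset U := fun x => c3 x ∪ c3 (D.u (st x))
  have hc6 : ∀ x b, In4 D st x b → b ∈ c6 x := by
    intro x b h
    rcases h with h | h
    · exact Finset.mem_union_left _ (hc3 _ _ h)
    · exact Finset.mem_union_right _ (hc3 _ _ h.2)
  have hcard6 : ∀ x, (c6 x).card ≤ 6 := fun x => by
    refine (Finset.card_union_le _ _).trans ?_
    have := hcard x
    have := hcard (D.u (st x))
    omega
  -- the special block
  obtain ⟨p0, hp0⟩ : ∃ p0 : U, ∀ p ∈ D.Sp, In3 D.f st (D.u p) a → p = p0 := by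
    by_cases h : ∃ p, p ∈ D.Sp ∧ In3 D.f st (D.u p) a
    · obtain ⟨p0, hp0, hI0⟩ := h
      refine ⟨p0, fun p hp hI => ?_⟩
      obtain ⟨k, hk, hk'⟩ := In3.pow hB hI
      obtain ⟨l, hl, hl'⟩ := In3.pow hB hI0
      exact hS.s6 hp hp0 (deg_x3 hS hk hl hk' hl' (hS.xs _ _ (hS.s2 p hp))
        (hS.xs _ _ (hS.s2 p0 hp0)))
    · exact ⟨a, fun p hp hI => absurd ⟨p, hp, hI⟩ h⟩
  let S : Finset U := (Finset.range (9 * L)).image (fun k => (D.f ^ k) a) ∪
    (Finset.range (3 * L)).image (fun k => (D.f ^ k) p0)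
  have hSm : ∀ x, In4 D st x a → x ∈ S := by
    intro x h
    rcases h with h | ⟨h1, h2⟩
    · obtain ⟨k, hk, hk'⟩ := In3.pow hB h
      exact Finset.mem_union_left _ (Finset.mem_image.2 ⟨k, Finset.mem_range.2 hk, hk'⟩)
    · refine Finset.mem_union_right _ (Finset.mem_image.2
        ⟨pos x, Finset.mem_range.2 (hB.pos_lt x), ?_⟩)
      rw [← hp0 _ h1 h2]
      exact hB.eq_pow x
  have hSc : S.card ≤ 12 * L := by
    refine (Finset.card_union_le _ _).trans ?_
    have h1 : ((Finset.range (9 * L)).image (fun k => (D.f ^ k) a)).card ≤ 9 * L := by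
      simpa using Finset.card_image_le (s := Finset.range (9 * L)) (f := fun k => (D.f ^ k) a)
    have h2 : ((Finset.range (3 * L)).image (fun k => (D.f ^ k) p0)).card ≤ 3 * L := by
      simpa using Finset.card_image_le (s := Finset.range (3 * L)) (f := fun k => (D.f ^ k) p0)
    omega
  -- the attached vertex
  obtain ⟨x0, hx0⟩ : ∃ x0 : U, ∀ x y, D.X x y → In3 D.f st x a → x = x0 := by
    by_cases h : ∃ x y, D.X x y ∧ In3 D.f st x a
    · obtain ⟨x0, y0, hX0, hI0⟩ := h
      refine ⟨x0, fun x y hX hI => ?_⟩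
      obtain ⟨k, hk, hk'⟩ := In3.pow hB hI
      obtain ⟨l, hl, hl'⟩ := In3.pow hB hI0
      exact deg_x3 hS hk hl hk' hl' hX hX0
    · exact ⟨a, fun x y hX hI => absurd ⟨x, y, hX, hI⟩ h⟩
  obtain ⟨T0, hT0, hT0c⟩ := hS.x4 x0
  refine ⟨S.biUnion (fun x => c6 x ∪ c6 (D.mt x)) ∪ T0.biUnion c3, ?_, ?_⟩
  · rintro b (⟨x, ha, hb⟩ | ⟨x, y, hX, ha, hb⟩)
    · refine Finset.mem_union_left _ (Finset.mem_biUnion.2 ⟨x, hSm x ha, ?_⟩)
      rcases hb with hb | hb
      · exact Finset.mem_union_left _ (hc6 _ _ hb)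
      · exact Finset.mem_union_right _ (hc6 _ _ hb)
    · have h1 := hx0 x y hX ha
      rw [h1] at hX
      exact Finset.mem_union_right _ (Finset.mem_biUnion.2 ⟨y, hT0 y hX, hc3 y b hb⟩)
  · refine (Finset.card_union_le _ _).trans ?_
    have h1 : (S.biUnion (fun x => c6 x ∪ c6 (D.mt x))).card ≤ S.card * 12 := by
      refine Finset.card_biUnion_le_card_mul _ _ _ fun x _ => ?_
      refine (Finset.card_union_le _ _).trans ?_
      have := hcard6 x
      have := hcard6 (D.mt x)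
      omega
    have h2 : (T0.biUnion c3).card ≤ T0.card * 3 :=
      Finset.card_biUnion_le_card_mul _ _ _ fun x _ => hcard x
    omega

end Pool.Agent.HC
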