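import Mathlib
import Pool.Agent.H32.Hom.Kappa
import Pool.Agent.HC.Deg

/-!
# From the block colours with coincidences to the final block colours
-/

namespace Pool.Agent.HC

open Pool.Agent.H32.Hom

variable {U : Type}

theorem kappa_of_xi4 [Finite U] {q : ℕ} (D : Dat U) (st : U → U) (pos : U → ℕ)
    (L w : ℕ) (p : U → ℕ) (hS : Sep D L) (hB : Blocks D.f L st pos) (hL : 0 < L)
    (ξ : U → Fin q) (hx : ∀ s, st s = s → ∃ i j, GoodPair4 D st pos w p ξ s i j) :
    ∃ κ : U → Fin q ⊕ Fin (1100 * L + 1),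
      (∀ a b, a ≠ b → Rel4 D st a b → κ a ≠ κ b) ∧
      (∀ s, st s = s → Imp D st pos w p κ s) := by
  classical
  choose T hT hTc using fun x => rel4_finset hB hS hL x
  obtain ⟨φ, hφ⟩ := exists_greedy (Rel4 D st) (fun a b => rel4_symm hS) (1100 * L) T hT hTc
  let κ : U → Fin q ⊕ Fin (1100 * L + 1) := fun a =>
    if ∀ b, b ≠ a → Rel4 D st a b → ξ b ≠ ξ a then Sum.inl (ξ a) else Sum.inr (φ a)
  have hκ : ∀ a b, a ≠ b → Rel4 D st a b → κ a ≠ κ b := by
    intro a b hab hr h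
    simp only [κ] at h
    split_ifs at h with h1 h2
    · exact h1 b (Ne.symm hab) hr (Sum.inl_injective h).symm
    · exact hφ a b hab hr (Sum.inr_injective h)
  have hne : ∀ b z, ξ b ≠ z → κ b ≠ Sum.inl z := by
    intro b z hb h
    simp only [κ] at h
    split_ifs at h with h1
    exact hb (Sum.inl_injective h)
  refine ⟨κ, hκ, ?_⟩
  intro s hs
  obtain ⟨i, j, hg⟩ := hx s hs
  refine ⟨i, j, Sum.inl (ξ (src4 D st pos w p s i)), hg.oi, hg.oj, hg.lt, hg.wi, hg.wj,
    hg.ni, hg.nj, ?_, ?_, ?_⟩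
  · simp only [κ]
    rw [if_pos]
    exact fun b hb hr => hg.ri b hb hr
  · simp only [κ]
    rw [if_pos]
    · rw [hg.eq]
    · intro b hb hr
      rw [hg.eq]
      exact hg.rj b hb hr
  · intro t ht ht'
    refine ⟨fun b hb => hne b _ (hg.mid t ht ht' b hb), ?_⟩
    intro hW y hy hWy hWm
    exact hne _ _ (hg.win t ht ht' hW y hy hWy hWm)

end Pool.Agent.HC
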