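import Mathlib
import Pool.Agent.H16.Cube.Lll
import Pool.Agent.HC.Deg

/-!
# Choice of the windows, by the local lemma
-/

namespace Pool.Agent.HC

open Pool.Agent.H32.Hom Pool.Agent.H16.Cube

variable {U : Type}

/-- The number of functions with prescribed values, up to injections, on the image of a set of
positions. -/
theorem card_prescribed4 [Fintype U] [DecidableEq U] {R : ℕ} (J : Finset ℕ) (b : ℕ → U)
    (hb : Set.InjOn b J) (r : ℕ → ℕ) (e : U → Fin R → ℕ) (he : ∀ v, Function.Injective (e v)) :
    (Finset.univ.filter (fun p : U → Fin R => ∀ t ∈ J, e (b t) (p (b t)) = r t)).card *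
      R ^ J.card ≤ Fintype.card (U → Fin R) := by
  classical
  let S : U → Finset (Fin R) := fun v =>
    if v ∈ J.image b then Finset.univ.filter (fun x : Fin R => ∀ t ∈ J, b t = v → e v x = r t)
    else Finset.univ
  have hsub : (Finset.univ.filter (fun p : U → Fin R => ∀ t ∈ J, e (b t) (p (b t)) = r t)) ⊆
      Fintype.piFinset S := by
    intro p hp
    have hp' := (Finset.mem_filter.mp hp).2
    rw [Fintype.mem_piFinset]
    intro v
    simp only [S]
    split_ifs with hv
    · refine Finset.mem_filter.mpr ⟨Finset.mem_univ _, ?_⟩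
      rintro t ht rfl
      exact hp' t ht
    · exact Finset.mem_univ _
  have hS1 : ∀ v ∈ J.image b, (S v).card ≤ 1 := by
    intro v hv
    simp only [S, if_pos hv]
    obtain ⟨t, ht, rfl⟩ := Finset.mem_image.mp hv
    rw [Finset.card_le_one]
    intro x hx y hy
    have h1 := (Finset.mem_filter.mp hx).2 t ht rfl
    have h2 := (Finset.mem_filter.mp hy).2 t ht rfl
    exact he _ (h1.trans h2.symm)
  have hS2 : ∀ v ∉ J.image b, (S v).card = R := by
    intro v hv
    simp only [S, if_neg hv, Finset.card_univ, Fintype.card_fin]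
  have hcard : (Fintype.piFinset S).card ≤ R ^ (Finset.univ \ J.image b).card := by
    rw [Fintype.card_piFinset, ← Finset.prod_sdiff (Finset.subset_univ (J.image b))]
    have h1 : ∏ v ∈ Finset.univ \ J.image b, (S v).card = R ^ (Finset.univ \ J.image b).card := by
      rw [Finset.prod_congr rfl (fun v hv => hS2 v (Finset.mem_sdiff.mp hv).2),
        Finset.prod_const]
    have h2 : ∏ v ∈ J.image b, (S v).card ≤ 1 := Finset.prod_le_one' hS1
    rw [h1]
    exact (Nat.mul_le_mul_left _ h2).trans (by rw [mul_one])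
  have hJ : (J.image b).card = J.card := Finset.card_image_of_injOn hb
  have hsum : (Finset.univ \ J.image b).card + J.card = Fintype.card U := by
    rw [← hJ, Finset.card_sdiff_add_card_eq_card (Finset.subset_univ _), Finset.card_univ]
  calc _ ≤ (Fintype.piFinset S).card * R ^ J.card :=
        Nat.mul_le_mul_right _ (Finset.card_le_card hsub)
    _ ≤ R ^ (Finset.univ \ J.image b).card * R ^ J.card := Nat.mul_le_mul_right _ hcard
    _ = Fintype.card (U → Fin R) := by
        rw [← pow_add, hsum]; simp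

/-- Admissible windows: an injection into the numbers of the windows without bad positions. -/
theorem exists_admissible {D : Dat U} {L : ℕ} (w R : ℕ) (hS : Sep D L) (hL : w * (2 * R) < L)
    (hw : 0 < w) (hR : 21 ≤ R) (s : U) :
    ∃ e : Fin R → ℕ, Function.Injective e ∧ (∀ r, e r < 2 * R) ∧
      ∀ r, ∀ t : ℕ, t / w = e r → ¬ Bad D L ((D.f ^ t) s) := by
  classical
  obtain ⟨T, hT, hTc⟩ := hS.bc s
  have h1 : R ≤ (Finset.range (2 * R) \ T.image (fun t => t / w)).card := by
    have h2 := Finset.le_card_sdiff (T.image (fun t => t / w)) (Finset.range (2 * R))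
    have h3 : (T.image (fun t => t / w)).card ≤ T.card := Finset.card_image_le
    rw [Finset.card_range] at h2
    omega
  obtain ⟨W, hW, hWc⟩ := Finset.exists_subset_card_eq h1
  refine ⟨fun r => W.orderEmbOfFin hWc r, ?_, ?_, ?_⟩
  · exact (W.orderEmbOfFin hWc).injective
  · intro r
    have h2 := hW (Finset.orderEmbOfFin_mem W hWc r)
    exact Finset.mem_range.mp (Finset.mem_sdiff.mp h2).1
  · intro r t ht hbad
    have h2 := Finset.mem_sdiff.mp (hW (Finset.orderEmbOfFin_mem W hWc r))
    have h3 : t / w < 2 * R := by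
      rw [ht]; exact Finset.mem_range.mp h2.1
    have h4 : t < w * (2 * R) := by
      rw [mul_comm]; exact (Nat.div_lt_iff_lt_mul hw).mp h3
    apply h2.2
    exact Finset.mem_image.mpr ⟨t, hT t (by omega) hbad, ht⟩

theorem exists_windows4 [Finite U] (D : Dat U) (st : U → U) (pos : U → ℕ)
    (L w R A : ℕ) (hS : Sep D L) (hB : Blocks D.f L st pos) (hL : w * (2 * R) < L)
    (hw : 0 < w) (hR : 21 ≤ R)
    (hnum : 4 * (2 * R) * w.choose A * (1100 * L) ^ 2 ≤ R ^ A) :
    ∃ p : U → ℕ, (∀ s, p s < 2 * R) ∧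
      (∀ s, st s = s → ∀ t : ℕ, t / w = p s → ¬ Bad D L ((D.f ^ t) s)) ∧
      ∀ s, st s = s → ∀ J : Finset ℕ,
        (∀ t ∈ J, t / w = p s ∧ Win st pos w p (D.mt ((D.f ^ t) s))) → J.card < A := by
  classical
  have : Fintype U := Fintype.ofFinite U
  have : Nonempty (Fin R) := ⟨⟨0, by omega⟩⟩
  have hL0 : 0 < L := by omega
  choose T hT hTc using fun x => rel4_finset hB hS hL0 x
  choose e he1 he2 he3 using fun s => exists_admissible w R hS hL hw hR s
  -- the events
  let E : U → Finset (U → Fin R) := fun s =>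
    Finset.univ.filter (fun q => st s = s ∧ ∃ J : Finset ℕ, J.card = A ∧
      ∀ t ∈ J, t / w = e s (q s) ∧ pos (D.mt ((D.f ^ t) s)) / w =
        e (st (D.mt ((D.f ^ t) s))) (q (st (D.mt ((D.f ^ t) s)))))
  let S : U → Finset U := fun s => Finset.univ.filter (fun b => Rel4 D st s b)
  have hltL : ∀ t r : ℕ, t / w = r → r < 2 * R → t < L := by
    intro t r h1 h2
    have h4 : t < w * (2 * R) := by
      rw [mul_comm]; exact (Nat.div_lt_iff_lt_mul hw).mp (by rw [h1]; exact h2)
    omega
  have hdep : ∀ s, DependsOn (E s) (S s) := by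
    intro s p p' h hp
    simp only [E, Finset.mem_filter, Finset.mem_univ, true_and] at hp ⊢
    obtain ⟨hs, J, hJ, hJt⟩ := hp
    refine ⟨hs, J, hJ, ?_⟩
    intro t ht
    obtain ⟨h1, h2⟩ := hJt t ht
    have htL : t < L := hltL t _ h1 (he2 _ _)
    have hst : In4 D st ((D.f ^ t) s) s := Or.inl (Or.inl (hB.st_pow hs htL).symm)
    have hss : p s = p' s :=
      h s (Finset.mem_filter.mpr ⟨Finset.mem_univ _, Or.inl ⟨_, hst, Or.inl hst⟩⟩)
    have hst' : p (st (D.mt ((D.f ^ t) s))) = p' (st (D.mt ((D.f ^ t) s))) :=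
      h _ (Finset.mem_filter.mpr ⟨Finset.mem_univ _,
        Or.inl ⟨_, hst, Or.inr (Or.inl (Or.inl rfl))⟩⟩)
    rw [← hss, ← hst']
    exact ⟨h1, h2⟩
  have hD : ∀ y, (Finset.univ.filter (fun z => z ≠ y ∧ ¬ Disjoint (S y) (S z))).card ≤
      (1100 * L) ^ 2 := by
    intro y
    have hsub : (Finset.univ.filter (fun z => z ≠ y ∧ ¬ Disjoint (S y) (S z))) ⊆
        (T y).biUnion T := by
      intro z hz
      obtain ⟨_, hz2⟩ := (Finset.mem_filter.mp hz).2
      obtain ⟨b, hb1, hb2⟩ := Finset.not_disjoint_iff.mp hz2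
      exact Finset.mem_biUnion.mpr ⟨b, hT _ _ (Finset.mem_filter.mp hb1).2,
        hT _ _ (rel4_symm hS (Finset.mem_filter.mp hb2).2)⟩
    refine (Finset.card_le_card hsub).trans ?_
    refine (Finset.card_biUnion_le_card_mul _ _ (1100 * L) (fun x _ => hTc x)).trans ?_
    rw [pow_two]; exact Nat.mul_le_mul_right _ (hTc y)
  have hEn : ∀ s, (E s).card * R ^ A ≤ (2 * R) * w.choose A * Fintype.card (U → Fin R) := by
    intro s
    by_cases hs : st s = s
    · let P : ℕ → Finset ℕ → Finset (U → Fin R) := fun r J =>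
        Finset.univ.filter (fun q : U → Fin R => ∀ t ∈ J,
          e (st (D.mt ((D.f ^ t) s))) (q (st (D.mt ((D.f ^ t) s)))) =
            pos (D.mt ((D.f ^ t) s)) / w)
      let Q : Finset ℕ := (Finset.range (2 * R)).filter
        (fun r => ∀ t : ℕ, t / w = r → ¬ Bad D L ((D.f ^ t) s))
      have hsub : E s ⊆ Q.biUnion (fun r =>
          (Finset.powersetCard A (Finset.Ico (w * r) (w * r + w))).biUnion (fun J => P r J)) := by
        intro p hp
        obtain ⟨_, J, hJ, hJt⟩ := (Finset.mem_filter.mp hp).2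
        refine Finset.mem_biUnion.mpr ⟨e s (p s), Finset.mem_filter.mpr
          ⟨Finset.mem_range.mpr (he2 _ _), he3 s (p s)⟩, ?_⟩
        refine Finset.mem_biUnion.mpr ⟨J, Finset.mem_powersetCard.mpr ⟨?_, hJ⟩, ?_⟩
        · intro t ht
          have h1 := (hJt t ht).1
          have h2 : t < w * (e s (p s) + 1) := by rw [← h1]; exact Nat.lt_mul_div_succ t hw
          have h3 : w * e s (p s) ≤ t := by rw [← h1]; exact Nat.mul_div_le t w
          have h4 : w * (e s (p s) + 1) = w * e s (p s) + w := by ring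
          exact Finset.mem_Ico.mpr ⟨h3, by omega⟩
        · refine Finset.mem_filter.mpr ⟨Finset.mem_univ _, fun t ht => ?_⟩
          exact ((hJt t ht).2).symm
      have hPc : ∀ r ∈ Q, ∀ J ∈ Finset.powersetCard A
          (Finset.Ico (w * r) (w * r + w)), (P r J).card * R ^ A ≤
          Fintype.card (U → Fin R) := by
        intro r hr J hJ
        obtain ⟨hr1, hr2⟩ := Finset.mem_filter.mp hr
        have hr3 := Finset.mem_range.mp hr1
        obtain ⟨hJ1, hJ2⟩ := Finset.mem_powersetCard.mp hJ
        have hdiv : ∀ t ∈ J, t / w = r := by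
          intro t ht
          have h2 := Finset.mem_Ico.mp (hJ1 ht)
          have h3 : r * w ≤ t := by rw [mul_comm]; exact h2.1
          have h4 : t < (r + 1) * w := by
            have h5 : (r + 1) * w = w * r + w := by ring
            omega
          exact Nat.div_eq_of_lt_le h3 h4
        have hlt : ∀ t ∈ J, t < L := fun t ht => hltL t r (hdiv t ht) hr3
        have h1 := card_prescribed4 (R := R) J (fun t => st (D.mt ((D.f ^ t) s))) (by
          intro t ht t' ht' h
          by_contra hne
          exact in4_ne hB hS hL0 (hlt t ht) (hlt t' ht') hne (hr2 t (hdiv t ht))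
            (hr2 t' (hdiv t' ht')) (Or.inl (Or.inl rfl)) (Or.inl (Or.inl rfl)) h)
          (fun t => pos (D.mt ((D.f ^ t) s)) / w) e he1
        rwa [hJ2] at h1
      have hQc : Q.card ≤ 2 * R := by
        have h1 := Finset.card_filter_le (Finset.range (2 * R))
          (fun r => ∀ t : ℕ, t / w = r → ¬ Bad D L ((D.f ^ t) s))
        rwa [Finset.card_range] at h1
      calc (E s).card * R ^ A ≤ (Q.biUnion (fun r =>
            (Finset.powersetCard A (Finset.Ico (w * r) (w * r + w))).biUnion
              (fun J => P r J))).card * R ^ A :=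
            Nat.mul_le_mul_right _ (Finset.card_le_card hsub)
        _ ≤ (∑ r ∈ Q, ∑ J ∈ Finset.powersetCard A
              (Finset.Ico (w * r) (w * r + w)), (P r J).card) * R ^ A := by
            refine Nat.mul_le_mul_right _ (Finset.card_biUnion_le.trans ?_)
            exact Finset.sum_le_sum (fun r _ => Finset.card_biUnion_le)
        _ = ∑ r ∈ Q, ∑ J ∈ Finset.powersetCard A
              (Finset.Ico (w * r) (w * r + w)), (P r J).card * R ^ A := by
            rw [Finset.sum_mul]
            exact Finset.sum_congr rfl (fun r _ => by rw [Finset.sum_mul])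
        _ ≤ ∑ r ∈ Q, ∑ _J ∈ Finset.powersetCard A
              (Finset.Ico (w * r) (w * r + w)), Fintype.card (U → Fin R) :=
            Finset.sum_le_sum (fun r hr => Finset.sum_le_sum (fun J hJ => hPc r hr J hJ))
        _ = Q.card * (w.choose A * Fintype.card (U → Fin R)) := by
            simp only [Finset.sum_const, Finset.card_powersetCard, Nat.card_Ico,
              smul_eq_mul, Nat.add_sub_cancel_left]
        _ ≤ (2 * R) * (w.choose A * Fintype.card (U → Fin R)) :=
            Nat.mul_le_mul_right _ hQc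
        _ = (2 * R) * w.choose A * Fintype.card (U → Fin R) := by ring
    · have : E s = ∅ := by
        apply Finset.filter_eq_empty_iff.mpr
        intro p _ h
        exact hs h.1
      rw [this]; simp
  -- the bound as a real number
  have hRp : (0 : ℝ) < (R : ℝ) := by
    have : 0 < R := by omega
    exact_mod_cast this
  have hRA : (0 : ℝ) < (R : ℝ) ^ A := by positivity
  have hEc : ∀ y, ((E y).card : ℝ) ≤ (2 * R * w.choose A / (R : ℝ) ^ A) *
      Fintype.card (U → Fin R) := by
    intro y
    have h1 : ((E y).card : ℝ) * (R : ℝ) ^ A ≤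
        2 * R * w.choose A * Fintype.card (U → Fin R) := by
      exact_mod_cast hEn y
    rw [div_mul_eq_mul_div, le_div_iff₀ hRA]
    exact h1
  have hq0 : (0 : ℝ) ≤ 2 * R * w.choose A / (R : ℝ) ^ A := by positivity
  have h4 : 4 * ((2 * R * w.choose A / (R : ℝ) ^ A)) * ((1100 * L) ^ 2 : ℕ) ≤ 1 := by
    have h1 : (4 : ℝ) * (2 * R) * w.choose A * (1100 * L) ^ 2 ≤ (R : ℝ) ^ A := by
      exact_mod_cast hnum
    push_cast
    rw [mul_div_assoc', div_mul_eq_mul_div, div_le_one hRA]
    linarith
  have hL1 : (1 : ℝ) ≤ ((1100 * L) ^ 2 : ℕ) := by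
    have : 1 ≤ (1100 * L) ^ 2 := Nat.one_le_pow _ _ (by omega)
    exact_mod_cast this
  have hq1 : 4 * (2 * R * w.choose A / (R : ℝ) ^ A) ≤ 1 := by nlinarith
  have hlll := lll hdep hq0 hEc hD h4 (by linarith)
  have hpos : (0 : ℝ) < (1 - 2 * (2 * R * w.choose A / (R : ℝ) ^ A)) ^ Fintype.card U *
      Fintype.card (U → Fin R) := by
    have h1 : (0 : ℝ) < 1 - 2 * (2 * R * w.choose A / (R : ℝ) ^ A) := by linarith
    have h2 : (0 : ℝ) < Fintype.card (U → Fin R) := by exact_mod_cast Fintype.card_pos
    positivity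
  have hne : 0 < (avoid E Finset.univ).card := by exact_mod_cast lt_of_lt_of_le hpos hlll
  obtain ⟨q, hq⟩ := Finset.card_pos.mp hne
  refine ⟨fun v => e v (q v), fun s => he2 _ _, fun s _ => he3 s (q s), ?_⟩
  intro s hs J hJ
  by_contra hcon
  push Not at hcon
  obtain ⟨J', hJ'1, hJ'2⟩ := Finset.exists_subset_card_eq hcon
  have h5 := (Finset.mem_filter.mp hq).2 s (Finset.mem_univ s)
  exact h5 (Finset.mem_filter.mpr ⟨Finset.mem_univ _, hs, J', hJ'2,
    fun t ht => hJ t (hJ'1 ht)⟩)

end Pool.Agent.HC
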