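import Mathlib
import Pool.Agent.HC.BlockEx
import Pool.Agent.HC.Windows
import Pool.Agent.HC.Xi
import Pool.Agent.HC.Kappa
import Pool.Agent.HC.Colour
import Pool.Agent.HC.Numbers

/-!
# The core
-/

namespace Pool.Agent.HC

open Pool.Agent.H32.Hom

theorem Out.map {U C C' : Type} {D : Dat U} {c : U → C} (h : Out D c) {φ : C → C'}
    (hφ : Function.Injective φ) : Out D (fun v => φ (c v)) where
  hom := by
    intro v hv hv'
    obtain ⟨h1, h2, h3⟩ := h.hom v hv hv'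
    refine ⟨fun h => h1 (hφ h), fun h => h2 (hφ h), ?_⟩
    rcases h3 with h | h | h
    · exact Or.inl ⟨congrArg φ h.1, fun h' => h.2 (hφ h')⟩
    · exact Or.inr (Or.inl ⟨congrArg φ h.1, fun h' => h.2 (hφ h')⟩)
    · exact Or.inr (Or.inr ⟨congrArg φ h.1, fun h' => h.2 (hφ h')⟩)
  e := by
    intro v hv
    obtain ⟨h1, h2⟩ := h.e v hv
    exact ⟨congrArg φ h1, fun h => h2 (hφ h)⟩
  sp := by
    intro p hp
    obtain ⟨h1, h2, h3, h4, h5, h6⟩ := h.sp p hp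
    exact ⟨congrArg φ h1, fun h => h2 (hφ h), fun h => h3 (hφ h), fun h => h4 (hφ h),
      fun h => h5 (hφ h), congrArg φ h6⟩
  x := by
    intro a b hX a' b' ha hb h'
    exact h.x a b hX a' b' ha hb (hφ h')

theorem core : ∃ L k : ℕ, 0 < L ∧ ∀ (U : Type) [Finite U] (D : Dat U), Sep D L →
    ∃ c : U → Fin k, Out D c := by
  obtain ⟨m, G, R, A, hm, hG, hR, hA, h1, h2, h3⟩ := exists_numbers4
  set w := 4 * m * G with hw
  set L := w * (2 * R) + 1 with hL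
  have hm0 : 0 < m := by omega
  have hw4 : 4 ≤ w := by
    have h4 : 16 * 1 ≤ m * G := Nat.mul_le_mul hm hG
    have h5 : w = 4 * (m * G) := by rw [hw]; ring
    omega
  have hw0 : 0 < w := by omega
  have hLodd : Odd L := ⟨w * R, by rw [hL]; ring⟩
  have hL0 : 0 < L := by omega
  have hwL : w * (2 * R) < L := by omega
  refine ⟨L, m ^ 2 + (1100 * L + 1), hL0, ?_⟩
  intro U _ D hS
  have hcyc : ∀ (v : U) (k : ℕ), 0 < k → k < 3 * L → (D.f ^ k) v ≠ v := by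
    intro v k hk hk3
    have := hS.w0 v (k : ℤ) (by omega) (by rw [abs_of_nonneg (by omega)]; omega)
    simpa using this
  have hSp : ∀ p ∈ D.Sp, ∀ k : ℕ, 0 < k → k < 3 * L → (D.f ^ k) p ∉ D.Sp := by
    intro p hp k hk hk3 hpk
    have h4 := hS.x3 p (D.u p) _ _ (hS.s2 p hp) (hS.s2 _ hpk) (k : ℤ)
      (by rw [abs_of_nonneg (by omega)]; omega) (zpow_natCast D.f k ▸ rfl)
    exact hcyc p k hk hk3 h4.symm
  obtain ⟨st, pos, hB, hst⟩ := exists_blocks_sp D.f L hLodd hcyc D.Sp hSp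
  obtain ⟨p, hp, hpb, hwin⟩ := exists_windows4 D st pos L w R A hS hB hwL hw0 hR h3
  obtain ⟨ξ, hξ⟩ := exists_xi4 D st pos L w (2 * R) A m G hS hB hwL hw hG hm hA h1 h2 p hp hpb
    hwin
  obtain ⟨κ, hκ1, hκ2⟩ := kappa_of_xi4 D st pos L w p hS hB hL0 ξ hξ
  obtain ⟨c, hc⟩ := out_of_data D st pos L w (2 * R) p hS hB hst hwL hw4 hp hpb κ hκ1 hκ2
  exact ⟨_, hc.map (finSumFinEquiv : Fin (m ^ 2) ⊕ Fin (1100 * L + 1) ≃ _).injective⟩

end Pool.Agent.HC
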