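import Mathlib
import Pool.Agent.H32.Hom.Main
import Pool.Agent.HC.Core
import Pool.Agent.HC.Bc
import Pool.Agent.HC.Assemble

/-!
# Locally unicyclic cubic graphs with a perfect matching
-/

namespace Pool.Agent.HC

open Pool.Agent.H32.Hom

theorem main_local : ∃ N k : ℕ, ∀ (V : Type) [Finite V] (G : SimpleGraph V),
    (∀ v : V, (G.neighborSet v).ncard = 3) → (∃ M : G.Subgraph, M.IsPerfectMatching) →
    Sparse G N →
    ∃ c : V → Fin k, (∀ u v : V, G.Adj u v → c u ≠ c v) ∧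
      ∀ v : V, (c '' G.neighborSet v).ncard = 2 := by
  obtain ⟨L, k, hL, hcore⟩ := core
  refine ⟨2000 * L, k + 2, ?_⟩
  rintro V _ G h3 ⟨M, hM⟩ hs
  obtain ⟨f, mt, hd⟩ := exists_desc G h3 M hM
  obtain ⟨D, hl⟩ := exists_link (n := 100 * L) hd hs (by omega)
  have hS := sep_of_link hd hL hs hl
  obtain ⟨c, hc⟩ := hcore _ D hS
  obtain ⟨c', hc'⟩ := colour_of_out hd hs (by omega) hl c hc
  have hφ : Function.Injective (finSumFinEquiv : Fin k ⊕ Fin 2 ≃ _) := finSumFinEquiv.injective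
  refine ⟨fun v => finSumFinEquiv (c' v), homog_spec hd ?_⟩
  intro v
  obtain ⟨h1, h2, h3⟩ := hc' v
  refine ⟨fun h => h1 (hφ h), fun h => h2 (hφ h), ?_⟩
  rcases h3 with h | h | h
  · exact Or.inl ⟨congrArg finSumFinEquiv h.1, fun h' => h.2 (hφ h')⟩
  · exact Or.inr (Or.inl ⟨congrArg finSumFinEquiv h.1, fun h' => h.2 (hφ h')⟩)
  · exact Or.inr (Or.inr ⟨congrArg finSumFinEquiv h.1, fun h' => h.2 (hφ h')⟩)

end Pool.Agent.HC
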