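import Mathlib
import Pool.Agent.HC.GDefs

/-!
# Counting labelled cubic graphs by switchings: definitions
-/

namespace Pool.Agent.HC

variable {V : Type}

/-- The switching: the edges `u v` and `x y` are replaced by `u x` and `v y`. -/
def sw (G : SimpleGraph V) (u v x y : V) : SimpleGraph V :=
  SimpleGraph.fromEdgeSet ((G.edgeSet \ {s(u, v), s(x, y)}) ∪ {s(u, x), s(v, y)})

/-- The two edges `u v` and `x y` are disjoint and not joined by an edge. -/
def Farr (G : SimpleGraph V) (u v x y : V) : Prop :=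
  u ≠ x ∧ u ≠ y ∧ v ≠ x ∧ v ≠ y ∧ ¬ G.Adj u x ∧ ¬ G.Adj u y ∧ ¬ G.Adj v x ∧ ¬ G.Adj v y

/-- One of the two switchings stays in the class. -/
def SwOK (K : Set (SimpleGraph V)) : Prop :=
  ∀ G ∈ K, ∀ u v x y : V, G.Adj u v → G.Adj x y → Farr G u v x y →
    sw G u v x y ∈ K ∨ sw G u v y x ∈ K

/-- All graphs of the class are cubic. -/
def Cub (K : Set (SimpleGraph V)) : Prop := ∀ G ∈ K, ∀ v, (G.neighborSet v).ncard = 3

/-- The graphs of the class which contain all edges of `E`. -/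
def Con (K : Set (SimpleGraph V)) (E : Finset (Sym2 V)) : Set (SimpleGraph V) :=
  {G | G ∈ K ∧ ∀ e ∈ E, e ∈ G.edgeSet}

/-- The number of edges between `A` and `B`, as ordered pairs. -/
noncomputable def bd (G : SimpleGraph V) (A B : Set V) : ℕ :=
  {q : V × V | q.1 ∈ A ∧ q.2 ∈ B ∧ G.Adj q.1 q.2}.ncard

/-- The connected bridgeless cubic graphs on `V`. -/
def CB (V : Type) : Set (SimpleGraph V) :=
  {G | G.Connected ∧ (∀ v, (G.neighborSet v).ncard = 3) ∧ ∀ e ∈ G.edgeSet, ¬ G.IsBridge e}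

end Pool.Agent.HC
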