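import Mathlib
import Pool.Agent.HC.RDefs

/-!
# Connected bridgeless graphs and cuts
-/

namespace Pool.Agent.HC

variable {V : Type}

theorem two_le_cut [Finite V] {G : SimpleGraph V} (hG : G.Connected)
    (hb : ∀ e ∈ G.edgeSet, ¬ G.IsBridge e) (A : Set V) (hA : A.Nonempty) (hA' : A ≠ Set.univ) :
    2 ≤ bd G A Aᶜ := by
  classical
  obtain ⟨u, hu⟩ := hA
  obtain ⟨w, hw⟩ := (Set.ne_univ_iff_exists_notMem A).mp hA'
  obtain ⟨p⟩ := hG.preconnected u w
  obtain ⟨d, -, hd1, hd2⟩ := p.exists_boundary_dart A hu hw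
  set a := d.fst with ha
  set b := d.snd with hbd
  have hab : G.Adj a b := d.adj
  by_contra hlt
  have hle : {q : V × V | q.1 ∈ A ∧ q.2 ∈ Aᶜ ∧ G.Adj q.1 q.2}.ncard ≤ 1 := by
    unfold bd at hlt
    omega
  have huniq : ∀ x y : V, x ∈ A → y ∉ A → G.Adj x y → x = a ∧ y = b := by
    intro x y hx hy hxy
    have h1 : ((x, y) : V × V) = (a, b) :=
      (Set.ncard_le_one (Set.toFinite _)).mp hle (x, y) ⟨hx, hy, hxy⟩ (a, b) ⟨hd1, hd2, hab⟩
    exact ⟨congrArg Prod.fst h1, congrArg Prod.snd h1⟩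
  apply hb s(a, b) hab
  rw [SimpleGraph.isBridge_iff]
  intro hr
  obtain ⟨p'⟩ := hr
  obtain ⟨d', -, h1, h2⟩ := p'.exists_boundary_dart A hd1 hd2
  have h3 := d'.adj
  rw [SimpleGraph.deleteEdges_adj] at h3
  obtain ⟨h4, h5⟩ := huniq _ _ h1 h2 h3.1
  apply h3.2
  rw [h4, h5]
  exact rfl

theorem conn_of_cut [Finite V] [Nonempty V] {G : SimpleGraph V}
    (h : ∀ A : Set V, A.Nonempty → A ≠ Set.univ → 2 ≤ bd G A Aᶜ) :
    G.Connected ∧ ∀ e ∈ G.edgeSet, ¬ G.IsBridge e := by
  classical
  constructor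
  · refine ⟨fun u v => ?_⟩
    by_contra hv
    have hA : ({x | G.Reachable u x} : Set V) ≠ Set.univ := by
      intro he
      have : v ∈ ({x | G.Reachable u x} : Set V) := he ▸ Set.mem_univ v
      exact hv this
    have h2 := h {x | G.Reachable u x} ⟨u, SimpleGraph.Reachable.refl u⟩ hA
    have hne : {q : V × V | q.1 ∈ ({x | G.Reachable u x} : Set V) ∧
        q.2 ∈ ({x | G.Reachable u x} : Set V)ᶜ ∧ G.Adj q.1 q.2}.Nonempty := by
      rw [Set.nonempty_iff_ne_empty]
      intro he
      unfold bd at h2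
      rw [he, Set.ncard_empty] at h2
      omega
    obtain ⟨⟨x, y⟩, hx, hy, hxy⟩ := hne
    exact hy (SimpleGraph.Reachable.trans hx hxy.reachable)
  · intro e he
    induction e using Sym2.ind with
    | _ a b =>
      intro hbr
      rw [SimpleGraph.isBridge_iff] at hbr
      set G' := G.deleteEdges {s(a, b)} with hG'
      have hnr : ¬ G'.Reachable a b := hbr
      have hA : ({x | G'.Reachable a x} : Set V) ≠ Set.univ := by
        intro he
        have : b ∈ ({x | G'.Reachable a x} : Set V) := he ▸ Set.mem_univ b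
        exact hnr this
      have h2 := h {x | G'.Reachable a x} ⟨a, SimpleGraph.Reachable.refl a⟩ hA
      have hsub : {q : V × V | q.1 ∈ ({x | G'.Reachable a x} : Set V) ∧
          q.2 ∈ ({x | G'.Reachable a x} : Set V)ᶜ ∧ G.Adj q.1 q.2} ⊆ {(a, b)} := by
        rintro ⟨x, y⟩ ⟨hx, hy, hxy⟩
        by_cases hs : s(x, y) = s(a, b)
        · rcases Sym2.eq_iff.mp hs with ⟨h3, h4⟩ | ⟨h3, h4⟩
          · exact Prod.ext h3 h4
          · exfalso
            apply hnr
            have : G'.Reachable a x := hx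
            rw [h3] at this
            exact this
        · exfalso
          apply hy
          have hadj : G'.Adj x y := by
            rw [hG', SimpleGraph.deleteEdges_adj]
            exact ⟨hxy, fun h5 => hs h5⟩
          exact SimpleGraph.Reachable.trans hx hadj.reachable
      have h6 := Set.ncard_le_ncard hsub (Set.finite_singleton _)
      rw [Set.ncard_singleton] at h6
      unfold bd at h2
      omega

end Pool.Agent.HC
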