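import Mathlib
import Pool.Agent.HC.RDefs

/-!
# Crossing small cuts
-/

namespace Pool.Agent.HC

variable {V : Type}

theorem bd_symm [Finite V] (G : SimpleGraph V) (A B : Set V) : bd G A B = bd G B A := by
  unfold bd
  rw [← Set.ncard_image_of_injective _ (Prod.swap_injective (α := V) (β := V))]
  congr 1
  ext ⟨a, b⟩
  simp only [Set.mem_image, Set.mem_ofPred_eq, Prod.exists, Prod.swap_prod_mk, Prod.mk.injEq]
  constructor
  · rintro ⟨c, d, ⟨h1, h2, h3⟩, rfl, rfl⟩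
    exact ⟨h2, h1, h3.symm⟩
  · rintro ⟨h1, h2, h3⟩
    exact ⟨b, a, ⟨h2, h1, h3.symm⟩, rfl, rfl⟩

theorem bd_union_right [Finite V] (G : SimpleGraph V) (A B C : Set V) (h : Disjoint B C) :
    bd G A (B ∪ C) = bd G A B + bd G A C := by
  unfold bd
  rw [← Set.ncard_union_eq ?_ (Set.toFinite _) (Set.toFinite _)]
  · congr 1
    ext ⟨a, b⟩
    simp only [Set.mem_union, Set.mem_ofPred_eq]
    tauto
  · rw [Set.disjoint_left]
    rintro ⟨a, b⟩ ⟨-, h2, -⟩ ⟨-, h3, -⟩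
    exact Set.disjoint_left.1 h h2 h3

theorem bd_union_left [Finite V] (G : SimpleGraph V) (A B C : Set V) (h : Disjoint A B) :
    bd G (A ∪ B) C = bd G A C + bd G B C := by
  rw [bd_symm, bd_union_right G C A B h, bd_symm G C A, bd_symm G C B]

theorem one_le_bd [Finite V] (G : SimpleGraph V) (A B : Set V) {u v : V} (hu : u ∈ A)
    (hv : v ∈ B) (h : G.Adj u v) : 1 ≤ bd G A B := by
  unfold bd
  rw [Nat.one_le_iff_ne_zero, Ne, Set.ncard_eq_zero (Set.toFinite _)]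
  intro h0
  have h1 : (u, v) ∈ {q : V × V | q.1 ∈ A ∧ q.2 ∈ B ∧ G.Adj q.1 q.2} := ⟨hu, hv, h⟩
  rw [h0] at h1
  exact h1

/-- Two small cuts which separate the two edges in the two different ways do not exist. -/
theorem no_cross [Finite V] {G : SimpleGraph V} {u v x y : V} (huv : G.Adj u v) (hxy : G.Adj x y)
    (h2 : ∀ A : Set V, A.Nonempty → A ≠ Set.univ → 2 ≤ bd G A Aᶜ) (A B : Set V)
    (hA : bd G A Aᶜ ≤ 3) (hB : bd G B Bᶜ ≤ 3) (huA : u ∈ A) (hxA : x ∈ A) (hvA : v ∉ A)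
    (hyA : y ∉ A) (huB : u ∈ B) (hyB : y ∈ B) (hvB : v ∉ B) (hxB : x ∉ B) : False := by
  obtain ⟨P1, hP1⟩ : ∃ P : Set V, P = {z | z ∈ A ∧ z ∈ B} := ⟨_, rfl⟩
  obtain ⟨P2, hP2⟩ : ∃ P : Set V, P = {z | z ∈ A ∧ z ∉ B} := ⟨_, rfl⟩
  obtain ⟨P3, hP3⟩ : ∃ P : Set V, P = {z | z ∉ A ∧ z ∈ B} := ⟨_, rfl⟩
  obtain ⟨P4, hP4⟩ : ∃ P : Set V, P = {z | z ∉ A ∧ z ∉ B} := ⟨_, rfl⟩
  have m1 : ∀ z, z ∈ P1 ↔ z ∈ A ∧ z ∈ B := fun z => by rw [hP1]; rfl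
  have m2 : ∀ z, z ∈ P2 ↔ z ∈ A ∧ z ∉ B := fun z => by rw [hP2]; rfl
  have m3 : ∀ z, z ∈ P3 ↔ z ∉ A ∧ z ∈ B := fun z => by rw [hP3]; rfl
  have m4 : ∀ z, z ∈ P4 ↔ z ∉ A ∧ z ∉ B := fun z => by rw [hP4]; rfl
  clear hP1 hP2 hP3 hP4
  have d12 : Disjoint P1 P2 := Set.disjoint_left.2 fun z h h' =>
    ((m2 z).1 h').2 ((m1 z).1 h).2
  have d13 : Disjoint P1 P3 := Set.disjoint_left.2 fun z h h' =>
    ((m3 z).1 h').1 ((m1 z).1 h).1
  have d14 : Disjoint P1 P4 := Set.disjoint_left.2 fun z h h' =>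
    ((m4 z).1 h').1 ((m1 z).1 h).1
  have d23 : Disjoint P2 P3 := Set.disjoint_left.2 fun z h h' =>
    ((m3 z).1 h').1 ((m2 z).1 h).1
  have d24 : Disjoint P2 P4 := Set.disjoint_left.2 fun z h h' =>
    ((m4 z).1 h').1 ((m2 z).1 h).1
  have d34 : Disjoint P3 P4 := Set.disjoint_left.2 fun z h h' =>
    ((m4 z).1 h').2 ((m3 z).1 h).2
  have hu1 : u ∈ P1 := (m1 u).2 ⟨huA, huB⟩
  have hx2 : x ∈ P2 := (m2 x).2 ⟨hxA, hxB⟩
  have hy3 : y ∈ P3 := (m3 y).2 ⟨hyA, hyB⟩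
  have hv4 : v ∈ P4 := (m4 v).2 ⟨hvA, hvB⟩
  have c1 : P1ᶜ = P2 ∪ (P3 ∪ P4) := by
    ext z
    rw [Set.mem_compl_iff, Set.mem_union, Set.mem_union, m1, m2, m3, m4]
    tauto
  have c2 : P2ᶜ = P1 ∪ (P3 ∪ P4) := by
    ext z
    rw [Set.mem_compl_iff, Set.mem_union, Set.mem_union, m1, m2, m3, m4]
    tauto
  have c3 : P3ᶜ = P1 ∪ (P2 ∪ P4) := by
    ext z
    rw [Set.mem_compl_iff, Set.mem_union, Set.mem_union, m1, m2, m3, m4]
    tauto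
  have c4 : P4ᶜ = P1 ∪ (P2 ∪ P3) := by
    ext z
    rw [Set.mem_compl_iff, Set.mem_union, Set.mem_union, m1, m2, m3, m4]
    tauto
  have cA : A = P1 ∪ P2 := by
    ext z
    rw [Set.mem_union, m1, m2]
    tauto
  have cA' : (P1 ∪ P2)ᶜ = P3 ∪ P4 := by
    ext z
    rw [Set.mem_compl_iff, Set.mem_union, Set.mem_union, m1, m2, m3, m4]
    tauto
  have cB : B = P1 ∪ P3 := by
    ext z
    rw [Set.mem_union, m1, m3]
    tauto
  have cB' : (P1 ∪ P3)ᶜ = P2 ∪ P4 := by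
    ext z
    rw [Set.mem_compl_iff, Set.mem_union, Set.mem_union, m1, m2, m3, m4]
    tauto
  have e14 := one_le_bd G P1 P4 hu1 hv4 huv
  have e23 := one_le_bd G P2 P3 hx2 hy3 hxy
  have q1 := h2 P1 ⟨u, hu1⟩ fun h => Set.disjoint_left.1 d12 (h ▸ Set.mem_univ x : x ∈ P1) hx2
  have q2 := h2 P2 ⟨x, hx2⟩ fun h => Set.disjoint_left.1 d12 hu1 (h ▸ Set.mem_univ u : u ∈ P2)
  have q3 := h2 P3 ⟨y, hy3⟩ fun h => Set.disjoint_left.1 d13 hu1 (h ▸ Set.mem_univ u : u ∈ P3)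
  have q4 := h2 P4 ⟨v, hv4⟩ fun h => Set.disjoint_left.1 d14 hu1 (h ▸ Set.mem_univ u : u ∈ P4)
  have d2_34 : Disjoint P2 (P3 ∪ P4) := Set.disjoint_union_right.2 ⟨d23, d24⟩
  have d1_34 : Disjoint P1 (P3 ∪ P4) := Set.disjoint_union_right.2 ⟨d13, d14⟩
  have d1_24 : Disjoint P1 (P2 ∪ P4) := Set.disjoint_union_right.2 ⟨d12, d14⟩
  have d1_23 : Disjoint P1 (P2 ∪ P3) := Set.disjoint_union_right.2 ⟨d12, d13⟩
  rw [c1, bd_union_right G _ _ _ d2_34, bd_union_right G _ _ _ d34] at q1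
  rw [c2, bd_union_right G _ _ _ d1_34, bd_union_right G _ _ _ d34] at q2
  rw [c3, bd_union_right G _ _ _ d1_24, bd_union_right G _ _ _ d24] at q3
  rw [c4, bd_union_right G _ _ _ d1_23, bd_union_right G _ _ _ d23] at q4
  rw [cA, cA', bd_union_left G _ _ _ d12, bd_union_right G _ _ _ d34,
    bd_union_right G _ _ _ d34] at hA
  rw [cB, cB', bd_union_left G _ _ _ d13, bd_union_right G _ _ _ d24,
    bd_union_right G _ _ _ d24] at hB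
  rw [bd_symm G P2 P1] at q2
  rw [bd_symm G P3 P1, bd_symm G P3 P2] at q3
  rw [bd_symm G P4 P1, bd_symm G P4 P2, bd_symm G P4 P3] at q4
  rw [bd_symm G P3 P2] at hB
  omega

end Pool.Agent.HC
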