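import Mathlib
import Pool.Agent.HC.RDefs

/-!
# Basic facts about switchings
-/

namespace Pool.Agent.HC

variable {V : Type} {G : SimpleGraph V} {u v x y : V}

theorem sw_edgeSet (huv : G.Adj u v) (hxy : G.Adj x y) (h : Farr G u v x y) :
    (sw G u v x y).edgeSet = (G.edgeSet \ {s(u, v), s(x, y)}) ∪ {s(u, x), s(v, y)} := by
  have _ := huv
  have _ := hxy
  unfold sw
  rw [SimpleGraph.edgeSet_fromEdgeSet]
  ext e
  rw [Set.mem_sdiff]
  refine ⟨fun he => he.1, fun he => ⟨he, ?_⟩⟩
  intro hd
  rcases he with he | he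
  · exact G.not_isDiag_of_mem_edgeSet he.1 hd
  · rcases he with he | he
    · rw [he] at hd
      exact h.1 hd
    · rw [Set.mem_singleton_iff] at he
      rw [he] at hd
      exact h.2.2.2.1 hd

/-- Adjacency in the switched graph. -/
theorem sw_adj (huv : G.Adj u v) (hxy : G.Adj x y) (h : Farr G u v x y) (a b : V) :
    (sw G u v x y).Adj a b ↔ (G.Adj a b ∧ s(a, b) ≠ s(u, v) ∧ s(a, b) ≠ s(x, y)) ∨
      s(a, b) = s(u, x) ∨ s(a, b) = s(v, y) := by
  rw [← SimpleGraph.mem_edgeSet, sw_edgeSet huv hxy h]
  simp only [Set.mem_union, Set.mem_sdiff, SimpleGraph.mem_edgeSet, Set.mem_insert_iff,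
    Set.mem_singleton_iff, not_or, ne_eq]

theorem sw_edge_iff (huv : G.Adj u v) (hxy : G.Adj x y) (h : Farr G u v x y) (e : Sym2 V) :
    e ∈ G.edgeSet ↔ ((e ∈ (sw G u v x y).edgeSet ∧ e ≠ s(u, x) ∧ e ≠ s(v, y)) ∨
      e = s(u, v) ∨ e = s(x, y)) := by
  rw [sw_edgeSet huv hxy h]
  simp only [Set.mem_union, Set.mem_sdiff, Set.mem_insert_iff, Set.mem_singleton_iff, not_or, ne_eq]
  constructor
  · intro he
    by_cases h1 : e = s(u, v)
    · exact Or.inr (Or.inl h1)
    · by_cases h2 : e = s(x, y)
      · exact Or.inr (Or.inr h2)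
      · refine Or.inl ⟨Or.inl ⟨he, h1, h2⟩, ?_, ?_⟩
        · rintro rfl
          exact h.2.2.2.2.1 he
        · rintro rfl
          exact h.2.2.2.2.2.2.2 he
  · rintro (⟨⟨he, _⟩ | he, h3, h4⟩ | rfl | rfl)
    · exact he
    · rcases he with he | he
      · exact absurd he h3
      · exact absurd he h4
    · exact huv
    · exact hxy

/-- The switching can be undone. -/
theorem sw_back {G' : SimpleGraph V} (huv : G.Adj u v) (hxy : G.Adj x y) (h : Farr G u v x y)
    (huv' : G'.Adj u v) (hxy' : G'.Adj x y) (h' : Farr G' u v x y)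
    (he : sw G u v x y = sw G' u v x y) : G = G' := by
  apply SimpleGraph.edgeSet_injective
  ext e
  rw [sw_edge_iff huv hxy h e, sw_edge_iff huv' hxy' h' e, he]

theorem ncard_swap {S T : Set V} [Finite V] {a b : V} (ha : a ∈ S) (hb : b ∉ S)
    (hT : T = insert b (S \ {a})) : T.ncard = S.ncard := by
  rw [hT, Set.ncard_insert_of_notMem (fun h => hb h.1) (Set.toFinite _),
    Set.ncard_sdiff_singleton_add_one ha (Set.toFinite _)]

theorem sw_cubic [Finite V] (hc : ∀ v, (G.neighborSet v).ncard = 3) (huv : G.Adj u v)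
    (hxy : G.Adj x y) (h : Farr G u v x y) (a : V) :
    ((sw G u v x y).neighborSet a).ncard = 3 := by
  have huv' := huv.ne
  have hxy' := hxy.ne
  have hadj := sw_adj huv hxy h
  obtain ⟨hux, huy, hvx, hvy, nux, nuy, nvx, nvy⟩ := h
  by_cases hau : a = u
  · subst hau
    rw [← hc a]
    refine ncard_swap (a := v) (b := x) huv nux ?_
    ext b
    rw [SimpleGraph.mem_neighborSet, hadj, Set.mem_insert_iff, Set.mem_sdiff,
      SimpleGraph.mem_neighborSet, Set.mem_singleton_iff]
    simp only [ne_eq, Sym2.eq_iff]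
    tauto
  · by_cases hav : a = v
    · subst hav
      rw [← hc a]
      refine ncard_swap (a := u) (b := y) huv.symm nvy ?_
      ext b
      rw [SimpleGraph.mem_neighborSet, hadj, Set.mem_insert_iff, Set.mem_sdiff,
        SimpleGraph.mem_neighborSet, Set.mem_singleton_iff]
      simp only [ne_eq, Sym2.eq_iff]
      tauto
    · by_cases hax : a = x
      · subst hax
        rw [← hc a]
        refine ncard_swap (a := y) (b := u) hxy (fun h => nux (G.adj_symm h)) ?_
        ext b
        rw [SimpleGraph.mem_neighborSet, hadj, Set.mem_insert_iff, Set.mem_sdiff,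
          SimpleGraph.mem_neighborSet, Set.mem_singleton_iff]
        simp only [ne_eq, Sym2.eq_iff]
        tauto
      · by_cases hay : a = y
        · subst hay
          rw [← hc a]
          refine ncard_swap (a := x) (b := v) hxy.symm (fun h => nvy (G.adj_symm h)) ?_
          ext b
          rw [SimpleGraph.mem_neighborSet, hadj, Set.mem_insert_iff, Set.mem_sdiff,
            SimpleGraph.mem_neighborSet, Set.mem_singleton_iff]
          simp only [ne_eq, Sym2.eq_iff]
          tauto
        · rw [← hc a]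
          congr 1
          ext b
          rw [SimpleGraph.mem_neighborSet, hadj, SimpleGraph.mem_neighborSet]
          simp only [ne_eq, Sym2.eq_iff]
          tauto

end Pool.Agent.HC
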