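import Mathlib
import Pool.Agent.HC.SwBasic

/-!
# Small cuts of a switched graph
-/

namespace Pool.Agent.HC

variable {V : Type}

/-- The ordered pairs of the edge `a b` which cross from `A` to the complement. -/
def crs (A : Set V) (a b : V) : Set (V × V) := {q | q.1 ∈ A ∧ q.2 ∈ Aᶜ ∧ s(q.1, q.2) = s(a, b)}

theorem crs_ncard_zero {A : Set V} {a b : V} (h : a ∈ A ↔ b ∈ A) : (crs A a b).ncard = 0 := by
  have h1 : crs A a b = ∅ := by
    ext q
    simp only [crs, Set.mem_ofPred_eq, Set.mem_empty_iff_false, iff_false, not_and,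
      Set.mem_compl_iff, Sym2.eq_iff]
    rintro h1 h2 (⟨h3, h4⟩ | ⟨h3, h4⟩)
    · rw [h3] at h1
      rw [h4] at h2
      exact h2 (h.mp h1)
    · rw [h3] at h1
      rw [h4] at h2
      exact h2 (h.mpr h1)
  rw [h1, Set.ncard_empty]

theorem crs_ncard_one {A : Set V} {a b : V} (h : ¬ (a ∈ A ↔ b ∈ A)) : (crs A a b).ncard = 1 := by
  rw [Set.ncard_eq_one]
  by_cases ha : a ∈ A
  · have hb : b ∉ A := fun hb => h ⟨fun _ => hb, fun _ => ha⟩
    refine ⟨(a, b), ?_⟩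
    ext ⟨q1, q2⟩
    simp only [crs, Set.mem_ofPred_eq, Set.mem_compl_iff, Sym2.eq_iff, Set.mem_singleton_iff,
      Prod.mk.injEq]
    constructor
    · rintro ⟨h1, h2, ⟨h3, h4⟩ | ⟨h3, h4⟩⟩
      · exact ⟨h3, h4⟩
      · rw [h3] at h1
        exact absurd h1 hb
    · rintro ⟨rfl, rfl⟩
      exact ⟨ha, hb, Or.inl ⟨rfl, rfl⟩⟩
  · have hb : b ∈ A := by
      by_contra hb
      exact h ⟨fun h' => absurd h' ha, fun h' => absurd h' hb⟩
    refine ⟨(b, a), ?_⟩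
    ext ⟨q1, q2⟩
    simp only [crs, Set.mem_ofPred_eq, Set.mem_compl_iff, Sym2.eq_iff, Set.mem_singleton_iff,
      Prod.mk.injEq]
    constructor
    · rintro ⟨h1, h2, ⟨h3, h4⟩ | ⟨h3, h4⟩⟩
      · rw [h3] at h1
        exact absurd h1 ha
      · exact ⟨h3, h4⟩
    · rintro ⟨rfl, rfl⟩
      exact ⟨hb, ha, Or.inr ⟨rfl, rfl⟩⟩

theorem crs_disj {A : Set V} {a b c d : V} (h : s(a, b) ≠ s(c, d)) :
    Disjoint (crs A a b) (crs A c d) := by
  rw [Set.disjoint_left]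
  intro q h1 h2
  exact h (h1.2.2.symm.trans h2.2.2)

/-- The crossing pairs of `G` which are not pairs of `u v` or `x y`. -/
def rst (G : SimpleGraph V) (u v x y : V) (A : Set V) : Set (V × V) :=
  {q | q.1 ∈ A ∧ q.2 ∈ Aᶜ ∧ G.Adj q.1 q.2 ∧ s(q.1, q.2) ≠ s(u, v) ∧ s(q.1, q.2) ≠ s(x, y)}

theorem ncard_three [Finite V] {R S T : Set (V × V)} (h1 : Disjoint S T)
    (h2 : Disjoint R (S ∪ T)) : (R ∪ (S ∪ T)).ncard = R.ncard + (S.ncard + T.ncard) := by
  rw [Set.ncard_union_eq h2 (Set.toFinite _) (Set.toFinite _),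
    Set.ncard_union_eq h1 (Set.toFinite _) (Set.toFinite _)]

theorem bd_eq [Finite V] {G : SimpleGraph V} {u v x y : V} (huv : G.Adj u v)
    (hxy : G.Adj x y) (h : Farr G u v x y) (A : Set V) :
    bd G A Aᶜ = (rst G u v x y A).ncard + ((crs A u v).ncard + (crs A x y).ncard) := by
  obtain ⟨hux, huy, hvx, hvy, nux, nuy, nvx, nvy⟩ := h
  rw [← ncard_three]
  · unfold bd
    congr 1
    ext q
    simp only [rst, crs, Set.mem_union, Set.mem_ofPred_eq]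
    constructor
    · rintro ⟨h1, h2, h3⟩
      by_cases h4 : s(q.1, q.2) = s(u, v)
      · exact Or.inr (Or.inl ⟨h1, h2, h4⟩)
      · by_cases h5 : s(q.1, q.2) = s(x, y)
        · exact Or.inr (Or.inr ⟨h1, h2, h5⟩)
        · exact Or.inl ⟨h1, h2, h3, h4, h5⟩
    · rintro (⟨h1, h2, h3, _, _⟩ | ⟨h1, h2, h3⟩ | ⟨h1, h2, h3⟩)
      · exact ⟨h1, h2, h3⟩
      · refine ⟨h1, h2, ?_⟩
        rw [← SimpleGraph.mem_edgeSet, h3]
        exact huv
      · refine ⟨h1, h2, ?_⟩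
        rw [← SimpleGraph.mem_edgeSet, h3]
        exact hxy
  · refine crs_disj ?_
    intro h4
    rw [Sym2.eq_iff] at h4
    tauto
  · rw [Set.disjoint_left]
    rintro q ⟨_, _, _, h4, h5⟩ (h6 | h6)
    · exact h4 h6.2.2
    · exact h5 h6.2.2

theorem bd_sw_eq [Finite V] {G : SimpleGraph V} {u v x y : V} (huv : G.Adj u v)
    (hxy : G.Adj x y) (h : Farr G u v x y) (A : Set V) :
    bd (sw G u v x y) A Aᶜ =
      (rst G u v x y A).ncard + ((crs A u x).ncard + (crs A v y).ncard) := by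
  have hadj := sw_adj huv hxy h
  have huv' := huv.ne
  obtain ⟨hux, huy, hvx, hvy, nux, nuy, nvx, nvy⟩ := h
  rw [← ncard_three]
  · unfold bd
    congr 1
    ext q
    simp only [rst, crs, Set.mem_union, Set.mem_ofPred_eq, hadj]
    tauto
  · refine crs_disj ?_
    intro h4
    rw [Sym2.eq_iff] at h4
    tauto
  · rw [Set.disjoint_left]
    rintro q ⟨_, _, h3, _, _⟩ (h6 | h6)
    · have h7 := h6.2.2
      rw [← SimpleGraph.mem_edgeSet, h7] at h3
      exact nux h3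
    · have h7 := h6.2.2
      rw [← SimpleGraph.mem_edgeSet, h7] at h3
      exact nvy h3

/-- A cut of the switched graph which is too small comes from a small cut which separates the two
edges. -/
theorem small_cut [Finite V] {G : SimpleGraph V} {u v x y : V} (huv : G.Adj u v)
    (hxy : G.Adj x y) (h : Farr G u v x y) (A : Set V) (h2 : 2 ≤ bd G A Aᶜ)
    (hA : bd (sw G u v x y) A Aᶜ ≤ 1) :
    bd G A Aᶜ ≤ 3 ∧ ((u ∈ A ∧ x ∈ A ∧ v ∉ A ∧ y ∉ A) ∨ (u ∉ A ∧ x ∉ A ∧ v ∈ A ∧ y ∈ A)) := by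
  rw [bd_sw_eq huv hxy h] at hA
  rw [bd_eq huv hxy h] at h2 ⊢
  have hc : ∀ a b : V, ((a ∈ A ↔ b ∈ A) ∧ (crs A a b).ncard = 0) ∨
      (¬ (a ∈ A ↔ b ∈ A) ∧ (crs A a b).ncard = 1) := by
    intro a b
    by_cases hab : a ∈ A ↔ b ∈ A
    · exact Or.inl ⟨hab, crs_ncard_zero hab⟩
    · exact Or.inr ⟨hab, crs_ncard_one hab⟩
  rcases hc u v with ⟨h3, h4⟩ | ⟨h3, h4⟩ <;> rcases hc x y with ⟨h5, h6⟩ | ⟨h5, h6⟩ <;>
    rcases hc u x with ⟨h7, h8⟩ | ⟨h7, h8⟩ <;> rcases hc v y with ⟨h9, h10⟩ | ⟨h9, h10⟩ <;>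
    rw [h8, h10] at hA <;> rw [h4, h6] at h2 ⊢ <;>
    by_cases hu : u ∈ A <;> by_cases hv : v ∈ A <;> by_cases hx : x ∈ A <;>
    by_cases hy : y ∈ A <;>
    first
      | (exfalso; omega)
      | (exfalso; tauto)
      | (refine ⟨by omega, ?_⟩; tauto)

end Pool.Agent.HC
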