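import Mathlib
import Pool.Agent.HC.SwCut
import Pool.Agent.HC.NoCross
import Pool.Agent.HC.Cuts

/-!
# Switchings of connected bridgeless cubic graphs
-/

namespace Pool.Agent.HC

variable {V : Type}

theorem farr_swap {G : SimpleGraph V} {u v x y : V} (h : Farr G u v x y) : Farr G u v y x :=
  ⟨h.2.1, h.1, h.2.2.2.1, h.2.2.1, h.2.2.2.2.2.1, h.2.2.2.2.1, h.2.2.2.2.2.2.2,
    h.2.2.2.2.2.2.1⟩

/-- If a switched graph is not in the class, there is a small cut which separates the edges. -/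
theorem cut_of_not_mem [Finite V] {G : SimpleGraph V} (hG : G ∈ CB V) {u v x y : V}
    (huv : G.Adj u v) (hxy : G.Adj x y) (h : Farr G u v x y) (hn : sw G u v x y ∉ CB V) :
    ∃ A : Set V, bd G A Aᶜ ≤ 3 ∧ u ∈ A ∧ x ∈ A ∧ v ∉ A ∧ y ∉ A := by
  have hne : Nonempty V := ⟨u⟩
  have h1 : ¬ ∀ A : Set V, A.Nonempty → A ≠ Set.univ → 2 ≤ bd (sw G u v x y) A Aᶜ := by
    intro hall
    obtain ⟨hc, hb⟩ := conn_of_cut hall
    exact hn ⟨hc, sw_cubic hG.2.1 huv hxy h, hb⟩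
  push Not at h1
  obtain ⟨A, hA, hA', hlt⟩ := h1
  have h2 : 2 ≤ bd G A Aᶜ := two_le_cut hG.1 hG.2.2 A hA hA'
  obtain ⟨h3, h4 | h4⟩ := small_cut huv hxy h A h2 (by omega)
  · exact ⟨A, h3, h4⟩
  · refine ⟨Aᶜ, ?_, h4.1, h4.2.1, ?_, ?_⟩
    · rw [compl_compl, bd_symm]
      exact h3
    · rw [Set.mem_compl_iff, not_not]
      exact h4.2.2.1
    · rw [Set.mem_compl_iff, not_not]
      exact h4.2.2.2

theorem swOK_CB (V : Type) [Finite V] : SwOK (CB V) := by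
  intro G hG u v x y huv hxy h
  by_contra hcon
  rw [not_or] at hcon
  obtain ⟨A, hA, huA, hxA, hvA, hyA⟩ := cut_of_not_mem hG huv hxy h hcon.1
  obtain ⟨B, hB, huB, hyB, hvB, hxB⟩ := cut_of_not_mem hG huv hxy.symm (farr_swap h) hcon.2
  exact no_cross huv hxy (fun A hA hA' => two_le_cut hG.1 hG.2.2 A hA hA') A B hA hB huA hxA hvA
    hyA huB hyB hvB hxB

end Pool.Agent.HC
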