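import Mathlib
import Pool.Agent.HC.SwBasic

/-!
# The switching bound
-/

namespace Pool.Agent.HC

open Classical in
/-- the neighbours as a finset -/
noncomputable def stNb {n : ℕ} (G : SimpleGraph (Fin n)) (x : Fin n) : Finset (Fin n) :=
  Finset.univ.filter (fun y => G.Adj x y)

theorem mem_stNb {n : ℕ} {G : SimpleGraph (Fin n)} {x y : Fin n} :
    y ∈ stNb G x ↔ G.Adj x y := by
  classical
  unfold stNb
  rw [Finset.mem_filter]
  simp

theorem stNb_card {n : ℕ} {G : SimpleGraph (Fin n)} {x : Fin n}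
    (h : (G.neighborSet x).ncard = 3) : (stNb G x).card = 3 := by
  have h1 : G.neighborSet x = (stNb G x : Set (Fin n)) := by
    ext y
    rw [SimpleGraph.mem_neighborSet, Finset.mem_coe, mem_stNb]
  rwa [h1, Set.ncard_coe_finset] at h

open Classical in
/-- the pairs of adjacent vertices not in `E` and far from `u v` -/
noncomputable def stA {n : ℕ} (G : SimpleGraph (Fin n)) (E : Finset (Sym2 (Fin n)))
    (u v : Fin n) : Finset (Fin n × Fin n) :=
  Finset.univ.filter (fun q => G.Adj q.1 q.2 ∧ s(q.1, q.2) ∉ E ∧ Farr G u v q.1 q.2)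

theorem mem_stA {n : ℕ} {G : SimpleGraph (Fin n)} {E : Finset (Sym2 (Fin n))} {u v : Fin n}
    {q : Fin n × Fin n} :
    q ∈ stA G E u v ↔ G.Adj q.1 q.2 ∧ s(q.1, q.2) ∉ E ∧ Farr G u v q.1 q.2 := by
  classical
  unfold stA
  rw [Finset.mem_filter]
  simp

theorem card_edgePairs {n : ℕ} (E : Finset (Sym2 (Fin n))) (s : Finset (Fin n × Fin n))
    (hs : ∀ q ∈ s, s(q.1, q.2) ∈ E) : s.card ≤ 2 * E.card := by
  classical
  have h1 : s ⊆ E.image (fun e => Quot.out e) ∪ E.image (fun e => (Quot.out e).swap) := by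
    intro q hq
    have h2 := hs q hq
    rw [Finset.mem_union, Finset.mem_image, Finset.mem_image]
    have h3 : s((Quot.out s(q.1, q.2)).1, (Quot.out s(q.1, q.2)).2) = s(q.1, q.2) :=
      Quot.out_eq s(q.1, q.2)
    rw [Sym2.eq_iff] at h3
    rcases h3 with ⟨h4, h5⟩ | ⟨h4, h5⟩
    · exact Or.inl ⟨_, h2, Prod.ext h4 h5⟩
    · exact Or.inr ⟨_, h2, Prod.ext h5 h4⟩
  calc s.card ≤ _ := Finset.card_le_card h1
    _ ≤ _ := Finset.card_union_le _ _
    _ ≤ E.card + E.card := Nat.add_le_add Finset.card_image_le Finset.card_image_le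
    _ = 2 * E.card := by ring

theorem stA_card {n : ℕ} {G : SimpleGraph (Fin n)} (hc : ∀ x, (G.neighborSet x).ncard = 3)
    (E : Finset (Sym2 (Fin n))) {u v : Fin n} (huv : G.Adj u v) (hn : 36 + 2 * E.card ≤ n) :
    2 * n ≤ (stA G E u v).card := by
  classical
  set Ad : Finset (Fin n × Fin n) := (Finset.univ.sigma (fun x => stNb G x)).map
    (Equiv.sigmaEquivProd (Fin n) (Fin n)).toEmbedding with hAd
  have hAdm : ∀ q : Fin n × Fin n, q ∈ Ad ↔ G.Adj q.1 q.2 := by
    intro q
    rw [hAd, Finset.mem_map]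
    constructor
    · rintro ⟨⟨x, y⟩, h1, h2⟩
      rw [Finset.mem_sigma, mem_stNb] at h1
      rw [← h2]
      exact h1.2
    · intro h
      refine ⟨⟨q.1, q.2⟩, ?_, rfl⟩
      rw [Finset.mem_sigma, mem_stNb]
      exact ⟨Finset.mem_univ _, h⟩
  have hAdc : Ad.card = 3 * n := by
    rw [hAd, Finset.card_map, Finset.card_sigma, Finset.sum_congr rfl
      (fun x _ => stNb_card (hc x)), Finset.sum_const, Finset.card_univ, Fintype.card_fin,
      smul_eq_mul, mul_comm]
  set B1 : Finset (Fin n × Fin n) := Ad.filter (fun q => s(q.1, q.2) ∈ E) with hB1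
  have hB1c : B1.card ≤ 2 * E.card :=
    card_edgePairs E B1 (fun q hq => (Finset.mem_filter.1 hq).2)
  set W : Finset (Fin n) := stNb G u ∪ stNb G v with hW
  have hWc : W.card ≤ 6 := by
    refine (Finset.card_union_le _ _).trans ?_
    rw [stNb_card (hc u), stNb_card (hc v)]
  set S1 : Finset (Fin n × Fin n) := (W.sigma (fun x => stNb G x)).map
    (Equiv.sigmaEquivProd (Fin n) (Fin n)).toEmbedding with hS1
  have hS1m : ∀ q : Fin n × Fin n, q.1 ∈ W → G.Adj q.1 q.2 → q ∈ S1 := by
    intro q h1 h2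
    rw [hS1, Finset.mem_map]
    refine ⟨⟨q.1, q.2⟩, ?_, rfl⟩
    rw [Finset.mem_sigma, mem_stNb]
    exact ⟨h1, h2⟩
  have hS1c : S1.card ≤ 18 := by
    rw [hS1, Finset.card_map, Finset.card_sigma, Finset.sum_congr rfl
      (fun x _ => stNb_card (hc x)), Finset.sum_const, smul_eq_mul]
    omega
  set B2 : Finset (Fin n × Fin n) := Ad.filter (fun q => ¬ Farr G u v q.1 q.2) with hB2
  have hB2s : B2 ⊆ S1 ∪ S1.image Prod.swap := by
    intro q hq
    rw [hB2, Finset.mem_filter, hAdm] at hq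
    obtain ⟨h1, h2⟩ := hq
    have h3 : q.1 ∈ W ∨ q.2 ∈ W := by
      by_contra hcon
      push Not at hcon
      rw [hW, Finset.mem_union, Finset.mem_union, mem_stNb, mem_stNb, mem_stNb, mem_stNb] at hcon
      push Not at hcon
      obtain ⟨⟨h4, h5⟩, h6, h7⟩ := hcon
      refine h2 ⟨?_, ?_, ?_, ?_, h4, h6, h5, h7⟩
      · intro he; exact h5 (he ▸ huv.symm)
      · intro he; exact h7 (he ▸ huv.symm)
      · intro he; exact h4 (he ▸ huv)
      · intro he; exact h6 (he ▸ huv)
    rw [Finset.mem_union]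
    rcases h3 with h3 | h3
    · exact Or.inl (hS1m q h3 h1)
    · refine Or.inr (Finset.mem_image.2 ⟨q.swap, hS1m q.swap h3 h1.symm, Prod.swap_swap q⟩)
  have hB2c : B2.card ≤ 36 := by
    refine (Finset.card_le_card hB2s).trans ((Finset.card_union_le _ _).trans ?_)
    have := Finset.card_image_le (s := S1) (f := Prod.swap)
    omega
  have hcov : Ad ⊆ stA G E u v ∪ (B1 ∪ B2) := by
    intro q hq
    rw [Finset.mem_union, Finset.mem_union, mem_stA, hB1, hB2, Finset.mem_filter,
      Finset.mem_filter]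
    by_cases h1 : s(q.1, q.2) ∈ E
    · exact Or.inr (Or.inl ⟨hq, h1⟩)
    · by_cases h2 : Farr G u v q.1 q.2
      · exact Or.inl ⟨(hAdm q).1 hq, h1, h2⟩
      · exact Or.inr (Or.inr ⟨hq, h2⟩)
  have h1 := (Finset.card_le_card hcov).trans (Finset.card_union_le _ _)
  have h2 := Finset.card_union_le B1 B2
  omega

theorem farr_swap {V : Type} {G : SimpleGraph V} {u v x y : V} (h : Farr G u v x y) :
    Farr G u v y x :=
  ⟨h.2.1, h.1, h.2.2.2.1, h.2.2.1, h.2.2.2.2.2.1, h.2.2.2.2.1, h.2.2.2.2.2.2.2,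
    h.2.2.2.2.2.2.1⟩

open Classical in
/-- the pairs whose switching stays in the class -/
noncomputable def stGood {n : ℕ} (K : Set (SimpleGraph (Fin n))) (G : SimpleGraph (Fin n))
    (E : Finset (Sym2 (Fin n))) (u v : Fin n) : Finset (Fin n × Fin n) :=
  (stA G E u v).filter (fun q => sw G u v q.1 q.2 ∈ K)

theorem stGood_card {n : ℕ} {K : Set (SimpleGraph (Fin n))} (hK : SwOK K)
    {G : SimpleGraph (Fin n)} (hG : G ∈ K) (hc : ∀ x, (G.neighborSet x).ncard = 3)
    (E : Finset (Sym2 (Fin n))) {u v : Fin n} (huv : G.Adj u v) (hn : 36 + 2 * E.card ≤ n) :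
    n ≤ (stGood K G E u v).card := by
  classical
  have h1 := stA_card hc E huv hn
  have h2 : stA G E u v ⊆ stGood K G E u v ∪ (stGood K G E u v).image Prod.swap := by
    intro q hq
    have hq' := hq
    rw [mem_stA] at hq
    obtain ⟨h3, h4, h5⟩ := hq
    rw [Finset.mem_union]
    rcases hK G hG u v q.1 q.2 huv h3 h5 with h6 | h6
    · left
      unfold stGood
      rw [Finset.mem_filter]
      exact ⟨hq', h6⟩
    · right
      rw [Finset.mem_image]
      refine ⟨q.swap, ?_, Prod.swap_swap q⟩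
      unfold stGood
      rw [Finset.mem_filter, mem_stA]
      refine ⟨⟨h3.symm, ?_, farr_swap h5⟩, h6⟩
      show s(q.2, q.1) ∉ E
      rw [Sym2.eq_swap]
      exact h4
  have h3 := (Finset.card_le_card h2).trans (Finset.card_union_le _ _)
  have h4 := Finset.card_image_le (s := stGood K G E u v) (f := Prod.swap)
  omega

theorem step_bound (n : ℕ) (K : Set (SimpleGraph (Fin n))) (hc : Cub K) (hK : SwOK K)
    (E : Finset (Sym2 (Fin n))) (e : Sym2 (Fin n)) (he : e ∉ E) (hn : 36 + 2 * E.card ≤ n) :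
    n * (Con K (insert e E)).ncard ≤ 9 * (Con K E).ncard := by
  classical
  induction e using Sym2.ind with
  | _ u v =>
    set T : Finset (SimpleGraph (Fin n)) := Finset.univ.filter (fun G => G ∈ Con K (insert s(u, v) E))
      with hT
    set T' : Finset (SimpleGraph (Fin n)) := Finset.univ.filter (fun G => G ∈ Con K E) with hT'
    have hTm : ∀ G, G ∈ T ↔ G ∈ Con K (insert s(u, v) E) := by
      intro G; rw [hT, Finset.mem_filter]; simp
    have hTm' : ∀ G, G ∈ T' ↔ G ∈ Con K E := by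
      intro G; rw [hT', Finset.mem_filter]; simp
    have hTc : (Con K (insert s(u, v) E)).ncard = T.card := by
      rw [← Set.ncard_coe_finset]
      congr 1
      ext G
      rw [Finset.mem_coe, hTm]
    have hTc' : (Con K E).ncard = T'.card := by
      rw [← Set.ncard_coe_finset]
      congr 1
      ext G
      rw [Finset.mem_coe, hTm']
    rw [hTc, hTc']
    have hadj : ∀ G ∈ T, G.Adj u v := by
      intro G hG
      rw [hTm] at hG
      exact (SimpleGraph.mem_edgeSet G).1 (hG.2 _ (Finset.mem_insert_self _ _))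
    have hlow : n * T.card ≤ (T.sigma (fun G => stGood K G E u v)).card := by
      rw [Finset.card_sigma, mul_comm, ← smul_eq_mul, ← Finset.sum_const]
      refine Finset.sum_le_sum fun G hG => ?_
      have h1 := (hTm G).1 hG
      exact stGood_card hK h1.1 (hc G h1.1) E (hadj G hG) hn
    have hup : (T'.sigma (fun G => (stNb G u) ×ˢ (stNb G v))).card = 9 * T'.card := by
      rw [Finset.card_sigma, Finset.sum_congr rfl (g := fun _ => 9), Finset.sum_const,
        smul_eq_mul, mul_comm]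
      intro G hG
      have h1 := (hTm' G).1 hG
      rw [Finset.card_product, stNb_card (hc G h1.1 u), stNb_card (hc G h1.1 v)]
    rw [← hup]
    refine hlow.trans ?_
    refine Finset.card_le_card_of_injOn
      (fun a => (⟨sw a.1 u v a.2.1 a.2.2, a.2⟩ : Σ _ : SimpleGraph (Fin n), Fin n × Fin n))
      ?_ ?_
    · rintro ⟨G, q⟩ ha
      rw [Finset.mem_coe, Finset.mem_sigma] at ha
      obtain ⟨h1, h2⟩ := ha
      have h3 := (hTm G).1 h1
      unfold stGood at h2
      rw [Finset.mem_filter, mem_stA] at h2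
      obtain ⟨⟨h4, h5, h6⟩, h7⟩ := h2
      have h8 := sw_edgeSet (hadj G h1) h4 h6
      rw [Finset.mem_coe, Finset.mem_sigma, hTm', Finset.mem_product, mem_stNb, mem_stNb]
      refine ⟨⟨h7, ?_⟩, ?_, ?_⟩
      · intro e' he'
        show e' ∈ (sw G u v q.1 q.2).edgeSet
        rw [h8]
        refine Or.inl ⟨h3.2 e' (Finset.mem_insert_of_mem he'), ?_⟩
        rw [Set.mem_insert_iff, Set.mem_singleton_iff]
        rintro (h9 | h9)
        · exact he (h9 ▸ he')
        · exact h5 (h9 ▸ he')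
      · show (sw G u v q.1 q.2).Adj u q.1
        rw [← SimpleGraph.mem_edgeSet, h8]
        exact Or.inr (Set.mem_insert _ _)
      · show (sw G u v q.1 q.2).Adj v q.2
        rw [← SimpleGraph.mem_edgeSet, h8]
        exact Or.inr (Set.mem_insert_of_mem _ rfl)
    · rintro ⟨G, q⟩ ha ⟨G', q'⟩ ha' hh
      rw [Finset.mem_coe, Finset.mem_sigma] at ha ha'
      obtain ⟨h1, h2⟩ := ha
      obtain ⟨h1', h2'⟩ := ha'
      unfold stGood at h2 h2'
      rw [Finset.mem_filter, mem_stA] at h2 h2'
      obtain ⟨⟨h4, h5, h6⟩, h7⟩ := h2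
      obtain ⟨⟨h4', h5', h6'⟩, h7'⟩ := h2'
      simp only [Sigma.mk.injEq, heq_eq_eq] at hh
      obtain ⟨h8, h9⟩ := hh
      subst h9
      have h10 := sw_back (hadj G h1) h4 h6 (hadj G' h1') h4' h6' h8
      rw [h10]

theorem con_bound (n : ℕ) (K : Set (SimpleGraph (Fin n))) (hc : Cub K) (hK : SwOK K)
    (E : Finset (Sym2 (Fin n))) (hn : 36 + 2 * E.card ≤ n) :
    n ^ E.card * (Con K E).ncard ≤ 9 ^ E.card * K.ncard := by
  classical
  induction E using Finset.induction_on with
  | empty =>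
    have h1 : Con K ∅ = K := by
      ext G
      constructor
      · exact fun h => h.1
      · exact fun h => ⟨h, fun e he => absurd he (Finset.notMem_empty e)⟩
    rw [h1, Finset.card_empty, pow_zero, pow_zero]
  | insert e E he ih =>
    rw [Finset.card_insert_of_notMem he] at hn ⊢
    have h1 := ih (by omega)
    have h2 := step_bound n K hc hK E e he (by omega)
    calc n ^ (E.card + 1) * (Con K (insert e E)).ncard =
          n ^ E.card * (n * (Con K (insert e E)).ncard) := by rw [pow_succ]; ring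
      _ ≤ n ^ E.card * (9 * (Con K E).ncard) := Nat.mul_le_mul_left _ h2
      _ = 9 * (n ^ E.card * (Con K E).ncard) := by ring
      _ ≤ 9 * (9 ^ E.card * K.ncard) := Nat.mul_le_mul_left _ h1
      _ = 9 ^ (E.card + 1) * K.ncard := by rw [pow_succ]; ring

end Pool.Agent.HC
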