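import Mathlib
import Pool.Agent.HC.Step

/-!
# Almost all graphs of the class are locally unicyclic
-/

namespace Pool.Agent.HC

/-- the graphs of the class which contain the image of the set of edges, if it is injective -/
private def un_A (n s : ℕ) (K : Set (SimpleGraph (Fin n)))
    (x : (Fin s → Fin n) × Finset (Sym2 (Fin s))) : Set (SimpleGraph (Fin n)) :=
  {G | (x.2.image (Sym2.map x.1)).card = s + 1 ∧ G ∈ Con K (x.2.image (Sym2.map x.1))}

private theorem un_A_le (n s : ℕ) (K : Set (SimpleGraph (Fin n))) (hc : Cub K) (hK : SwOK K)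
    (hn : 36 + 2 * (s + 1) ≤ n) (x : (Fin s → Fin n) × Finset (Sym2 (Fin s))) :
    n ^ (s + 1) * (un_A n s K x).ncard ≤ 9 ^ (s + 1) * K.ncard := by
  by_cases h : (x.2.image (Sym2.map x.1)).card = s + 1
  · have h1 := con_bound n K hc hK (x.2.image (Sym2.map x.1)) (by rw [h]; exact hn)
    rw [h] at h1
    have h2 : un_A n s K x ⊆ Con K (x.2.image (Sym2.map x.1)) := fun G hG => hG.2
    exact le_trans (Nat.mul_le_mul_left _ (Set.ncard_le_ncard h2 (Set.toFinite _))) h1
  · have h2 : un_A n s K x = ∅ := by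
      ext G
      simp only [un_A, Set.mem_setOf_eq, Set.mem_empty_iff_false, iff_false, not_and]
      intro h3
      exact absurd h3 h
    rw [h2, Set.ncard_empty, mul_zero]
    exact Nat.zero_le _

private theorem un_sum (n s : ℕ) (K : Set (SimpleGraph (Fin n))) (hc : Cub K) (hK : SwOK K)
    (hn : 36 + 2 * (s + 1) ≤ n) :
    n * ∑ x : (Fin s → Fin n) × Finset (Sym2 (Fin s)), (un_A n s K x).ncard ≤
      2 ^ Fintype.card (Sym2 (Fin s)) * 9 ^ (s + 1) * K.ncard := by
  have hn0 : 0 < n := by omega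
  apply Nat.le_of_mul_le_mul_left _ (pow_pos hn0 s)
  calc n ^ s * (n * ∑ x : (Fin s → Fin n) × Finset (Sym2 (Fin s)), (un_A n s K x).ncard)
      = ∑ x : (Fin s → Fin n) × Finset (Sym2 (Fin s)), n ^ (s + 1) * (un_A n s K x).ncard := by
        rw [← mul_assoc, ← pow_succ, Finset.mul_sum]
    _ ≤ ∑ _x : (Fin s → Fin n) × Finset (Sym2 (Fin s)), 9 ^ (s + 1) * K.ncard :=
        Finset.sum_le_sum fun x _ => un_A_le n s K hc hK hn x
    _ = n ^ s * (2 ^ Fintype.card (Sym2 (Fin s)) * 9 ^ (s + 1) * K.ncard) := by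
        rw [Finset.sum_const, Finset.card_univ, Fintype.card_prod, Fintype.card_fun,
          Fintype.card_fin, Fintype.card_fin, Fintype.card_finset, smul_eq_mul]
        ring

private theorem un_ex (n N : ℕ) (K : Set (SimpleGraph (Fin n))) (G : SimpleGraph (Fin n))
    (hG : G ∈ K) (hS : ¬ Sparse G N) :
    ∃ s ∈ Finset.range (N + 1), ∃ x : (Fin s → Fin n) × Finset (Sym2 (Fin s)),
      G ∈ un_A n s K x := by
  classical
  unfold Sparse at hS
  push Not at hS
  obtain ⟨S, hSN, hSe⟩ := hS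
  have hSf : S.Finite := Set.toFinite S
  set S' : Finset (Fin n) := hSf.toFinset with hS'
  have hcard : S'.card = S.ncard := by
    rw [hS', Set.ncard_eq_toFinset_card S hSf]
  set T : Set (Sym2 (Fin n)) := {e | e ∈ G.edgeSet ∧ ∀ v ∈ e, v ∈ S} with hT
  have hTf : T.Finite := Set.toFinite T
  have hTc : S.ncard + 1 ≤ hTf.toFinset.card := by
    rw [← Set.ncard_eq_toFinset_card T hTf]
    exact hSe
  obtain ⟨E0, hE0, hE0c⟩ := Finset.exists_subset_card_eq hTc
  set g := S'.orderEmbOfFin hcard with hg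
  have hgr : ∀ v ∈ S, ∃ i, g i = v := by
    intro v hv
    have h1 : v ∈ Set.range g := by
      rw [hg, Finset.range_orderEmbOfFin, Finset.mem_coe, hS', Set.Finite.mem_toFinset]
      exact hv
    exact h1
  have himg : ((Finset.univ.filter (fun e : Sym2 (Fin S.ncard) => Sym2.map g e ∈ E0)).image
      (Sym2.map g)) = E0 := by
    ext e
    rw [Finset.mem_image]
    constructor
    · rintro ⟨e', he', rfl⟩
      exact (Finset.mem_filter.mp he').2
    · intro he
      have h1 := hE0 he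
      rw [Set.Finite.mem_toFinset] at h1
      have h2 := h1.2
      induction e using Sym2.ind with
      | _ a b =>
        obtain ⟨i, hi⟩ := hgr a (h2 a (Sym2.mem_mk_left a b))
        obtain ⟨j, hj⟩ := hgr b (h2 b (Sym2.mem_mk_right a b))
        refine ⟨s(i, j), ?_, ?_⟩
        · rw [Finset.mem_filter]
          refine ⟨Finset.mem_univ _, ?_⟩
          rw [Sym2.map_mk, hi, hj]
          exact he
        · rw [Sym2.map_mk, hi, hj]
  refine ⟨S.ncard, Finset.mem_range.mpr (Nat.lt_succ_of_le hSN),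
    ⟨g, Finset.univ.filter (fun e : Sym2 (Fin S.ncard) => Sym2.map g e ∈ E0)⟩, ?_, hG, ?_⟩
  · show (Finset.image _ _).card = _
    have : ((Finset.univ.filter (fun e : Sym2 (Fin S.ncard) => Sym2.map g e ∈ E0)).image
      (Sym2.map g)).card = S.ncard + 1 := by rw [himg, hE0c]
    convert this
  · intro e he
    have he' : e ∈ E0 := by
      rw [← himg]
      convert he
    have h1 := hE0 he'
    rw [Set.Finite.mem_toFinset] at h1
    exact h1.1

theorem sparse_count (N : ℕ) : ∃ C : ℕ, ∀ (n : ℕ) (K : Set (SimpleGraph (Fin n))), Cub K →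
    SwOK K → n * {G | G ∈ K ∧ ¬ Sparse G N}.ncard ≤ C * K.ncard := by
  classical
  refine ⟨(∑ s ∈ Finset.range (N + 1), 2 ^ Fintype.card (Sym2 (Fin s)) * 9 ^ (s + 1)) +
    (36 + 2 * (N + 1)), ?_⟩
  intro n K hc hK
  rcases lt_or_ge n (36 + 2 * (N + 1)) with hn | hn
  · calc n * {G | G ∈ K ∧ ¬ Sparse G N}.ncard ≤ (36 + 2 * (N + 1)) * K.ncard :=
          Nat.mul_le_mul hn.le (Set.ncard_le_ncard (fun G h => h.1) (Set.toFinite _))
      _ ≤ _ := Nat.mul_le_mul_right _ (Nat.le_add_left _ _)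
  · have hsub : {G | G ∈ K ∧ ¬ Sparse G N} ⊆
        ⋃ s ∈ Finset.range (N + 1), ⋃ x ∈ (Finset.univ :
          Finset ((Fin s → Fin n) × Finset (Sym2 (Fin s)))), un_A n s K x := by
      intro G hG
      obtain ⟨s, hs, x, hx⟩ := un_ex n N K G hG.1 hG.2
      rw [Set.mem_iUnion₂]
      refine ⟨s, hs, ?_⟩
      rw [Set.mem_iUnion₂]
      exact ⟨x, Finset.mem_univ _, hx⟩
    have h1 : {G | G ∈ K ∧ ¬ Sparse G N}.ncard ≤ ∑ s ∈ Finset.range (N + 1),
        ∑ x : (Fin s → Fin n) × Finset (Sym2 (Fin s)), (un_A n s K x).ncard := by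
      refine le_trans (Set.ncard_le_ncard hsub (Set.toFinite _)) ?_
      refine le_trans (Finset.set_ncard_biUnion_le _ _) ?_
      exact Finset.sum_le_sum fun s _ => Finset.set_ncard_biUnion_le _ _
    calc n * {G | G ∈ K ∧ ¬ Sparse G N}.ncard ≤ n * ∑ s ∈ Finset.range (N + 1),
          ∑ x : (Fin s → Fin n) × Finset (Sym2 (Fin s)), (un_A n s K x).ncard :=
          Nat.mul_le_mul_left _ h1
      _ = ∑ s ∈ Finset.range (N + 1), n * ∑ x : (Fin s → Fin n) × Finset (Sym2 (Fin s)),
          (un_A n s K x).ncard := Finset.mul_sum _ _ _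
      _ ≤ ∑ s ∈ Finset.range (N + 1), 2 ^ Fintype.card (Sym2 (Fin s)) * 9 ^ (s + 1) *
          K.ncard := by
          refine Finset.sum_le_sum fun s hs => un_sum n s K hc hK ?_
          have := Finset.mem_range.mp hs
          omega
      _ = (∑ s ∈ Finset.range (N + 1), 2 ^ Fintype.card (Sym2 (Fin s)) * 9 ^ (s + 1)) *
          K.ncard := (Finset.sum_mul _ _ _).symm
      _ ≤ _ := Nat.mul_le_mul_right _ (Nat.le_add_right _ _)

end Pool.Agent.HC
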