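import Mathlib
import Pool.Agent.HC.LocMain
import Pool.Agent.HC.Union
import Pool.Agent.HC.SwClass

/-!
# Almost all connected bridgeless cubic graphs
-/

namespace Pool.Agent.HC

theorem main_almost : ∃ k C : ℕ, ∀ n : ℕ,
    n * {G : SimpleGraph (Fin n) | G.Connected ∧ (∀ v, (G.neighborSet v).ncard = 3) ∧
      (∀ e ∈ G.edgeSet, ¬ G.IsBridge e) ∧
      ¬ ∃ c : Fin n → Fin k, (∀ u v, G.Adj u v → c u ≠ c v) ∧
        ∀ v, (c '' G.neighborSet v).ncard = 2}.ncard ≤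
    C * {G : SimpleGraph (Fin n) | G.Connected ∧ (∀ v, (G.neighborSet v).ncard = 3) ∧
      ∀ e ∈ G.edgeSet, ¬ G.IsBridge e}.ncard := by
  obtain ⟨N, k, hloc⟩ := main_local
  obtain ⟨C, hC⟩ := sparse_count N
  refine ⟨k, C, ?_⟩
  intro n
  have h1 := hC n (CB (Fin n)) (fun G hG => hG.2.1) (swOK_CB (Fin n))
  refine le_trans (Nat.mul_le_mul_left n (Set.ncard_le_ncard ?_ (Set.toFinite _))) h1
  rintro G ⟨g1, g2, g3, g4⟩
  refine ⟨⟨g1, g2, g3⟩, ?_⟩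
  intro hs
  exact g4 (hloc (Fin n) G g2 (Pool.Agent.H32.Hom.exists_perfectMatching G g2 g3) hs)

end Pool.Agent.HC
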